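import Pool.Agent.V5helper23.KP.Base

set_option autoImplicit false

/-! The two kinds of families of patterns. -/

namespace Pool.Agent.V5helper23.KP
open Finset
open Pool.Agent.H373R2.T7
open Pool.Agent.Y885 (Thin TLaw Spec)

/-- Differences from an interval: the differences `r 1, ..., r n` are `n ≥ log ^ B' X` consecutive integers, and `S` is a
set of at least `log ^ B X` integers, which is contained in an interval with `W ≤ (#S) log ^ C X` elements, where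
`n W ≥ X / log ^ C X`. -/
def Long (B B' C X n : ℕ) (r : ℕ → ℤ) (S : Finset ℤ) : Prop :=
  ∃ (u₀ w₀ : ℤ) (W : ℕ), (∀ m : ℕ, r m = u₀ + m) ∧ S ⊆ Ioc w₀ (w₀ + W) ∧ (W : ℝ) ≤ Real.log X ^ C * S.card ∧
    Real.log X ^ B ≤ S.card ∧ Real.log X ^ B' ≤ n ∧ (X : ℝ) ≤ Real.log X ^ C * (n * W)

/-- Differences from a thin family: the differences `r 1, ..., r n` are arbitrary integers in `[-X, X]` with nearly
minimal additive energy of order `p`, that is, the energy is at most `log ^ C X * n ^ (2 * p) / X`, and `S` is a set of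
at least `log ^ B X` integers at a distance of at most `log ^ C X` from some integer. -/
def Short (p B C X n : ℕ) (r : ℕ → ℤ) (S : Finset ℤ) : Prop :=
  (∀ m ∈ Icc 1 n, |r m| ≤ X) ∧ (energy p n r : ℝ) * X ≤ Real.log X ^ C * (n : ℝ) ^ (2 * p) ∧
    ∃ w₀ : ℤ, (∀ w ∈ S, |((w - w₀ : ℤ) : ℝ)| ≤ Real.log X ^ C) ∧ Real.log X ^ B ≤ S.card

lemma thin_mono (b E Q Q' k m : ℕ) (S : Finset ℕ) (hQ : Q ≤ Q') (h : Thin b E Q k m S) : Thin b E Q' k m S :=
  ⟨h.lt, fun i hi => (h.bot i hi).trans (Nat.mul_le_mul_right _ hQ), fun j x hj => (h.top j x hj).trans (Nat.mul_le_mul_right _ hQ),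
    h.all.trans (Nat.mul_le_mul_right _ hQ)⟩

lemma PF_mono (c c' V A X : ℕ) (hc : c ≤ c') (hX : 1 ≤ lvl X) {ι : Type} (I : Finset ι) (r : ι → ℤ) (S : Finset ℤ)
    (h : PF c V A X I r S) : PF c' V A X I r S := by
  intro D hD hDc a b
  have h1 := h D hD hDc a b
  exact ⟨h1.nonneg, h1.le_one, thin_mono _ _ _ _ _ _ _ (Nat.pow_le_pow_right hX hc) h1.thin⟩

theorem family_PF (p A C V : ℕ) : ∃ c X₀ : ℕ, ∀ X : ℕ, X₀ ≤ X → ∀ (n : ℕ) (r : ℕ → ℤ) (S : Finset ℤ), 1 ≤ n →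
    (Long (2 * V + A + 2) (4 * V + 2 * A + C + 3) C X n r S ∨ Short p (2 * V + A + 2) C X n r S) →
    PF c V A X (Icc 1 n) r S := by
  obtain ⟨c1, X1, h1⟩ := PF_long A C V
  obtain ⟨c2, X2, h2⟩ := PF_short p A C V
  refine ⟨c1 + c2, X1 + X2 + 1, fun X hX n r S hn h => ?_⟩
  have hl : 1 ≤ lvl X := Nat.clog_pos (by norm_num) (by omega)
  rcases h with ⟨u₀, w₀, W, g1, g2, g3, g4, g5, g6⟩ | ⟨g1, g2, w₀, g3, g4⟩
  · exact PF_mono c1 (c1 + c2) V A X (by omega) hl _ _ _ (h1 X (by omega) u₀ w₀ n W S g2 g3 g4 g5 g6 r g1)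
  · exact PF_mono c2 (c1 + c2) V A X (by omega) hl _ _ _ (h2 X (by omega) n r hn g1 g2 w₀ S g3 g4)

/-- the values of a polynomial have nearly minimal energy -/
theorem poly_energy (f : Polynomial ℤ) (hf : 1 ≤ f.natDegree) : ∃ p : ℕ, ∀ C : ℕ, ∃ X₀ : ℕ, ∀ X : ℕ, X₀ ≤ X → ∀ n : ℕ,
    (X : ℝ) ≤ Real.log X ^ C * (n : ℝ) ^ f.natDegree →
    (energy p n (fun m => f.eval (m : ℤ)) : ℝ) * X ≤ Real.log X ^ (C + 1) * (n : ℝ) ^ (2 * p) := by
  obtain ⟨p, C1, hC1, h1⟩ := Pool.Agent.TH823.Fam.energy_poly' f hf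
  refine ⟨p, fun C => ?_⟩
  obtain ⟨N1, h2⟩ := ev_L' ⌈C1⌉₊
  refine ⟨N1 + 1, fun X hX n hn => ?_⟩
  have hL := h2 X (by omega)
  have hX0 : (0 : ℝ) < X := by exact_mod_cast (by omega : 0 < X)
  have hL0 : 0 ≤ Real.log X := Real.log_natCast_nonneg X
  have hn1 : 1 ≤ n := by
    by_contra hcon
    have : n = 0 := by omega
    subst this
    rw [Nat.cast_zero, zero_pow (by omega), mul_zero] at hn
    linarith
  have h3 := h1 n hn1 0
  simp only [zero_add] at h3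
  have hC : C1 ≤ Real.log X := (Nat.le_ceil C1).trans hL
  calc (energy p n (fun m => f.eval (m : ℤ)) : ℝ) * X ≤
        (energy p n (fun m => f.eval (m : ℤ)) : ℝ) * (Real.log X ^ C * (n : ℝ) ^ f.natDegree) :=
        mul_le_mul_of_nonneg_left hn (Nat.cast_nonneg _)
    _ = Real.log X ^ C * ((energy p n (fun m => f.eval (m : ℤ)) : ℝ) * (n : ℝ) ^ f.natDegree) := by ring
    _ ≤ Real.log X ^ C * (C1 * (n : ℝ) ^ (2 * p)) := mul_le_mul_of_nonneg_left h3 (by positivity)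
    _ ≤ Real.log X ^ C * (Real.log X * (n : ℝ) ^ (2 * p)) := by
        apply mul_le_mul_of_nonneg_left _ (by positivity)
        exact mul_le_mul_of_nonneg_right hC (by positivity)
    _ = _ := by ring

end Pool.Agent.V5helper23.KP
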