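import Pool.Agent.V5helper23.KP.Pat
import Pool.Agent.N469.TL.LawX
import Pool.Agent.TH823.Fam.Fam2

set_option autoImplicit false

/-! Families of patterns. -/

namespace Pool.Agent.V5helper23.KP
open Finset
open Pool.Agent.H807R2.Dav
open Pool.Agent.H373R2.T7
open Pool.Agent.Y885 (Thin TLaw Spec)

/-- the level which belongs to `X` -/
def lvl (X : ℕ) : ℕ := Nat.clog 2 (4 * X)

/-- the patterns `a + b w + r i w`, `w ∈ S`, for `i ∈ I` have a thin large spectrum, whatever translations one chooses -/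
def PF (c V A X : ℕ) {ι : Type} (I : Finset ι) (r : ι → ℤ) (S : Finset ℤ) : Prop :=
  ∀ D ⊆ I, (I.card : ℝ) ≤ (lvl X : ℝ) ^ A * D.card → ∀ (a : ι → ℤ) (b : ℤ → ℤ),
    TLaw 2 3 c V (lvl X) (D ×ˢ S) (fun _ => 1 / ((D.card : ℝ) * S.card)) (fun ω => a ω.1 + b ω.2 + r ω.1 * ω.2)

lemma lvl_facts : ∃ X₀ : ℕ, ∀ X : ℕ, X₀ ≤ X → 4 * X ≤ 2 ^ lvl X ∧ 2 ^ lvl X ≤ 8 * X ∧ Real.log X ≤ lvl X ∧
    (lvl X : ℝ) ≤ 2 * Real.log X := by
  obtain ⟨n1, h1⟩ := ev_L' 8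
  refine ⟨n1 + 2, fun X hX => ?_⟩
  have h8 := h1 X (by omega)
  have hX0 : (0 : ℝ) < X := by exact_mod_cast (by omega : 0 < X)
  have a1 : 4 * X ≤ 2 ^ lvl X := Nat.le_pow_clog (by norm_num) _
  have a2 : 2 ^ lvl X ≤ 8 * X := by
    have b1 : 0 < lvl X := Nat.clog_pos (by norm_num) (by omega)
    have b2 : 2 ^ (lvl X - 1) < 4 * X := Nat.pow_pred_clog_lt_self (by norm_num) (by omega)
    have b3 : 2 ^ lvl X = 2 * 2 ^ (lvl X - 1) := by rw [← pow_succ']; congr 1; omega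
    omega
  have e1 := Real.log_two_gt_d9
  have e2 := Real.log_two_lt_d9
  refine ⟨a1, a2, ?_, ?_⟩
  · have c1 : (X : ℝ) ≤ 2 ^ lvl X := by exact_mod_cast (by omega : X ≤ 2 ^ lvl X)
    have c2 := Real.log_le_log hX0 c1
    rw [Real.log_pow] at c2
    have c3 : (0 : ℝ) ≤ lvl X := Nat.cast_nonneg _
    nlinarith
  · have c1 : ((2 : ℝ) ^ lvl X) ≤ 8 * X := by exact_mod_cast a2
    have c2 := Real.log_le_log (by positivity) c1
    rw [Real.log_pow, Real.log_mul (by norm_num) hX0.ne'] at c2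
    have c3 : Real.log 8 ≤ 3 := by
      rw [show (8 : ℝ) = 2 ^ 3 by norm_num, Real.log_pow]
      push_cast
      linarith
    have c4 : (0 : ℝ) ≤ lvl X := Nat.cast_nonneg _
    nlinarith

lemma log_pow_le (B : ℕ) : ∃ X₀ : ℕ, ∀ X : ℕ, X₀ ≤ X → (lvl X : ℝ) ^ B ≤ Real.log X ^ (B + 1) := by
  obtain ⟨n0, h0⟩ := lvl_facts
  obtain ⟨n1, h1⟩ := ev_L' ((2 : ℝ) ^ B)
  refine ⟨n0 + n1, fun X hX => ?_⟩
  obtain ⟨_, _, a3, a4⟩ := h0 X (by omega)
  have a5 := h1 X (by omega)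
  have hL : 0 ≤ Real.log X := Real.log_natCast_nonneg X
  calc (lvl X : ℝ) ^ B ≤ (2 * Real.log X) ^ B := pow_le_pow_left₀ (Nat.cast_nonneg _) a4 B
    _ = 2 ^ B * Real.log X ^ B := by rw [mul_pow]
    _ ≤ Real.log X * Real.log X ^ B := mul_le_mul_of_nonneg_right a5 (by positivity)
    _ = Real.log X ^ (B + 1) := by rw [pow_succ]; ring

/-- differences from an interval, patterns from dense subsets of an interval -/
theorem PF_long (A C V : ℕ) : ∃ c X₀ : ℕ, ∀ X : ℕ, X₀ ≤ X → ∀ (u0 w0 : ℤ) (x W : ℕ) (S : Finset ℤ),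
    S ⊆ Ioc w0 (w0 + W) → (W : ℝ) ≤ Real.log X ^ C * S.card → Real.log X ^ (2 * V + A + 2) ≤ S.card →
    Real.log X ^ (4 * V + 2 * A + C + 3) ≤ x → (X : ℝ) ≤ Real.log X ^ C * (x * W) →
    ∀ r : ℕ → ℤ, (∀ m, r m = u0 + m) → PF c V A X (Icc 1 x) r S := by
  classical
  obtain ⟨c, K₀, h⟩ := kp_tlaw A (C + 1) V
  obtain ⟨n1, h1⟩ := lvl_facts
  obtain ⟨n2, h2⟩ := log_pow_le (2 * V + A + 1)
  obtain ⟨n3, h3⟩ := log_pow_le (4 * V + 2 * A + (C + 1) + 1)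
  obtain ⟨n4, h4⟩ := ev_L' ((K₀ + 8 : ℕ) : ℝ)
  refine ⟨c, n1 + n2 + n3 + n4 + 2, fun X hX u0 w0 x W S hS hW hSc hx hXx r hr => ?_⟩
  obtain ⟨a1, a2, a3, a4⟩ := h1 X (by omega)
  have b2 := h2 X (by omega)
  have b3 := h3 X (by omega)
  have b4 := h4 X (by omega)
  obtain ⟨K, hK⟩ : ∃ K, K = lvl X := ⟨_, rfl⟩
  rw [← hK] at a1 a2 a3 a4 b2 b3
  have hL0 : 0 ≤ Real.log X := Real.log_natCast_nonneg X
  have hK8 : ((K₀ + 8 : ℕ) : ℝ) ≤ K := b4.trans a3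
  have hK8' : K₀ + 8 ≤ K := by exact_mod_cast hK8
  have hKr : (8 : ℝ) ≤ K := by exact_mod_cast (by omega : 8 ≤ K)
  have hLC : Real.log X ^ C ≤ (K : ℝ) ^ C := pow_le_pow_left₀ hL0 a3 C
  intro D hD hDc a b
  rw [← hK] at hDc ⊢
  rw [Nat.card_Icc, Nat.add_sub_cancel] at hDc
  -- transport to integers
  obtain ⟨D', hD'⟩ : ∃ D' : Finset ℤ, D' = D.image r := ⟨_, rfl⟩
  have hinj : ∀ m m' : ℕ, r m = r m' → m = m' := by
    intro m m' hmm
    rw [hr, hr] at hmm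
    omega
  have hcard : D'.card = D.card := by
    rw [hD']
    exact card_image_of_injective _ (fun m m' hmm => hinj m m' hmm)
  have hDsub : D' ⊆ Ioc u0 (u0 + (x : ℕ)) := by
    intro z hz
    rw [hD', mem_image] at hz
    obtain ⟨m, hm, rfl⟩ := hz
    have := mem_Icc.1 (hD hm)
    rw [mem_Ioc, hr]
    omega
  have hlaw := h K (by omega) D' S u0 w0 x W hDsub hS (by rw [hcard]; exact hDc) (by
      refine hW.trans (mul_le_mul_of_nonneg_right (hLC.trans ?_) (Nat.cast_nonneg _))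
      rw [pow_succ]
      exact le_mul_of_one_le_right (by positivity) (by linarith)) (by
      refine b2.trans (le_trans (le_of_eq ?_) hSc)
      congr 1) (by
      refine b3.trans (le_trans (le_of_eq ?_) hx)
      congr 1) (by
      have e1 : ((2 : ℝ) ^ K) ≤ 8 * X := by exact_mod_cast a2
      calc (2 : ℝ) ^ K ≤ 8 * X := e1
        _ ≤ K * (Real.log X ^ C * (x * W)) := mul_le_mul hKr hXx (Nat.cast_nonneg _) (by linarith)
        _ ≤ K * ((K : ℝ) ^ C * (x * W)) := by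
            apply mul_le_mul_of_nonneg_left _ (by linarith)
            exact mul_le_mul_of_nonneg_right hLC (by positivity)
        _ = (K : ℝ) ^ (C + 1) * (x * W) := by ring)
    (fun z => a ((z - u0).toNat)) b
  -- back
  have hre : ∀ m : ℕ, (r m - u0).toNat = m := by intro m; rw [hr]; omega
  have hsum : ∀ f : ℤ → ℤ → ℂ, ∑ ω ∈ D' ×ˢ S, f ω.1 ω.2 = ∑ ω ∈ D ×ˢ S, f (r ω.1) ω.2 := by
    intro f
    rw [sum_product, sum_product, hD', sum_image (fun m _ m' _ hmm => hinj m m' hmm)]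
  have hSpec : Spec 2 V K (D ×ˢ S) (fun _ => 1 / ((D.card : ℝ) * S.card)) (fun ω => a ω.1 + b ω.2 + r ω.1 * ω.2) =
      Spec 2 V K (D' ×ˢ S) (fun _ => 1 / ((D'.card : ℝ) * S.card)) (fun ω => a ((ω.1 - u0).toNat) + b ω.2 + ω.1 * ω.2) := by
    unfold Spec
    apply filter_congr
    intro t _
    have e1 := hsum (fun z w => (((1 / ((D'.card : ℝ) * S.card) : ℝ)) : ℂ) * ee (((a ((z - u0).toNat) + b w + z * w : ℤ) : ℝ) * ((t : ℝ) / ((2 ^ (K + 1) : ℕ) : ℝ))))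
    rw [e1]
    simp only [hre, hcard]
  refine ⟨fun _ _ => by positivity, ?_, ?_⟩
  · have e1 := hlaw.le_one
    rw [hcard] at e1
    rw [sum_const, nsmul_eq_mul, card_product] at e1 ⊢
    rw [hcard] at e1
    exact e1
  · rw [hSpec]
    exact hlaw.thin

lemma PF_shift (c V A X : ℕ) {ι : Type} (I : Finset ι) (r : ι → ℤ) (S : Finset ℤ) (w0 : ℤ)
    (h : PF c V A X I r (S.image (fun w => w - w0))) : PF c V A X I r S := by
  classical
  intro D hD hDc a b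
  have h1 := h D hD hDc (fun i => a i + r i * w0) (fun w => b (w + w0))
  have hinj : ∀ w w' : ℤ, w - w0 = w' - w0 → w = w' := fun w w' hw => by linarith
  have hcard : (S.image (fun w => w - w0)).card = S.card := card_image_of_injective _ (fun w w' hw => hinj w w' hw)
  rw [hcard] at h1
  have hsum : ∀ f : ι → ℤ → ℂ, ∑ ω ∈ D ×ˢ (S.image (fun w => w - w0)), f ω.1 ω.2 = ∑ ω ∈ D ×ˢ S, f ω.1 (ω.2 - w0) := by
    intro f
    rw [sum_product, sum_product]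
    apply sum_congr rfl
    intro i _
    rw [sum_image (fun m _ m' _ hmm => hinj m m' hmm)]
  have hSpec : Spec 2 V (lvl X) (D ×ˢ S) (fun _ => 1 / ((D.card : ℝ) * S.card)) (fun ω => a ω.1 + b ω.2 + r ω.1 * ω.2) =
      Spec 2 V (lvl X) (D ×ˢ (S.image (fun w => w - w0))) (fun _ => 1 / ((D.card : ℝ) * S.card))
        (fun ω => (a ω.1 + r ω.1 * w0) + b (ω.2 + w0) + r ω.1 * ω.2) := by
    unfold Spec
    apply filter_congr
    intro t _
    have e1 := hsum (fun i w => (((1 / ((D.card : ℝ) * S.card) : ℝ)) : ℂ) *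
      ee ((((a i + r i * w0) + b (w + w0) + r i * w : ℤ) : ℝ) * ((t : ℝ) / ((2 ^ (lvl X + 1) : ℕ) : ℝ))))
    rw [e1]
    have e2 : ∀ ω : ι × ℤ, (a ω.1 + r ω.1 * w0) + b (ω.2 - w0 + w0) + r ω.1 * (ω.2 - w0) = a ω.1 + b ω.2 + r ω.1 * ω.2 := by
      intro ω
      rw [sub_add_cancel]
      ring
    simp only [e2]
  refine ⟨fun _ _ => by positivity, ?_, ?_⟩
  · have e1 := h1.le_one
    rw [sum_const, nsmul_eq_mul, card_product, hcard] at e1
    rw [sum_const, nsmul_eq_mul, card_product]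
    exact e1
  · rw [hSpec]
    exact h1.thin

/-- differences from a thin family, short patterns -/
theorem PF_short (p A C V : ℕ) : ∃ c X₀ : ℕ, ∀ X : ℕ, X₀ ≤ X → ∀ (x : ℕ) (r : ℕ → ℤ), 1 ≤ x → (∀ m ∈ Icc 1 x, |r m| ≤ X) →
    (energy p x r : ℝ) * X ≤ Real.log X ^ C * (x : ℝ) ^ (2 * p) →
    ∀ (w0 : ℤ) (S : Finset ℤ), (∀ w ∈ S, |((w - w0 : ℤ) : ℝ)| ≤ Real.log X ^ C) → Real.log X ^ (2 * V + A + 2) ≤ S.card →
    PF c V A X (Icc 1 x) r S := by
  classical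
  obtain ⟨c', K1, g1⟩ := energy_spec p (2 * V + A + 1) (C + 1)
  obtain ⟨c, K2, g2⟩ := pat_tlaw A C V c'
  obtain ⟨n1, h1⟩ := lvl_facts
  obtain ⟨n2, h2⟩ := log_pow_le (2 * V + A + 1)
  obtain ⟨n4, h4⟩ := ev_L' ((K1 + K2 + 8 : ℕ) : ℝ)
  refine ⟨c, n1 + n2 + n4 + 2, fun X hX x r hx hr hE w0 S hS hSc => ?_⟩
  obtain ⟨a1, a2, a3, a4⟩ := h1 X (by omega)
  have b2 := h2 X (by omega)
  have b4 := h4 X (by omega)
  apply PF_shift c V A X (Icc 1 x) r S w0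
  obtain ⟨K, hK⟩ : ∃ K, K = lvl X := ⟨_, rfl⟩
  rw [← hK] at a1 a2 a3 a4 b2
  have hL0 : 0 ≤ Real.log X := Real.log_natCast_nonneg X
  have hK8 : ((K1 + K2 + 8 : ℕ) : ℝ) ≤ K := b4.trans a3
  have hK8' : K1 + K2 + 8 ≤ K := by exact_mod_cast hK8
  have hKr : (8 : ℝ) ≤ K := by exact_mod_cast (by omega : 8 ≤ K)
  have hLC : Real.log X ^ C ≤ (K : ℝ) ^ C := pow_le_pow_left₀ hL0 a3 C
  have hcard : (S.image (fun w => w - w0)).card = S.card := card_image_of_injective _ (fun w w' (hw : w - w0 = w' - w0) => by linarith)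
  intro D hD hDc a b
  rw [← hK] at hDc ⊢
  refine g2 K (by omega) ℕ D (Icc 1 x) (S.image (fun w => w - w0)) r hD hDc ?_ ?_ ?_ a b
  · intro w hw
    rw [mem_image] at hw
    obtain ⟨w', hw', rfl⟩ := hw
    have e1 := (hS w' hw').trans hLC
    have e2 : (|w' - w0| : ℝ) ≤ (K : ℝ) ^ C := by
      push_cast at e1
      exact e1
    exact_mod_cast e2
  · rw [hcard]
    refine b2.trans (le_trans (le_of_eq ?_) hSc)
    congr 1
  · apply g1 K (by omega) x r hx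
    · intro m hm
      refine (hr m hm).trans ?_
      exact_mod_cast (by omega : X ≤ 2 ^ K)
    · have e1 : ((2 : ℝ) ^ K) ≤ 8 * X := by exact_mod_cast a2
      calc (energy p x r : ℝ) * 2 ^ K ≤ energy p x r * (8 * X) := mul_le_mul_of_nonneg_left e1 (Nat.cast_nonneg _)
        _ = 8 * (energy p x r * X) := by ring
        _ ≤ K * ((K : ℝ) ^ C * (x : ℝ) ^ (2 * p)) := by
            apply mul_le_mul hKr _ (by positivity) (by linarith)
            exact hE.trans (mul_le_mul_of_nonneg_right hLC (by positivity))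
        _ = (K : ℝ) ^ (C + 1) * (x : ℝ) ^ (2 * p) := by ring

/-- the selection of the worst translations -/
theorem select {ι : Type} (I : Finset ι) (r : ι → ℤ) (S : Finset ℤ) (b : ℤ → ℤ) (hS : S.Nonempty) (Rg Bad : ℤ → Prop) (ε₁ ε₂ : ℝ)
    (_hdec : DecidablePred Bad)
    (H : ∀ D ⊆ I, D.Nonempty → ε₁ * I.card < D.card → ∀ a : ι → ℤ, (∀ ω ∈ D ×ˢ S, Rg (a ω.1 + b ω.2 + r ω.1 * ω.2)) →
      ∑ ω ∈ D ×ˢ S, (if Bad (a ω.1 + b ω.2 + r ω.1 * ω.2) then 1 / ((D.card : ℝ) * S.card) else 0) ≤ ε₂) (hε₁ : 0 ≤ ε₁)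
    (E : Finset ι) (hEI : E ⊆ I)
    (hE : ∀ i ∈ E, ∃ a : ℤ, (∀ w ∈ S, Rg (a + b w + r i * w)) ∧ ε₂ * S.card < (S.filter (fun w => Bad (a + b w + r i * w))).card) :
    (E.card : ℝ) ≤ ε₁ * I.card := by
  classical
  by_contra hcon
  push Not at hcon
  have hEne : E.Nonempty := by
    rw [← card_pos]
    have : (0 : ℝ) < E.card := lt_of_le_of_lt (by positivity) hcon
    exact_mod_cast this
  have hd0 : (0 : ℝ) < E.card := by exact_mod_cast card_pos.2 hEne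
  have hn0 : (0 : ℝ) < S.card := by exact_mod_cast card_pos.2 hS
  choose! a ha using hE
  have h1 := H E hEI hEne hcon a (by
    intro ω hω
    rw [mem_product] at hω
    exact (ha ω.1 hω.1).1 ω.2 hω.2)
  rw [sum_product] at h1
  have h2 : ∀ i ∈ E, ε₂ / E.card < ∑ w ∈ S, (if Bad (a i + b w + r i * w) then 1 / ((E.card : ℝ) * S.card) else 0) := by
    intro i hi
    rw [← sum_filter, sum_const, nsmul_eq_mul, div_lt_iff₀ hd0]
    have h3 := (ha i hi).2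
    have h4 : ((S.filter (fun w => Bad (a i + b w + r i * w))).card : ℝ) * (1 / ((E.card : ℝ) * S.card)) * E.card =
        ((S.filter (fun w => Bad (a i + b w + r i * w))).card : ℝ) / S.card := by field_simp
    rw [h4, lt_div_iff₀ hn0]
    exact h3
  have h5 : ∑ i ∈ E, ε₂ / (E.card : ℝ) < ∑ i ∈ E, ∑ w ∈ S, (if Bad (a i + b w + r i * w) then 1 / ((E.card : ℝ) * S.card) else 0) :=
    sum_lt_sum_of_nonempty hEne h2
  rw [sum_const, nsmul_eq_mul, mul_div_cancel₀ _ hd0.ne'] at h5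
  linarith

end Pool.Agent.V5helper23.KP
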