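import Pool.Agent.V5helper23.KP.Pow

set_option autoImplicit false

/-! Divisor correlations: all patterns with almost all differences. -/

namespace Pool.Agent.V5helper23.KP
open Finset Polynomial
open Pool.Agent.H807R2.Dav
open Pool.Agent.Results.MP_122e00_nt.SparseRandomShifts (FewLarge φ Asymp)

lemma asymp_mono' (r N : ℕ) (P : ℕ → ℝ[X]) (T : ℤ → ℝ[X]) (E E' η : ℝ) (hE : E ≤ E') (h : ℤ) (hA : Asymp r N P T E η h) :
    Asymp r N P T E' η h := by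
  intro x hx
  obtain ⟨h1, h2⟩ := hA x hx
  exact ⟨h1.trans hE, fun hh => (h2 hh).trans (by linarith)⟩

open Classical in
theorem div_core (d : ℕ) (P : ℕ → ℝ[X]) (T : ℤ → ℝ[X]) (θc : ℝ) (hθc : 0 < θc) (Cc : ℕ)
    (hcrit : ∀ (B : ℕ) (η : ℝ), 0 < η → η ≤ 1 → ∃ N₀ : ℕ, ∀ N : ℕ, N₀ ≤ N →
      ∀ (ι : Type) [Fintype ι] (w : ι → ℝ) (v : ι → ℤ), (∀ i, 0 ≤ w i) → ∑ i, w i = 1 → (∀ i, |v i| ≤ B * N) →
      ∀ ρ : ℝ, (N : ℝ) ^ (-θc) ≤ ρ → ρ ≤ 1 → FewLarge w v N ρ ((N : ℝ) ^ θc) →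
      ∑ i ∈ univ.filter (fun i : ι => v i ≠ 0 ∧ ¬ Asymp d N P T (ρ ^ (1 / 8 : ℝ) * N * Real.log N ^ Cc) η (v i)), w i ≤
        ρ ^ (1 / 2 : ℝ) * Real.log N ^ Cc) :
    ∃ B : ℕ, ∀ C p : ℕ, ∃ (B' A : ℕ) (θ : ℝ), 0 < θ ∧ ∀ (B₀ : ℕ) (η : ℝ), 0 < η → η ≤ 1 → ∃ N₀ : ℕ, ∀ N : ℕ, N₀ ≤ N →
      ∀ K : ℝ, Real.log N ^ A ≤ K → K ≤ (N : ℝ) ^ θ → ∀ (n : ℕ) (r : ℕ → ℤ) (S : Finset ℤ),
        (LongP K B B' C N n r S ∨ ShortP K p B C N n r S) → ∀ b : ℤ → ℤ, ∀ E : Finset ℕ, E ⊆ Icc 1 n →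
        (∀ m ∈ E, ∃ a : ℤ, (∀ w ∈ S, |a + b w + r m * w| ≤ B₀ * N) ∧
          (S.card : ℝ) / K < (S.filter (fun w => a + b w + r m * w ≠ 0 ∧ ¬ Asymp d N P T (N / K) η (a + b w + r m * w))).card) →
        (E.card : ℝ) ≤ n / K := by
  obtain ⟨V, hV⟩ : ∃ V, V = 16 := ⟨_, rfl⟩
  refine ⟨2 * V + 2, fun C p => ?_⟩
  obtain ⟨c, hc⟩ : ∃ c : ℕ, c = 4 * p * (V + 1) + 12 * V + 7 * C + 40 := ⟨_, rfl⟩
  have hcpos : (0 : ℝ) < c := by
    have : 0 < c := by omega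
    exact_mod_cast this
  have hm0 : 0 < min θc 1 := lt_min hθc one_pos
  refine ⟨4 * V + C + 3, Cc + 1, min θc 1 / c, div_pos hm0 hcpos, fun B₀ η hη hη1 => ?_⟩
  obtain ⟨N1, h1⟩ := hcrit B₀ η hη hη1
  obtain ⟨N2, h2⟩ := Pool.Agent.H373R2.T7.ev_L' ((120 + p : ℕ) : ℝ)
  refine ⟨N1 + N2 + 2, fun N hN K hKL hKN n r S hfam b E hEI hE => ?_⟩
  by_contra hcon
  push Not at hcon
  have hNr : (1 : ℝ) ≤ N := by exact_mod_cast (by omega : 1 ≤ N)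
  have hN0 : (0 : ℝ) < N := by linarith
  have hL := h2 N (by omega)
  push_cast at hL
  have hp0 : (0 : ℝ) ≤ p := Nat.cast_nonneg _
  have hL1 : 1 ≤ Real.log (N : ℝ) := by linarith
  have hK1' : Real.log (N : ℝ) ≤ K := by
    refine le_trans ?_ hKL
    exact le_self_pow₀ hL1 (by omega)
  have hK120 : 120 ≤ K := by linarith
  have hKp : (p : ℝ) ≤ K := by linarith
  have hK0 : 0 < K := by linarith
  have hK1 : 1 ≤ K := by linarith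
  have hLC : Real.log (N : ℝ) ^ Cc ≤ K := (pow_le_pow_right₀ hL1 (by omega)).trans hKL
  have hLC0 : 0 ≤ Real.log (N : ℝ) ^ Cc := by positivity
  have hKpow : ∀ j : ℕ, j ≤ c → K ^ j ≤ (N : ℝ) ^ (min θc 1) := by
    intro j hj
    calc K ^ j ≤ K ^ c := pow_le_pow_right₀ hK1 hj
      _ ≤ ((N : ℝ) ^ (min θc 1 / c)) ^ c := pow_le_pow_left₀ hK0.le hKN c
      _ = (N : ℝ) ^ (min θc 1) := by
          rw [← Real.rpow_natCast, ← Real.rpow_mul hN0.le, div_mul_cancel₀ _ hcpos.ne']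
  have hKθ : ∀ j : ℕ, j ≤ c → K ^ j ≤ (N : ℝ) ^ θc := fun j hj =>
    (hKpow j hj).trans (Real.rpow_le_rpow_of_exponent_le hNr (min_le_left _ _))
  have hKone : ∀ j : ℕ, j ≤ c → K ^ j ≤ N := fun j hj =>
    (hKpow j hj).trans (by
      calc (N : ℝ) ^ (min θc 1) ≤ (N : ℝ) ^ (1 : ℝ) := Real.rpow_le_rpow_of_exponent_le hNr (min_le_right _ _)
        _ = N := Real.rpow_one _)
  have hE0 : (0 : ℝ) < E.card := lt_of_le_of_lt (by positivity) hcon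
  have hE1 : 0 < E.card := by exact_mod_cast hE0
  obtain ⟨m₀, hm₀⟩ : E.Nonempty := card_pos.1 hE1
  have hn1 : 1 ≤ n := by
    have := mem_Icc.1 (hEI hm₀)
    omega
  have hEn : (n : ℝ) ≤ K * E.card := by
    rw [div_lt_iff₀ hK0] at hcon
    linarith
  have hS0 : (0 : ℝ) < S.card := by
    rcases hfam with ⟨_, _, _, _, _, _, g, _, _⟩ | ⟨_, _, _, _, g⟩
    · exact lt_of_lt_of_le (by positivity) g
    · exact lt_of_lt_of_le (by positivity) g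
  choose! a ha1 ha2 using hE
  -- the law
  have hcardES : (((E ×ˢ S).card : ℕ) : ℝ) = E.card * S.card := by rw [card_product]; push_cast; rfl
  have hES0 : (0 : ℝ) < ((E ×ˢ S).card : ℝ) := by rw [hcardES]; positivity
  have hfew : FewLarge (fun _ : {z // z ∈ E ×ˢ S} => 1 / ((E ×ˢ S).card : ℝ))
      (fun z => a z.1.1 + b z.1.2 + r z.1.1 * z.1.2) N ((K ^ V)⁻¹) ((N : ℝ) ^ θc) := by
    intro F hF hsep
    have hF' : ∀ α ∈ F, 0 ≤ α ∧ α < 1 ∧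
        (E.card : ℝ) * S.card / K ^ V < ‖∑ ω ∈ E ×ˢ S, ee (((a ω.1 + b ω.2 + r ω.1 * ω.2 : ℤ) : ℝ) * α)‖ := by
      intro α hα
      obtain ⟨q1, q2, q3⟩ := hF α hα
      refine ⟨q1, q2, ?_⟩
      have e1 : φ (fun _ : {z // z ∈ E ×ˢ S} => 1 / ((E ×ˢ S).card : ℝ)) (fun z => a z.1.1 + b z.1.2 + r z.1.1 * z.1.2) α =
          ((1 / ((E ×ˢ S).card : ℝ) : ℝ) : ℂ) * ∑ ω ∈ E ×ˢ S, ee (((a ω.1 + b ω.2 + r ω.1 * ω.2 : ℤ) : ℝ) * α) := by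
        rw [mul_sum, ← Finset.sum_coe_sort (E ×ˢ S) (fun ω : ℕ × ℤ => ((1 / ((E ×ˢ S).card : ℝ) : ℝ) : ℂ) *
          ee (((a ω.1 + b ω.2 + r ω.1 * ω.2 : ℤ) : ℝ) * α))]
        rfl
      rw [e1, norm_mul, Complex.norm_real, Real.norm_of_nonneg (by positivity)] at q3
      rw [← hcardES]
      rw [one_div, ← div_eq_inv_mul, lt_div_iff₀ hES0] at q3
      calc ((E ×ˢ S).card : ℝ) / K ^ V = (K ^ V)⁻¹ * ((E ×ˢ S).card : ℝ) := by ring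
        _ < _ := q3
    rcases hfam with h | h
    · refine (few_long V C K hK120 N n r a b S h (hKone _ (by omega)) E hEI hEn F hF' hsep).trans (hKθ _ (by omega))
    · refine (few_short p V C K hK120 hKp N n (by omega) hn1 r a b S h E hEI hEn F hF' hsep).trans (hKθ _ ?_)
      rw [hc]
      have : 4 * p * (V + 1) + 2 * V + 3 * C + 6 ≤ 4 * p * (V + 1) + 12 * V + 7 * C + 40 := by omega
      exact this
  have hρ1 : (N : ℝ) ^ (-θc) ≤ (K ^ V)⁻¹ := by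
    rw [Real.rpow_neg hN0.le]
    exact inv_anti₀ (by positivity) (hKθ V (by omega))
  have hρ2 : (K ^ V)⁻¹ ≤ 1 := inv_le_one_of_one_le₀ (one_le_pow₀ hK1)
  have key := h1 N (by omega) {z // z ∈ E ×ˢ S} (fun _ => 1 / ((E ×ˢ S).card : ℝ)) (fun z => a z.1.1 + b z.1.2 + r z.1.1 * z.1.2)
    (fun z => by positivity)
    (by
      rw [Finset.sum_coe_sort (E ×ˢ S) (fun _ => 1 / ((E ×ˢ S).card : ℝ)), sum_const, nsmul_eq_mul, mul_one_div, div_self hES0.ne'])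
    (by
      intro z
      have hz := mem_product.1 z.2
      exact ha1 z.1.1 hz.1 z.1.2 hz.2) _ hρ1 hρ2 hfew
  have hr8 : ((K ^ V)⁻¹ : ℝ) ^ (1 / 8 : ℝ) = (K ^ 2)⁻¹ := by
    have e1 : ((K ^ V)⁻¹ : ℝ) = ((K ^ 2)⁻¹) ^ (8 : ℕ) := by
      rw [hV, inv_pow, ← pow_mul]
    have e2 : (1 / 8 : ℝ) = (((8 : ℕ) : ℝ))⁻¹ := by norm_num
    rw [e1, e2, Real.pow_rpow_inv_natCast (by positivity) (by norm_num)]
  have hr2 : ((K ^ V)⁻¹ : ℝ) ^ (1 / 2 : ℝ) = (K ^ 8)⁻¹ := by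
    have e1 : ((K ^ V)⁻¹ : ℝ) = ((K ^ 8)⁻¹) ^ (2 : ℕ) := by
      rw [hV, inv_pow, ← pow_mul]
    have e2 : (1 / 2 : ℝ) = (((2 : ℕ) : ℝ))⁻¹ := by norm_num
    rw [e1, e2, Real.pow_rpow_inv_natCast (by positivity) (by norm_num)]
  rw [hr8, hr2] at key
  have hEη : (K ^ 2)⁻¹ * N * Real.log N ^ Cc ≤ N / K := by
    calc (K ^ 2)⁻¹ * N * Real.log N ^ Cc ≤ (K ^ 2)⁻¹ * N * K := mul_le_mul_of_nonneg_left hLC (by positivity)
      _ = N / K := by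
          field_simp
  have hlow : (((E ×ˢ S).filter (fun z : ℕ × ℤ => a z.1 + b z.2 + r z.1 * z.2 ≠ 0 ∧
      ¬ Asymp d N P T (N / K) η (a z.1 + b z.2 + r z.1 * z.2))).card : ℝ) * (1 / ((E ×ˢ S).card : ℝ)) ≤ (K ^ 8)⁻¹ * Real.log N ^ Cc := by
    refine le_trans ?_ key
    rw [sum_filter, Finset.sum_coe_sort (E ×ˢ S) (fun z : ℕ × ℤ => if a z.1 + b z.2 + r z.1 * z.2 ≠ 0 ∧
      ¬ Asymp d N P T ((K ^ 2)⁻¹ * N * Real.log N ^ Cc) η (a z.1 + b z.2 + r z.1 * z.2) then 1 / ((E ×ˢ S).card : ℝ) else 0),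
      ← sum_filter, sum_const, nsmul_eq_mul]
    apply mul_le_mul_of_nonneg_right _ (by positivity)
    have : ((E ×ˢ S).filter (fun z : ℕ × ℤ => a z.1 + b z.2 + r z.1 * z.2 ≠ 0 ∧
      ¬ Asymp d N P T (N / K) η (a z.1 + b z.2 + r z.1 * z.2))).card ≤ ((E ×ˢ S).filter (fun z : ℕ × ℤ => a z.1 + b z.2 + r z.1 * z.2 ≠ 0 ∧
      ¬ Asymp d N P T ((K ^ 2)⁻¹ * N * Real.log N ^ Cc) η (a z.1 + b z.2 + r z.1 * z.2))).card := by
      apply card_le_card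
      intro z hz
      rw [mem_filter] at hz ⊢
      exact ⟨hz.1, hz.2.1, fun hg => hz.2.2 (asymp_mono' d N P T _ _ η hEη _ hg)⟩
    exact_mod_cast this
  have hcount : (E.card : ℝ) * (S.card / K) ≤ (((E ×ˢ S).filter (fun z : ℕ × ℤ => a z.1 + b z.2 + r z.1 * z.2 ≠ 0 ∧
      ¬ Asymp d N P T (N / K) η (a z.1 + b z.2 + r z.1 * z.2))).card : ℝ) := by
    rw [card_filter, sum_product]
    push_cast
    calc (E.card : ℝ) * (S.card / K) = ∑ m ∈ E, (S.card / K : ℝ) := by rw [sum_const, nsmul_eq_mul]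
      _ ≤ _ := by
        apply sum_le_sum
        intro m hm
        refine (ha2 m hm).le.trans (le_of_eq ?_)
        rw [card_filter]
        push_cast
        rfl
  have h3 : (1 : ℝ) / K ≤ (K ^ 8)⁻¹ * Real.log N ^ Cc := by
    refine le_trans ?_ hlow
    rw [mul_one_div, le_div_iff₀ hES0]
    refine le_trans (le_of_eq ?_) hcount
    rw [hcardES]
    ring
  have h4 : (K ^ 8)⁻¹ * Real.log N ^ Cc ≤ (K ^ 8)⁻¹ * K := mul_le_mul_of_nonneg_left hLC (by positivity)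
  have h5 : (K ^ 8)⁻¹ * K = (1 / K) * (K ^ 6)⁻¹ := by
    field_simp
  have h6 : (K ^ 6)⁻¹ < 1 := inv_lt_one_of_one_lt₀ (one_lt_pow₀ (by linarith) (by norm_num))
  have h7 : (1 / K) * (K ^ 6)⁻¹ < (1 / K) * 1 := mul_lt_mul_of_pos_left h6 (by positivity)
  linarith

/-- the values of a polynomial have nearly minimal energy -/
theorem poly_energyP (f : Polynomial ℤ) (hf : 1 ≤ f.natDegree) : ∃ (p : ℕ) (K₀ : ℝ), ∀ (K : ℝ) (C N n : ℕ), K₀ ≤ K →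
    (N : ℝ) ≤ K ^ C * (n : ℝ) ^ f.natDegree →
    (Pool.Agent.H373R2.T7.energy p n (fun m => f.eval (m : ℤ)) : ℝ) * N ≤ K ^ (C + 1) * (n : ℝ) ^ (2 * p) := by
  obtain ⟨p, C1, hC1, h1⟩ := Pool.Agent.TH823.Fam.energy_poly' f hf
  refine ⟨p, max C1 1, fun K C N n hK hn => ?_⟩
  have hKC : C1 ≤ K := (le_max_left _ _).trans hK
  have hK1 : 1 ≤ K := (le_max_right _ _).trans hK
  have hK0 : 0 < K := by linarith
  rcases Nat.eq_zero_or_pos n with hn0 | hn0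
  · subst hn0
    rw [Nat.cast_zero, zero_pow (by omega), mul_zero] at hn
    have hN : (N : ℝ) = 0 := le_antisymm hn (Nat.cast_nonneg _)
    rw [hN, mul_zero]
    positivity
  have h3 := h1 n hn0 0
  simp only [zero_add] at h3
  calc (Pool.Agent.H373R2.T7.energy p n (fun m => f.eval (m : ℤ)) : ℝ) * N ≤
        (Pool.Agent.H373R2.T7.energy p n (fun m => f.eval (m : ℤ)) : ℝ) * (K ^ C * (n : ℝ) ^ f.natDegree) :=
        mul_le_mul_of_nonneg_left hn (Nat.cast_nonneg _)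
    _ = K ^ C * ((Pool.Agent.H373R2.T7.energy p n (fun m => f.eval (m : ℤ)) : ℝ) * (n : ℝ) ^ f.natDegree) := by ring
    _ ≤ K ^ C * (C1 * (n : ℝ) ^ (2 * p)) := mul_le_mul_of_nonneg_left h3 (by positivity)
    _ ≤ K ^ C * (K * (n : ℝ) ^ (2 * p)) := by
        apply mul_le_mul_of_nonneg_left _ (by positivity)
        exact mul_le_mul_of_nonneg_right hKC (by positivity)
    _ = _ := by ring

end Pool.Agent.V5helper23.KP
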