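import Pool.Agent.V5helper23.KP.Base
import Pool.Agent.Y885.LD3

set_option autoImplicit false

/-! Families of patterns: the weighted discrepancies of the primes in arithmetic progressions. -/

namespace Pool.Agent.V5helper23.KP
open Finset
open Pool.Agent.H373R2.T7
open Pool.Agent.Y885 (Thin TLaw Spec)
open Pool.Agent.W93.LV
open Pool.Agent.TH212.EH (W WW)

/-- the error term in the prime number theorem for progressions -/
noncomputable def Ee (x q a : ℕ) : ℝ :=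
  Fu (fun n => ArithmeticFunction.vonMangoldt n) x q a - (x : ℝ) / Nat.totient q

lemma ite_le (P P1 P2 : Prop) (i : Decidable P) (i1 : Decidable P1) (i2 : Decidable P2) (h : P → P1 ∨ P2) (p : ℝ) (hp : 0 ≤ p) :
    @ite ℝ P i p 0 ≤ @ite ℝ P1 i1 p 0 + @ite ℝ P2 i2 p 0 := by
  by_cases h0 : P
  · rw [if_pos h0]
    rcases h h0 with h1 | h1
    · rw [if_pos h1]
      have : (0 : ℝ) ≤ @ite ℝ P2 i2 p 0 := by split_ifs <;> simp [hp]
      linarith
    · rw [if_pos h1]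
      have : (0 : ℝ) ≤ @ite ℝ P1 i1 p 0 := by split_ifs <;> simp [hp]
      linarith
  · rw [if_neg h0]
    apply add_nonneg <;> (split_ifs <;> simp [hp])

theorem eh_core (T U : ℕ) : ∃ V : ℕ, ∀ c : ℕ, ∃ D X₀ : ℕ, ∀ X : ℕ, X₀ ≤ X →
    ∀ Q : ℕ, (Q : ℝ) * Real.exp (D * Real.log (Real.log X) ^ 2) ≤ X →
    ∀ (I : Finset ℕ) (r : ℕ → ℤ) (S : Finset ℤ), S.Nonempty → PF c V U X I r S → ∀ b : ℤ → ℤ,
    (∀ lam : ℕ → ℝ, (∀ q, |lam q| ≤ Real.log X ^ T * (q.divisors.card : ℝ) ^ T) → ∀ x : ℕ → ℕ, (∀ q, x q ≤ X) →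
      ∀ E : Finset ℕ, E ⊆ I → (∀ i ∈ E, ∃ a : ℤ, (∀ w ∈ S, |a + b w + r i * w| ≤ X) ∧
        ∃ S' ⊆ S, (S.card : ℝ) / Real.log X ^ U < S'.card ∧ ∀ w ∈ S', 0 < a + b w + r i * w ∧
          ((X : ℝ) / Real.log X ^ U < |WW lam x Q (a + b w + r i * w).toNat| ∨
            ∃ x' ≤ X, (X : ℝ) / Real.log X ^ U < |W lam Q x' (a + b w + r i * w).toNat|)) →
      (E.card : ℝ) ≤ I.card / Real.log X ^ U) ∧
    (∀ a : ℕ → ℤ, (∀ i ∈ I, ∀ w ∈ S, |a i + b w + r i * w| ≤ X) → ∀ g : ℕ → ℤ → ℝ, (∀ i w, |g i w| ≤ Real.log X ^ T) →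
      ∀ x : ℕ → ℕ, (∀ q, x q ≤ X) →
      ∑ q ∈ Icc 1 Q, (q.divisors.card : ℝ) ^ T * |∑ ω ∈ (I ×ˢ S).filter (fun ω => 0 < a ω.1 + b ω.2 + r ω.1 * ω.2 ∧
        (a ω.1 + b ω.2 + r ω.1 * ω.2).toNat.Coprime q), g ω.1 ω.2 * Ee (x q) q (a ω.1 + b ω.2 + r ω.1 * ω.2).toNat| ≤
        I.card * S.card * (X / Real.log X ^ U)) := by
  classical
  obtain ⟨V, hV⟩ := Pool.Agent.Y885.tl_levels T (U + 1)
  refine ⟨V, fun c => ?_⟩
  obtain ⟨D₀, k₀, h0⟩ := hV 2 3 8 c le_rfl (by norm_num) (by norm_num)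
  obtain ⟨n1, h1⟩ := lvl_facts
  obtain ⟨n2, h2⟩ := ev_L' ((k₀ + 8 : ℕ) : ℝ)
  refine ⟨4 * D₀, n1 + n2 + 3, fun X hX Q hQ I r S hSne hPF b => ?_⟩
  obtain ⟨a1, a2, a3, a4⟩ := h1 X (by omega)
  have b2 := h2 X (by omega)
  obtain ⟨K, hK⟩ : ∃ K, K = lvl X := ⟨_, rfl⟩
  obtain ⟨L, hL⟩ : ∃ L, L = Real.log (X : ℝ) := ⟨_, rfl⟩
  rw [← hK] at a1 a2 a3 a4
  rw [← hL] at a3 a4 b2 hQ ⊢
  have hX0 : (0 : ℝ) < X := by exact_mod_cast (by omega : 0 < X)
  have hk : ((k₀ + 8 : ℕ) : ℝ) ≤ K := b2.trans a3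
  have hk' : k₀ + 8 ≤ K := by exact_mod_cast hk
  have hL8 : (8 : ℝ) ≤ L := by
    refine le_trans ?_ b2
    exact_mod_cast (by omega : 8 ≤ k₀ + 8)
  have hL0 : 0 < L := by linarith
  have hK0 : (0 : ℝ) < K := by linarith
  have hKl : Real.log K ^ 2 ≤ 4 * Real.log L ^ 2 := by
    have c1 : 0 ≤ Real.log K := Real.log_natCast_nonneg _
    have c2 : Real.log K ≤ 2 * Real.log L := by
      have c3 : (K : ℝ) ≤ L ^ 2 := by nlinarith
      have := Real.log_le_log hK0 c3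
      rw [Real.log_pow] at this
      exact_mod_cast this
    calc Real.log K ^ 2 ≤ (2 * Real.log L) ^ 2 := pow_le_pow_left₀ c1 c2 2
      _ = _ := by ring
  have hQ' : (Q : ℝ) * Real.exp ((D₀ : ℝ) * Real.log K ^ 2) ≤ X := by
    refine le_trans ?_ hQ
    apply mul_le_mul_of_nonneg_left _ (Nat.cast_nonneg _)
    apply Real.exp_le_exp.2
    push_cast
    nlinarith [Nat.cast_nonneg (α := ℝ) D₀]
  have hpowT : L ^ T ≤ (K : ℝ) ^ T := pow_le_pow_left₀ hL0.le a3 T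
  have hpowU : L ^ U ≤ (K : ℝ) ^ U := pow_le_pow_left₀ hL0.le a3 U
  have hpowU1 : 2 * L ^ U ≤ (K : ℝ) ^ (U + 1) := by
    rw [pow_succ, mul_comm]
    exact mul_le_mul hpowU (by linarith) (by norm_num) (by positivity)
  have hL1 : 1 ≤ L ^ U := one_le_pow₀ (by linarith)
  have hX1 : (X : ℝ) / (K : ℝ) ^ (U + 1) ≤ X / L ^ U :=
    div_le_div_of_nonneg_left hX0.le (by positivity) (by linarith)
  refine ⟨fun lam hlam x hx E hEI hE => ?_, fun a ha g hg x hx => ?_⟩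
  · -- the maximal theorem
    obtain ⟨Bad, hBad⟩ : ∃ Bad : ℤ → Prop, Bad = fun y => 0 < y ∧ ((X : ℝ) / L ^ U < |WW lam x Q y.toNat| ∨
        ∃ x' ≤ X, (X : ℝ) / L ^ U < |W lam Q x' y.toNat|) := ⟨_, rfl⟩
    have hsel := select I r S b hSne (fun y => |y| ≤ X) Bad (1 / L ^ U) (1 / L ^ U) (Classical.decPred _) (by
      intro D hD hDne hDc a hR
      have hlaw := hPF D hD (by
        rw [← hK]
        have e1 : (I.card : ℝ) ≤ L ^ U * D.card := by
          rw [one_div_mul_eq_div, div_lt_iff₀ (by positivity)] at hDc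
          linarith
        exact e1.trans (mul_le_mul_of_nonneg_right hpowU (Nat.cast_nonneg _))) a b
      rw [← hK] at hlaw
      have h3 := (h0 K (by omega) (ℕ × ℤ) (D ×ˢ S) _ _ hlaw X a1 a2 hR Q hQ').1 lam (by
        intro q
        exact (hlam q).trans (mul_le_mul_of_nonneg_right hpowT (by positivity)))
      obtain ⟨h4, h5⟩ := h3
      have h6 := h4 (fun ω => 0 < a ω.1 + b ω.2 + r ω.1 * ω.2 ∧
        ∃ x' ≤ X, (X : ℝ) / L ^ U < |W lam Q x' (a ω.1 + b ω.2 + r ω.1 * ω.2).toNat|) (Classical.decPred _) (by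
          rintro ω _ ⟨g1, x', g2, g3⟩
          exact ⟨g1, x', g2, lt_of_le_of_lt hX1 g3⟩)
      have h7 := h5 x hx (fun ω => 0 < a ω.1 + b ω.2 + r ω.1 * ω.2 ∧
        (X : ℝ) / L ^ U < |WW lam x Q (a ω.1 + b ω.2 + r ω.1 * ω.2).toNat|) (Classical.decPred _) (by
          rintro ω _ ⟨g1, g3⟩
          exact ⟨g1, lt_of_le_of_lt hX1 g3⟩)
      have h8 : ∑ ω ∈ D ×ˢ S, (@ite ℝ (Bad (a ω.1 + b ω.2 + r ω.1 * ω.2)) (Classical.decPred Bad _) (1 / ((D.card : ℝ) * S.card)) 0) ≤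
          1 / (K : ℝ) ^ (U + 1) + 1 / (K : ℝ) ^ (U + 1) := by
        refine le_trans ?_ (add_le_add h6 h7)
        rw [← sum_add_distrib]
        apply sum_le_sum
        intro ω _
        have hp : (0 : ℝ) ≤ 1 / ((D.card : ℝ) * S.card) := by positivity
        refine ite_le _ _ _ _ _ _ (fun hb => ?_) _ hp
        rw [hBad] at hb
        obtain ⟨g1, g2⟩ := hb
        rcases g2 with g2 | g2
        · exact Or.inr ⟨g1, g2⟩
        · exact Or.inl ⟨g1, g2⟩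
      refine h8.trans ?_
      rw [← two_mul, mul_one_div, div_le_div_iff₀ (by positivity) (by positivity)]
      linarith) (by positivity) E hEI (by
      intro i hi
      obtain ⟨a, g1, S', g2, g3, g4⟩ := hE i hi
      refine ⟨a, g1, ?_⟩
      rw [one_div_mul_eq_div]
      refine lt_of_lt_of_le g3 ?_
      have : S' ⊆ @Finset.filter _ (fun w => Bad (a + b w + r i * w)) (fun w => Classical.decPred Bad _) S := by
        intro w hw
        rw [mem_filter, hBad]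
        exact ⟨g2 hw, g4 w hw⟩
      exact_mod_cast card_le_card this)
    rwa [one_div_mul_eq_div] at hsel
  · -- absolute values over the moduli
    rcases I.eq_empty_or_nonempty with hI | hI
    · subst hI
      simp
    have hlaw := hPF I (Subset.refl _) (by
      rw [← hK]
      have : (1 : ℝ) ≤ (K : ℝ) ^ U := one_le_pow₀ (by linarith)
      exact le_mul_of_one_le_left (Nat.cast_nonneg _) this) a b
    rw [← hK] at hlaw
    have hIc : (0 : ℝ) < I.card := by exact_mod_cast card_pos.2 hI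
    have hSc : (0 : ℝ) < S.card := by exact_mod_cast card_pos.2 hSne
    have hR : ∀ ω ∈ I ×ˢ S, |a ω.1 + b ω.2 + r ω.1 * ω.2| ≤ X := by
      intro ω hω
      rw [mem_product] at hω
      exact ha ω.1 hω.1 ω.2 hω.2
    have h3 := (h0 K (by omega) (ℕ × ℤ) (I ×ˢ S) _ _ hlaw X a1 a2 hR Q hQ').2 (fun ω => g ω.1 ω.2) (by
      intro ω
      exact (hg ω.1 ω.2).trans hpowT) x hx (fun q => Classical.decPred _)
    have h4 : ∀ q ∈ Icc 1 Q, (q.divisors.card : ℝ) ^ T * |∑ ω ∈ (I ×ˢ S).filter (fun ω => 0 < a ω.1 + b ω.2 + r ω.1 * ω.2 ∧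
        (a ω.1 + b ω.2 + r ω.1 * ω.2).toNat.Coprime q), g ω.1 ω.2 * Ee (x q) q (a ω.1 + b ω.2 + r ω.1 * ω.2).toNat| =
        (I.card * S.card) * ((q.divisors.card : ℝ) ^ T * |∑ ω ∈ @Finset.filter _ (fun ω => 0 < a ω.1 + b ω.2 + r ω.1 * ω.2 ∧
          (a ω.1 + b ω.2 + r ω.1 * ω.2).toNat.Coprime q) (Classical.decPred _) (I ×ˢ S), 1 / ((I.card : ℝ) * S.card) * (g ω.1 ω.2 *
          (Fu (fun n => ArithmeticFunction.vonMangoldt n) (x q) q (a ω.1 + b ω.2 + r ω.1 * ω.2).toNat - (x q : ℝ) / Nat.totient q))|) := by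
      intro q _
      rw [← mul_sum, abs_mul, abs_of_pos (by positivity : (0 : ℝ) < 1 / ((I.card : ℝ) * S.card))]
      have e1 : ∀ y z : ℝ, ((I.card : ℝ) * S.card) * (y * (1 / ((I.card : ℝ) * S.card) * z)) = y * z := by
        intro y z
        field_simp
      rw [e1]
      unfold Ee
      congr 3
      ext ω
      simp only [mem_filter]
    rw [sum_congr rfl h4, ← mul_sum]
    apply mul_le_mul_of_nonneg_left _ (by positivity)
    exact h3.trans hX1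

end Pool.Agent.V5helper23.KP
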