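import Pool.Agent.V5helper23.KP.Univ
import Pool.Agent.R459.Ell

set_option autoImplicit false

/-! ALL functions, and ALL multiplicative functions near a twisted Liouville function, along the patterns. -/

namespace Pool.Agent.V5helper23.KP
open Finset
open Pool.Agent.H373R2.T7 (exI liR)
open Pool.Agent.R459.Tw (NearTwist)
open Pool.Agent.R459.Ell (ext Good Near Weights)
open Pool.Agent.R459 (Wts Big)

/-- dilations are weights -/
lemma dil_sum (f : ℤ → ℂ) (α : ℕ) (hα : 1 ≤ α) (g : ℕ → ℂ) (x : ℕ) (y : ℤ) :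
    ∑ n ∈ Icc 1 x, g n * f (((α * n : ℕ) : ℤ) + y) =
      ∑ j ∈ Icc 1 (α * x), (if α ∣ j then g (j / α) else 0) * f ((j : ℤ) + y) := by
  have h1 : ∑ j ∈ Icc 1 (α * x), (if α ∣ j then g (j / α) else 0) * f ((j : ℤ) + y) =
      ∑ j ∈ (Icc 1 x).image (fun n => α * n), (if α ∣ j then g (j / α) else 0) * f ((j : ℤ) + y) := by
    symm
    apply sum_subset
    · intro j hj
      rw [mem_image] at hj
      obtain ⟨n, hn, rfl⟩ := hj
      rw [mem_Icc] at hn ⊢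
      exact ⟨Nat.mul_pos hα hn.1, Nat.mul_le_mul_left _ hn.2⟩
    · intro j hj hn
      rw [if_neg, zero_mul]
      rintro ⟨n, rfl⟩
      apply hn
      rw [mem_Icc] at hj
      rw [mem_image]
      refine ⟨n, ?_, rfl⟩
      rw [mem_Icc]
      constructor
      · rcases Nat.eq_zero_or_pos n with h | h
        · subst h
          simp at hj
        · exact h
      · exact Nat.le_of_mul_le_mul_left hj.2 hα
  rw [h1, sum_image]
  · apply sum_congr rfl
    intro n _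
    rw [if_pos (dvd_mul_right _ _), Nat.mul_div_cancel_left _ hα]
  · intro a _ b _ h
    exact Nat.eq_of_mul_eq_mul_left hα h

theorem ell_core (δ B₁ : ℝ) (hδ : 0 < δ) (T W U : ℕ) : ∃ B : ℕ, ∀ C p : ℕ, ∃ B' X₀ : ℕ, ∀ X : ℕ, X₀ ≤ X →
    ∀ (n : ℕ) (r : ℕ → ℤ) (S : Finset ℤ), (Long B B' C X n r S ∨ Short p B C X n r S) → ∀ b : ℤ → ℤ,
      ∀ E : Finset ℕ, E ⊆ Icc 1 n → (∀ m ∈ E, ∃ (a : ℤ) (g : ℕ → ℂ), (∀ w ∈ S, 2 * |a + b w + r m * w| ≤ X) ∧
        (∀ k ∈ Icc 1 X, ‖g k‖ ≤ Real.log X ^ T) ∧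
        ∃ S' ⊆ S, (S.card : ℝ) / Real.log X ^ U < S'.card ∧ ∀ w ∈ S', ∃ h : ℤ,
          |((h - (a + b w + r m * w) : ℤ) : ℝ)| ≤ Real.log X ^ W ∧
          ∃ f : ℕ → ℂ, NearTwist δ B₁ (Real.log X ^ T) f ∧ ∃ x ≤ X,
            (X : ℝ) / Real.log X ^ U < ‖∑ k ∈ Icc 1 x, g k * ext f ((k : ℤ) + h)‖) →
      (E.card : ℝ) ≤ n / Real.log X ^ U := by
  classical
  obtain ⟨T', U', Ex, k₀, hUU, hpass⟩ := Pool.Agent.R459.Ell.pass δ B₁ hδ 1 1 T W U le_rfl
  obtain ⟨U₂, hU₂⟩ : ∃ U₂, U₂ = U + U' + W + T' + 3 := ⟨_, rfl⟩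
  obtain ⟨B, hB⟩ := univ_core Pool.Agent.Y885.laR Pool.Agent.Y885.fine_lam (T' + 1) U₂
  refine ⟨B, fun C p => ?_⟩
  obtain ⟨B', X1, h1⟩ := hB C p
  obtain ⟨X2, h2⟩ := lvl_facts
  obtain ⟨X3, h3⟩ := log_pow_le T'
  obtain ⟨X4, h4⟩ := log_pow_le W
  obtain ⟨X5, h5⟩ := log_pow_le U'
  obtain ⟨X6, h6⟩ := Pool.Agent.H373R2.T7.ev_L' ((k₀ + 8 : ℕ) : ℝ)
  obtain ⟨X7, h7⟩ := Pool.Agent.V5helper23.KP.log_pow_le Ex
  obtain ⟨X8, h8⟩ := Pool.Agent.H373R2.T7.ev_log' (Ex + W + 3) 2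
  refine ⟨B', X1 + X2 + X3 + X4 + X5 + X6 + X7 + X8 + 3, fun X hX n r S hfam b E hEI hE => ?_⟩
  obtain ⟨a1, a2, a3, a4⟩ := h2 X (by omega)
  have c3 := h3 X (by omega)
  have c4 := h4 X (by omega)
  have c5 := h5 X (by omega)
  have c6 := h6 X (by omega)
  have c7 := h7 X (by omega)
  have c8 := h8 X (by omega)
  obtain ⟨K, hK⟩ : ∃ K, K = lvl X := ⟨_, rfl⟩
  rw [← hK] at a1 a2 a3 a4 c3 c4 c5 c7
  have hXr : (3 : ℝ) ≤ X := by exact_mod_cast (by omega : 3 ≤ X)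
  have hX0 : (0 : ℝ) < X := by linarith
  have hkK : ((k₀ + 8 : ℕ) : ℝ) ≤ K := c6.trans a3
  have hkK' : k₀ + 8 ≤ K := by exact_mod_cast hkK
  obtain ⟨L, hL⟩ : ∃ L, L = Real.log (X : ℝ) := ⟨_, rfl⟩
  rw [← hL] at a3 a4 c3 c4 c5 c6 c7 c8 hE ⊢
  have hL8 : (8 : ℝ) ≤ L := by
    refine le_trans ?_ c6
    exact_mod_cast (by omega : 8 ≤ k₀ + 8)
  have hL1 : (1 : ℝ) ≤ L := by linarith
  have hL0 : (0 : ℝ) < L := by linarith
  have hK1 : (1 : ℝ) ≤ K := by linarith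
  have hK0 : (0 : ℝ) < K := by linarith
  have hsq : √(X : ℝ) * √(X : ℝ) = X := Real.mul_self_sqrt hX0.le
  have hsq1 : (1 : ℝ) ≤ √(X : ℝ) := by
    rw [Real.one_le_sqrt]
    linarith
  have hsX : √(X : ℝ) ≤ X := by nlinarith
  -- the powers of `K` are smaller than `X`
  have d1 : K ^ Ex ≤ X := by
    have e1 : (K : ℝ) ^ Ex ≤ X := by
      refine c7.trans (le_trans ?_ (c8.trans hsX))
      have e2 : L ^ (Ex + 1) ≤ L ^ (Ex + W + 3) := pow_le_pow_right₀ hL1 (by omega)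
      have e3 : (0 : ℝ) ≤ L ^ (Ex + W + 3) := by positivity
      linarith
    exact_mod_cast e1
  have d2 : 2 * (K : ℝ) ^ W ≤ X := by
    refine le_trans ?_ (c8.trans hsX)
    have e2 : L ^ (W + 1) ≤ L ^ (Ex + W + 3) := pow_le_pow_right₀ hL1 (by omega)
    linarith
  have d3 : Real.log (X : ℝ) ≤ (K : ℝ) ^ 2 := by
    rw [← hL]
    nlinarith
  have d4 : n / L ^ U₂ ≤ n / L ^ U := div_le_div_of_nonneg_left (Nat.cast_nonneg _) (by positivity)
    (pow_le_pow_right₀ hL1 (by omega))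
  refine le_trans ?_ d4
  have hmain := h1 X (by omega) n r S hfam b E hEI
  rw [← hL] at hmain
  apply hmain
  intro m hm
  obtain ⟨a, g, g1, g2, S', g3, g4, g5⟩ := hE m hm
  -- the weights
  obtain ⟨G, hG⟩ : ∃ G : Fin 1 → ℕ → ℂ, G = fun _ k => if 1 ≤ k ∧ k ≤ X then g k else 0 := ⟨_, rfl⟩
  have hLK : ∀ j : ℕ, L ^ j ≤ (K : ℝ) ^ j := fun j => pow_le_pow_left₀ hL0.le a3 j
  have hW : Weights T K (fun _ : Fin 1 => 1) G := by
    refine ⟨?_, fun _ => le_rfl, fun l k => ?_⟩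
    · have := one_le_pow₀ hK1 (n := T)
      simpa using this
    · rw [hG]
      simp only
      split_ifs with h
      · exact (g2 k (mem_Icc.2 h)).trans (hLK T)
      · rw [norm_zero]
        positivity
  obtain ⟨L', α', g', hw', hbig⟩ := hpass K (by omega) X d1 d3 1 _ G hW
  obtain ⟨w1, w2, w3⟩ := hw'
  -- every bad member has a large sum
  have hbad : ∀ w ∈ S', ∃ t ∈ Icc (-(K : ℤ) ^ W) ((K : ℤ) ^ W), ∃ l ∈ range L', ∃ x : ℕ, α' l * x ≤ X ∧
      (X : ℝ) / (K : ℝ) ^ U' < ‖∑ n ∈ Icc 1 x, g' l n * exI liR (((α' l * n : ℕ) : ℤ) + (a + b w + r m * w + t))‖ := by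
    intro w hw
    obtain ⟨h, e1, f, e2, x, e3, e4⟩ := g5 w hw
    have e5 : |a + b w + r m * w| ≤ ((1 : ℕ) : ℤ) * (X : ℤ) := by
      have := g1 w (g3 hw)
      have h0 := abs_nonneg (a + b w + r m * w)
      push_cast
      linarith
    have e6 : Big liR 1 W U' X K L' α' g' (a + b w + r m * w) := by
      apply hbig _ e5
      intro hnear
      have e7 : |h - (a + b w + r m * w)| ≤ (K : ℤ) ^ W := by
        have e8 := e1.trans (hLK W)
        have e9 : ((|h - (a + b w + r m * w)| : ℤ) : ℝ) ≤ (((K : ℤ) ^ W : ℤ) : ℝ) := by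
          push_cast
          push_cast at e8
          exact e8
        exact_mod_cast e9
      have e8 := hnear h e7 f ⟨e2.1, e2.2.1, by
        obtain ⟨q, χ, t, q1, q2, q3, q4⟩ := e2.2.2
        exact ⟨q, χ, t, q1, q2.trans (hLK T), q3.trans (hLK T), q4⟩⟩ 0 x (by simpa using e3)
      have e9 : ∑ n ∈ Icc 1 x, G 0 n * ext f (((1 * n : ℕ) : ℤ) + h) = ∑ k ∈ Icc 1 x, g k * ext f ((k : ℤ) + h) := by
        apply sum_congr rfl
        intro k hk
        rw [mem_Icc] at hk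
        rw [hG]
        simp only
        rw [if_pos ⟨hk.1, hk.2.trans e3⟩, one_mul]
      have e10 : ‖∑ n ∈ Icc 1 x, G 0 n * ext f (((1 * n : ℕ) : ℤ) + h)‖ ≤ X / (K : ℝ) ^ U := by
        simpa using e8
      rw [e9] at e10
      have e11 : (X : ℝ) / (K : ℝ) ^ U ≤ X / L ^ U := div_le_div_of_nonneg_left hX0.le (by positivity) (hLK U)
      linarith
    obtain ⟨t, ht, l, hl, x, hx, hb⟩ := e6
    rw [abs_le] at ht
    refine ⟨t, mem_Icc.2 ht, l, mem_range.2 hl, x, by simpa using hx, ?_⟩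
    rw [add_assoc] at hb
    rw [add_assoc]
    exact hb
  choose! tt ht ll hl xx hx hb using hbad
  -- the pigeonhole principle
  obtain ⟨M, hM⟩ : ∃ M : Finset (ℤ × ℕ), M = (Icc (-(K : ℤ) ^ W) ((K : ℤ) ^ W)) ×ˢ (range L') := ⟨_, rfl⟩
  have hmaps : ∀ w ∈ S', (tt w, ll w) ∈ M := by
    intro w hw
    rw [hM, mem_product]
    exact ⟨ht w hw, hl w hw⟩
  have hMc : (M.card : ℝ) ≤ L ^ (W + T' + 3) := by
    rw [hM, card_product, card_range, Int.card_Icc]
    have e1 : (((K : ℤ) ^ W + 1 - -(K : ℤ) ^ W).toNat : ℝ) ≤ 3 * (K : ℝ) ^ W := by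
      have e2 : (0 : ℤ) < (K : ℤ) ^ W := by
        have : (0 : ℤ) < K := by omega
        positivity
      have e3 : ((((K : ℤ) ^ W + 1 - -(K : ℤ) ^ W).toNat : ℤ)) ≤ 3 * (K : ℤ) ^ W := by
        rw [Int.toNat_of_nonneg (by linarith)]
        linarith
      exact_mod_cast e3
    push_cast
    calc (((K : ℤ) ^ W + 1 - -(K : ℤ) ^ W).toNat : ℝ) * (L' : ℝ) ≤ (3 * (K : ℝ) ^ W) * (K : ℝ) ^ T' :=
          mul_le_mul e1 w1 (Nat.cast_nonneg _) (by positivity)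
      _ ≤ (L * L ^ (W + 1)) * L ^ (T' + 1) := by
          apply mul_le_mul _ c3 (by positivity) (by positivity)
          exact mul_le_mul (by linarith) c4 (by positivity) (by positivity)
      _ = L ^ (W + T' + 3) := by ring
  have hpig : M.card • ((S.card : ℝ) / L ^ U₂) < S'.card := by
    refine lt_of_le_of_lt ?_ g4
    rw [nsmul_eq_mul, hU₂, ← mul_div_assoc, div_le_div_iff₀ (by positivity) (by positivity)]
    have e1 : L ^ (U + U' + W + T' + 3) = L ^ (W + T' + 3) * L ^ U' * L ^ U := by ring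
    have e2 : (1 : ℝ) ≤ L ^ U' := one_le_pow₀ hL1
    have e3 : (M.card : ℝ) ≤ L ^ (W + T' + 3) * L ^ U' := by
      refine hMc.trans ?_
      exact le_mul_of_one_le_right (by positivity) e2
    rw [e1]
    calc (M.card : ℝ) * S.card * L ^ U = M.card * (S.card * L ^ U) := by ring
      _ ≤ (L ^ (W + T' + 3) * L ^ U') * (S.card * L ^ U) := mul_le_mul_of_nonneg_right e3 (by positivity)
      _ = _ := by ring
  obtain ⟨z, hz, hzc⟩ := exists_lt_card_fiber_of_nsmul_lt_card_of_maps_to (f := fun w => (tt w, ll w)) hmaps hpig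
  obtain ⟨t, l⟩ := z
  rw [hM, mem_product, mem_Icc, mem_range] at hz
  obtain ⟨hz1, hz2⟩ := hz
  simp only at hz1 hz2
  refine ⟨a + t, fun j => if α' l ∣ j then g' l (j / α' l) else 0, ?_, ?_, _, (filter_subset _ _).trans g3, hzc, ?_⟩
  · intro w hw
    have e1 := g1 w hw
    have e2 : |t| ≤ (K : ℤ) ^ W := abs_le.2 hz1
    have e3 : 2 * (K : ℤ) ^ W ≤ X := by exact_mod_cast d2
    have e4 : a + t + b w + r m * w = (a + b w + r m * w) + t := by ring
    rw [e4]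
    have e5 := abs_add_le (a + b w + r m * w) t
    omega
  · intro k hk
    rw [mem_Icc] at hk
    simp only
    split_ifs with h
    · refine (w3 l hz2 (k / α' l) ?_ ?_).trans c3
      · exact Nat.div_pos (Nat.le_of_dvd (by omega) h) (w2 l hz2)
      · rw [Nat.mul_div_cancel' h]
        omega
    · rw [norm_zero]
      positivity
  · intro w hw
    rw [mem_filter, Prod.mk.injEq] at hw
    obtain ⟨hw1, hw2, hw3⟩ := hw
    have e1 := hx w hw1
    have e2 := hb w hw1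
    rw [hw2, hw3] at e2
    rw [hw3] at e1
    refine ⟨α' l * xx w, e1, ?_⟩
    have e3 := dil_sum (exI liR) (α' l) (w2 l hz2) (g' l) (xx w) (a + b w + r m * w + t)
    rw [e3] at e2
    have e4 : (fun n => ((Pool.Agent.Y885.laR n : ℝ) : ℂ)) = liR := by
      ext n
      unfold Pool.Agent.Y885.laR liR
      push_cast
      rfl
    rw [e4]
    have e5 : a + t + b w + r m * w = a + b w + r m * w + t := by ring
    rw [e5]
    refine lt_of_le_of_lt ?_ e2
    refine div_le_div_of_nonneg_left hX0.le (by positivity) (c5.trans (pow_le_pow_right₀ hL1 (by omega)))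

end Pool.Agent.V5helper23.KP
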