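import Pool.Agent.V5helper23.KP.Ell
import Pool.Agent.Y885.MU6

set_option autoImplicit false

/-! ALL multiplicative functions near a twisted Liouville function, and shifts which are corrected by few elements of a
set. -/

namespace Pool.Agent.V5helper23.KP
open Finset
open Pool.Agent.H373R2.T7 (exI liR)
open Pool.Agent.R459.Tw (NearTwist)
open Pool.Agent.R459.Ell (ext Good Near Weights)
open Pool.Agent.R459 (Wts Big)

/-- translations are weights, up to a short sum -/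
lemma shift_wt (F : ℤ → ℂ) (hF : ∀ j, ‖F j‖ ≤ 1) (G : ℕ → ℂ) (Z : ℕ) (Q : ℝ) (hQ : 0 ≤ Q) (hG : ∀ j ∈ Icc 1 Z, ‖G j‖ ≤ Q)
    (t y : ℤ) :
    ‖∑ j ∈ Icc 1 Z, G j * F ((j : ℤ) + (y + t))‖ ≤ |(t : ℝ)| * Q +
      ‖∑ j ∈ Icc 1 ((Z : ℤ) + t).toNat, (if 1 ≤ (j : ℤ) - t then G ((j : ℤ) - t).toNat else 0) * F ((j : ℤ) + y)‖ := by
  classical
  have h1 : ∑ j ∈ (Icc 1 Z).filter (fun j : ℕ => 1 ≤ (j : ℤ) + t), G j * F ((j : ℤ) + (y + t)) =
      ∑ j ∈ Icc 1 ((Z : ℤ) + t).toNat, (if 1 ≤ (j : ℤ) - t then G ((j : ℤ) - t).toNat else 0) * F ((j : ℤ) + y) := by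
    have e1 : ∑ j ∈ Icc 1 ((Z : ℤ) + t).toNat, (if 1 ≤ (j : ℤ) - t then G ((j : ℤ) - t).toNat else 0) * F ((j : ℤ) + y) =
        ∑ j ∈ (Icc 1 ((Z : ℤ) + t).toNat).filter (fun j : ℕ => 1 ≤ (j : ℤ) - t), G ((j : ℤ) - t).toNat * F ((j : ℤ) + y) := by
      rw [sum_filter]
      apply sum_congr rfl
      intro j _
      split_ifs <;> simp
    rw [e1]
    apply sum_nbij' (fun j : ℕ => ((j : ℤ) + t).toNat) (fun j : ℕ => ((j : ℤ) - t).toNat)
    · intro j hj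
      rw [mem_filter, mem_Icc] at hj ⊢
      omega
    · intro j hj
      rw [mem_filter, mem_Icc] at hj ⊢
      omega
    · intro j hj
      rw [mem_filter, mem_Icc] at hj
      omega
    · intro j hj
      rw [mem_filter, mem_Icc] at hj
      omega
    · intro j hj
      rw [mem_filter, mem_Icc] at hj
      obtain ⟨h1, h2⟩ := hj
      have e2 : (((((j : ℤ) + t).toNat : ℕ) : ℤ)) = (j : ℤ) + t := Int.toNat_of_nonneg (by omega)
      rw [e2]
      have e3 : (j : ℤ) + t - t = j := by ring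
      rw [e3, Int.toNat_natCast, show (j : ℤ) + t + y = (j : ℤ) + (y + t) by ring]
  have h2 := sum_filter_add_sum_filter_not (Icc 1 Z) (fun j : ℕ => 1 ≤ (j : ℤ) + t) (fun j : ℕ => G j * F ((j : ℤ) + (y + t)))
  rw [← h2, h1, add_comm]
  refine (norm_add_le _ _).trans (add_le_add ?_ le_rfl)
  refine (norm_sum_le _ _).trans ?_
  calc ∑ j ∈ (Icc 1 Z).filter (fun j : ℕ => ¬ 1 ≤ (j : ℤ) + t), ‖G j * F ((j : ℤ) + (y + t))‖ ≤
      ∑ _j ∈ (Icc 1 Z).filter (fun j : ℕ => ¬ 1 ≤ (j : ℤ) + t), Q := by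
        apply sum_le_sum
        intro j hj
        rw [mem_filter] at hj
        rw [norm_mul]
        calc ‖G j‖ * ‖F ((j : ℤ) + (y + t))‖ ≤ Q * 1 := mul_le_mul (hG j hj.1) (hF _) (norm_nonneg _) hQ
          _ = Q := mul_one _
    _ = ((Icc 1 Z).filter (fun j : ℕ => ¬ 1 ≤ (j : ℤ) + t)).card * Q := by rw [sum_const, nsmul_eq_mul]
    _ ≤ |(t : ℝ)| * Q := by
        apply mul_le_mul_of_nonneg_right _ hQ
        have e1 : ((Icc 1 Z).filter (fun j : ℕ => ¬ 1 ≤ (j : ℤ) + t)).card ≤ (Icc 1 t.natAbs).card := by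
          apply card_le_card
          intro j hj
          rw [mem_filter, mem_Icc] at hj
          rw [mem_Icc]
          omega
        rw [Nat.card_Icc, Nat.add_sub_cancel] at e1
        have e2 : ((t.natAbs : ℕ) : ℝ) = |(t : ℝ)| := by
          rw [Nat.cast_natAbs]
          push_cast
          rfl
        rw [← e2]
        exact_mod_cast e1

lemma liR_norm_le (j : ℤ) : ‖exI liR j‖ ≤ 1 := by
  unfold exI
  split_ifs
  · unfold liR
    rw [norm_pow, norm_neg, norm_one, one_pow]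
  · simp

lemma loglog_small (C : ℝ) : ∃ x₀ : ℝ, ∀ x : ℝ, x₀ ≤ x → C * Real.log x ^ 2 ≤ x := by
  have h := (Real.isLittleO_pow_log_id_atTop (n := 2)).def (c := 1 / (|C| + 1)) (by positivity)
  obtain ⟨x₀, hx⟩ := Filter.eventually_atTop.1 h
  refine ⟨max x₀ 0, fun x hx' => ?_⟩
  have h1 := hx x ((le_max_left _ _).trans hx')
  have hx0 : 0 ≤ x := (le_max_right _ _).trans hx'
  simp only [id, Real.norm_eq_abs] at h1
  rw [abs_of_nonneg (by positivity), abs_of_nonneg hx0] at h1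
  have h2 : Real.log x ^ 2 * (|C| + 1) ≤ x := by
    rw [one_div, inv_mul_eq_div, le_div_iff₀ (by positivity)] at h1
    exact h1
  have h3 : C * Real.log x ^ 2 ≤ (|C| + 1) * Real.log x ^ 2 := by
    apply mul_le_mul_of_nonneg_right _ (by positivity)
    linarith [le_abs_self C]
  linarith

theorem las_ell (δ B₁ : ℝ) (hδ : 0 < δ) (l P T W U B : ℕ) (hl : 2 ≤ l) (hP : 1 ≤ P) : ∃ C : ℝ, ∀ H : ℕ, ∃ N₀ : ℕ, ∀ A : Set ℕ,
    (∀ x : ℕ, 1 ≤ x → ∃ a ∈ A, x ≤ a ∧ a ≤ l * x) → ∀ N : ℕ, N₀ ≤ N → ∀ h₀ : ℕ, h₀ ≤ B * N →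
    ∀ M : ℕ, (M : ℝ) ≤ Real.log N ^ T → ∀ (α : Fin M → ℕ) (g : Fin M → ℕ → ℂ), (∀ j, 1 ≤ α j) →
    (∀ j n, 1 ≤ n → α j * n ≤ B * N → ‖g j n‖ ≤ Real.log N ^ T) →
    ∃ S : Finset ℕ, (∀ u ∈ S, u ∈ A ∧ Real.log N ^ H ≤ u ∧ (u : ℝ) ≤ N / Real.log N ^ H) ∧
      (S.card : ℝ) ≤ C * Real.log (Real.log N) ^ 2 ∧ P ∣ ∑ u ∈ S, u ∧
      ∀ h : ℤ, |((h - ((h₀ + ∑ u ∈ S, u : ℕ) : ℤ) : ℤ) : ℝ)| ≤ Real.log N ^ W →
        ∀ f : ℕ → ℂ, NearTwist δ B₁ (Real.log N ^ T) f → ∀ j, ∀ x : ℕ, α j * x ≤ B * N →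
          ‖∑ n ∈ Icc 1 x, g j n * ext f (((α j * n : ℕ) : ℤ) + h)‖ ≤ N / Real.log N ^ U := by
  classical
  obtain ⟨T', U', Ex, k₀, hUU, hpass⟩ := Pool.Agent.R459.Ell.pass δ B₁ hδ B (B + 1) T W U (by omega)
  obtain ⟨C, hC⟩ := Pool.Agent.Y885.las_fine l P (T' + W + 3) (U' + 2) hl hP Pool.Agent.Y885.laR Pool.Agent.Y885.fine_lam
  refine ⟨C, fun H => ?_⟩
  obtain ⟨N1, h1⟩ := hC (H + 1) (B + 2)
  obtain ⟨N2, h2⟩ := lvl_facts
  obtain ⟨N3, h3⟩ := log_pow_le T'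
  obtain ⟨N4, h4⟩ := log_pow_le W
  obtain ⟨N5, h5⟩ := log_pow_le U'
  obtain ⟨x₀, hx₀⟩ := loglog_small C
  obtain ⟨N6, h6⟩ := Pool.Agent.H373R2.T7.ev_L' (max ((k₀ + 8 : ℕ) : ℝ) x₀)
  obtain ⟨N7, h7⟩ := log_pow_le Ex
  obtain ⟨N8, h8⟩ := Pool.Agent.H373R2.T7.ev_log' (Ex + W + T' + U' + 4) 2
  refine ⟨N1 + N2 + N3 + N4 + N5 + N6 + N7 + N8 + 3, fun A hA N hN h₀ hh₀ M hM α g hα hg => ?_⟩
  obtain ⟨a1, a2, a3, a4⟩ := h2 N (by omega)
  have c3 := h3 N (by omega)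
  have c4 := h4 N (by omega)
  have c5 := h5 N (by omega)
  have c6 := h6 N (by omega)
  have c7 := h7 N (by omega)
  have c8 := h8 N (by omega)
  obtain ⟨K, hK⟩ : ∃ K, K = lvl N := ⟨_, rfl⟩
  rw [← hK] at a1 a2 a3 a4 c3 c4 c5 c7
  have hNr : (3 : ℝ) ≤ N := by exact_mod_cast (by omega : 3 ≤ N)
  have hN0 : (0 : ℝ) < N := by linarith
  obtain ⟨L, hL⟩ : ∃ L, L = Real.log (N : ℝ) := ⟨_, rfl⟩
  have hloc := h1 A hA N (by omega)
  rw [← hL] at a3 a4 c3 c4 c5 c6 c7 c8 hloc hM hg ⊢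
  have hL8 : (8 : ℝ) ≤ L := by
    refine le_trans ?_ ((le_max_left _ _).trans c6)
    exact_mod_cast (by omega : 8 ≤ k₀ + 8)
  have hkK' : k₀ + 8 ≤ K := by
    have : ((k₀ + 8 : ℕ) : ℝ) ≤ K := ((le_max_left _ _).trans c6).trans a3
    exact_mod_cast this
  have hlogL : C * Real.log L ^ 2 ≤ L := hx₀ L ((le_max_right _ _).trans c6)
  have hL1 : (1 : ℝ) ≤ L := by linarith
  have hL0 : (0 : ℝ) < L := by linarith
  have hK1 : (1 : ℝ) ≤ K := by linarith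
  have hK0 : (0 : ℝ) < K := by linarith
  have hsq : √(N : ℝ) * √(N : ℝ) = N := Real.mul_self_sqrt hN0.le
  have hsq1 : (1 : ℝ) ≤ √(N : ℝ) := by
    rw [Real.one_le_sqrt]
    linarith
  have hsX : √(N : ℝ) ≤ N := by nlinarith
  have hbig8 : ∀ j : ℕ, j ≤ Ex + W + T' + U' + 4 → 2 * L ^ j ≤ N := by
    intro j hj
    refine le_trans ?_ (c8.trans hsX)
    have e2 : L ^ j ≤ L ^ (Ex + W + T' + U' + 4) := pow_le_pow_right₀ hL1 hj
    linarith
  have d1 : K ^ Ex ≤ N := by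
    have e1 : (K : ℝ) ^ Ex ≤ N := by
      have := hbig8 (Ex + 1) (by omega)
      have e3 : (0 : ℝ) ≤ L ^ (Ex + 1) := by positivity
      linarith
    exact_mod_cast e1
  have d3 : Real.log (N : ℝ) ≤ (K : ℝ) ^ 2 := by
    rw [← hL]
    nlinarith
  have hLK : ∀ j : ℕ, L ^ j ≤ (K : ℝ) ^ j := fun j => pow_le_pow_left₀ hL0.le a3 j
  have dW : (K : ℤ) ^ W ≤ N := by
    have e1 : (K : ℝ) ^ W ≤ N := by
      have := hbig8 (W + 1) (by omega)
      have e3 : (0 : ℝ) ≤ L ^ (W + 1) := by positivity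
      linarith
    exact_mod_cast e1
  -- the weights
  obtain ⟨G, hG⟩ : ∃ G : Fin M → ℕ → ℂ, G = fun j n => if 1 ≤ n ∧ α j * n ≤ B * N then g j n else 0 := ⟨_, rfl⟩
  have hW : Weights T K α G := by
    refine ⟨hM.trans (hLK T), hα, fun j n => ?_⟩
    rw [hG]
    simp only
    split_ifs with h
    · exact (hg j n h.1 h.2).trans (hLK T)
    · rw [norm_zero]
      positivity
  obtain ⟨L', α', g', hw', hbig⟩ := hpass K (by omega) N d1 d3 M α G hW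
  obtain ⟨w1, w2, w3⟩ := hw'
  obtain ⟨Q, hQ⟩ : ∃ Q : ℕ, Q = 2 * K ^ W + 1 := ⟨_, rfl⟩
  have hQ0 : 0 < Q := by omega
  obtain ⟨tt, htt⟩ : ∃ tt : ℕ → ℤ, tt = fun i => ((i % Q : ℕ) : ℤ) - (K : ℤ) ^ W := ⟨_, rfl⟩
  obtain ⟨G₀, hG₀⟩ : ∃ G₀ : ℕ → ℕ → ℂ, G₀ = fun v m => if α' v ∣ m then g' v (m / α' v) else 0 := ⟨_, rfl⟩
  have hG₀b : ∀ v < L', ∀ m : ℕ, 1 ≤ m → m ≤ (B + 1) * N → ‖G₀ v m‖ ≤ (K : ℝ) ^ T' := by
    intro v hv m hm1 hm2
    rw [hG₀]
    simp only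
    split_ifs with h
    · apply w3 v hv
      · exact Nat.div_pos (Nat.le_of_dvd (by omega) h) (w2 v hv)
      · rw [Nat.mul_div_cancel' h]
        exact hm2
    · rw [norm_zero]
      positivity
  obtain ⟨G₁, hG₁⟩ : ∃ G₁ : Fin (L' * Q) → ℕ → ℂ, G₁ = fun (i : Fin (L' * Q)) (j : ℕ) => if 1 ≤ (j : ℤ) - tt i ∧ (j : ℤ) - tt i ≤ (((B + 1) * N : ℕ) : ℤ) then
      G₀ ((i : ℕ) / Q) ((j : ℤ) - tt i).toNat else 0 := ⟨_, rfl⟩
  have hcount : ((L' * Q : ℕ) : ℝ) ≤ L ^ (T' + W + 3) := by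
    have e1 : ((Q : ℕ) : ℝ) ≤ 3 * (K : ℝ) ^ W := by
      rw [hQ]
      push_cast
      have := one_le_pow₀ hK1 (n := W)
      linarith
    have e2 : 3 * (K : ℝ) ^ W ≤ L ^ (W + 2) := by
      calc 3 * (K : ℝ) ^ W ≤ L * L ^ (W + 1) := mul_le_mul (by linarith) c4 (by positivity) hL0.le
        _ = L ^ (W + 2) := by ring
    push_cast
    calc (L' : ℝ) * Q ≤ L ^ (T' + 1) * L ^ (W + 2) := mul_le_mul (w1.trans c3) (e1.trans e2) (Nat.cast_nonneg _) (by positivity)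
      _ = _ := by rw [← pow_add]; congr 1; omega
  obtain ⟨S, s1, s2, s3, s4⟩ := hloc h₀ (hh₀.trans (Nat.mul_le_mul_right _ (by omega))) (L' * Q) hcount (fun _ => 1) G₁
    (fun _ => le_rfl) (by
      intro i n hn1 hn2
      rw [hG₁]
      simp only
      split_ifs with h
      · have hi : (i : ℕ) / Q < L' := Nat.div_lt_of_lt_mul (lt_of_lt_of_eq i.2 (mul_comm _ _))
        refine (hG₀b _ hi _ (by omega) (by omega)).trans (c3.trans (pow_le_pow_right₀ hL1 (by omega)))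
      · rw [norm_zero]
        positivity)
  refine ⟨S, fun u hu => ?_, s2, s3, ?_⟩
  · obtain ⟨q1, q2, q3⟩ := s1 u hu
    refine ⟨q1, (pow_le_pow_right₀ hL1 (by omega)).trans q2, q3.trans ?_⟩
    exact div_le_div_of_nonneg_left hN0.le (by positivity) (pow_le_pow_right₀ hL1 (by omega))
  obtain ⟨σ, hσ⟩ : ∃ σ, σ = ∑ u ∈ S, u := ⟨_, rfl⟩
  rw [← hσ] at s4 ⊢
  have hσN : σ ≤ N := by
    have e1 : (σ : ℝ) ≤ N := by
      rw [hσ]
      push_cast
      calc ∑ u ∈ S, (u : ℝ) ≤ ∑ _u ∈ S, (N : ℝ) / L := by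
            apply sum_le_sum
            intro u hu
            refine (s1 u hu).2.2.trans ?_
            exact div_le_div_of_nonneg_left hN0.le hL0 (le_self_pow₀ hL1 (by omega))
        _ = S.card * (N / L) := by rw [sum_const, nsmul_eq_mul]
        _ ≤ L * (N / L) := mul_le_mul_of_nonneg_right (s2.trans hlogL) (by positivity)
        _ = N := by field_simp
    exact_mod_cast e1
  obtain ⟨y, hy⟩ : ∃ y : ℤ, y = ((h₀ + σ : ℕ) : ℤ) := ⟨_, rfl⟩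
  rw [← hy]
  have hyN : |y| ≤ ((B + 1 : ℕ) : ℤ) * (N : ℤ) := by
    rw [hy, abs_of_nonneg (Int.natCast_nonneg _)]
    have : h₀ + σ ≤ (B + 1) * N := by
      have : (B + 1) * N = B * N + N := by ring
      omega
    exact_mod_cast this
  have hnear : Near W K (Good δ B₁ B T U N K α G) y := by
    by_contra hcon
    obtain ⟨t, ht, v, hv, x, hx, hb⟩ := hbig y hyN hcon
    have ht' : |(t : ℝ)| ≤ (K : ℝ) ^ W := by exact_mod_cast ht
    rw [abs_le] at ht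
    rw [dil_sum (exI liR) (α' v) (w2 v hv) (g' v) x (y + t)] at hb
    have hshift := shift_wt (exI liR) liR_norm_le (G₀ v) (α' v * x) ((K : ℝ) ^ T') (by positivity) (by
      intro j hj
      rw [mem_Icc] at hj
      exact hG₀b v hv j hj.1 (hj.2.trans hx)) t y
    have hi : v * Q + (t + (K : ℤ) ^ W).toNat < L' * Q := by
      have e1 : (t + (K : ℤ) ^ W).toNat < Q := by
        have : ((K ^ W : ℕ) : ℤ) = (K : ℤ) ^ W := by push_cast; rfl
        omega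
      calc v * Q + (t + (K : ℤ) ^ W).toNat < v * Q + Q := by omega
        _ = (v + 1) * Q := by ring
        _ ≤ L' * Q := Nat.mul_le_mul_right _ hv
    have hr : (t + (K : ℤ) ^ W).toNat < Q := by
      have : ((K ^ W : ℕ) : ℤ) = (K : ℤ) ^ W := by push_cast; rfl
      omega
    have hdiv : (v * Q + (t + (K : ℤ) ^ W).toNat) / Q = v := by
      rw [mul_comm, Nat.mul_add_div hQ0, Nat.div_eq_of_lt hr, add_zero]
    have hmod : (v * Q + (t + (K : ℤ) ^ W).toNat) % Q = (t + (K : ℤ) ^ W).toNat := by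
      rw [mul_comm, Nat.mul_add_mod, Nat.mod_eq_of_lt hr]
    have hti : tt (v * Q + (t + (K : ℤ) ^ W).toNat) = t := by
      rw [htt]
      simp only
      rw [hmod, Int.toNat_of_nonneg (by omega)]
      ring
    have hZ : (((α' v * x : ℕ) : ℤ) + t).toNat ≤ (B + 2) * N := by
      have e1 : ((α' v * x : ℕ) : ℤ) ≤ (((B + 1) * N : ℕ) : ℤ) := by exact_mod_cast hx
      have e2 : (((B + 2) * N : ℕ) : ℤ) = (((B + 1) * N : ℕ) : ℤ) + N := by push_cast; ring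
      omega
    have h4 := s4 ⟨_, hi⟩ (((α' v * x : ℕ) : ℤ) + t).toNat (by rw [one_mul]; exact hZ)
    have e1 : ∑ n ∈ Icc 1 (((α' v * x : ℕ) : ℤ) + t).toNat, G₁ ⟨_, hi⟩ n * ((Pool.Agent.Y885.laR (1 * n + (h₀ + σ)) : ℝ) : ℂ) =
        ∑ j ∈ Icc 1 (((α' v * x : ℕ) : ℤ) + t).toNat, (if 1 ≤ (j : ℤ) - t then G₀ v ((j : ℤ) - t).toNat else 0) * exI liR ((j : ℤ) + y) := by
      apply sum_congr rfl
      intro j hj
      rw [mem_Icc] at hj
      have f1 : exI liR ((j : ℤ) + y) = ((Pool.Agent.Y885.laR (1 * j + (h₀ + σ)) : ℝ) : ℂ) := by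
        unfold exI
        rw [if_pos (by omega)]
        have : ((j : ℤ) + y).toNat = 1 * j + (h₀ + σ) := by omega
        rw [this]
        unfold Pool.Agent.Y885.laR liR
        push_cast
        rfl
      rw [f1]
      congr 1
      rw [hG₁]
      simp only
      rw [hti, hdiv]
      have e1 : ((α' v * x : ℕ) : ℤ) ≤ (((B + 1) * N : ℕ) : ℤ) := by exact_mod_cast hx
      by_cases hc : 1 ≤ (j : ℤ) - t
      · rw [if_pos hc, if_pos ⟨hc, by omega⟩]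
      · rw [if_neg hc, if_neg (fun h => hc h.1)]
    rw [e1] at h4
    have hb' : (N : ℝ) / (K : ℝ) ^ U' < |(t : ℝ)| * (K : ℝ) ^ T' + N / L ^ (U' + 2) := by
      refine lt_of_lt_of_le hb (le_trans (le_of_eq ?_) (hshift.trans (add_le_add_right h4 _)))
      rw [hG₀]
    have f1 : |(t : ℝ)| * (K : ℝ) ^ T' ≤ L ^ (W + T' + 2) := by
      calc |(t : ℝ)| * (K : ℝ) ^ T' ≤ L ^ (W + 1) * L ^ (T' + 1) := mul_le_mul (ht'.trans c4) c3 (by positivity) (by positivity)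
        _ = _ := by rw [← pow_add]; congr 1; omega
    have f2 : (N : ℝ) / L ^ (U' + 1) ≤ N / (K : ℝ) ^ U' := div_le_div_of_nonneg_left hN0.le (by positivity) c5
    have f3 : (N : ℝ) / L ^ (U' + 2) ≤ (1 / 8) * (N / L ^ (U' + 1)) := by
      have : (N : ℝ) / L ^ (U' + 2) = (1 / L) * (N / L ^ (U' + 1)) := by
        rw [pow_succ L (U' + 1)]
        field_simp
      rw [this]
      apply mul_le_mul_of_nonneg_right _ (by positivity)
      exact one_div_le_one_div_of_le (by norm_num) hL8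
    have f4 : L ^ (W + T' + 2) ≤ (1 / 2) * (N / L ^ (U' + 1)) := by
      have e1 := hbig8 (W + T' + 2 + (U' + 1)) (by omega)
      rw [pow_add] at e1
      rw [← mul_div_assoc, le_div_iff₀ (by positivity)]
      linarith
    have f5 : (0 : ℝ) < N / L ^ (U' + 1) := by positivity
    linarith
  intro h hh f hf j x hx
  have e7 : |h - y| ≤ (K : ℤ) ^ W := by
    have e8 := hh.trans (hLK W)
    have e9 : ((|h - y| : ℤ) : ℝ) ≤ (((K : ℤ) ^ W : ℤ) : ℝ) := by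
      push_cast
      push_cast at e8
      exact e8
    exact_mod_cast e9
  have e8 := hnear h e7 f ⟨hf.1, hf.2.1, by
    obtain ⟨q, χ, t, q1, q2, q3, q4⟩ := hf.2.2
    exact ⟨q, χ, t, q1, q2.trans (hLK T), q3.trans (hLK T), q4⟩⟩ j x hx
  have e9 : ∑ n ∈ Icc 1 x, G j n * ext f ((α j : ℤ) * n + h) = ∑ n ∈ Icc 1 x, g j n * ext f (((α j * n : ℕ) : ℤ) + h) := by
    apply sum_congr rfl
    intro n hn
    rw [mem_Icc] at hn
    rw [hG]
    simp only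
    rw [if_pos ⟨hn.1, (Nat.mul_le_mul_left _ hn.2).trans hx⟩]
    push_cast
    rfl
  rw [e9] at e8
  exact e8.trans (div_le_div_of_nonneg_left hN0.le (by positivity) (hLK U))

end Pool.Agent.V5helper23.KP
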