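import Pool.Agent.V5helper23.KP.Ell
import Pool.Agent.R459.Fam2

set_option autoImplicit false

/-! ALL multiplicative functions near a twisted Liouville function, and ALL the shifts near almost all members of a
finite family of integers of nearly minimal additive energy. -/

namespace Pool.Agent.V5helper23.KP
open Finset
open Pool.Agent.H373R2.T7 (exI liR)
open Pool.Agent.R459.Tw (NearTwist)
open Pool.Agent.R459.Ell (ext Good Near Weights)
open Pool.Agent.R459 (Wts Big)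
open Pool.Agent.TH935.GF (En)

theorem fam_ell (δ B₁ : ℝ) (hδ : 0 < δ) (p B B' C T W U : ℕ) (hBB : B ≤ B') : ∃ N₀ : ℕ, ∀ N : ℕ, N₀ ≤ N →
    ∀ (ι : Type) [Fintype ι] (v : ι → ℤ), (∀ i, |v i| ≤ B' * N) →
    (En p v : ℝ) * N ≤ Real.log N ^ C * (Fintype.card ι : ℝ) ^ (2 * p) →
    ∀ M : ℕ, (M : ℝ) ≤ Real.log N ^ T → ∀ (α : Fin M → ℕ) (g : Fin M → ℕ → ℂ), (∀ j, 1 ≤ α j) →
    (∀ j n, 1 ≤ n → α j * n ≤ B * N → ‖g j n‖ ≤ Real.log N ^ T) →
    ∀ S : Finset ι, (∀ i ∈ S, ¬ ∀ h : ℤ, |((h - v i : ℤ) : ℝ)| ≤ Real.log N ^ W →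
        ∀ f : ℕ → ℂ, NearTwist δ B₁ (Real.log N ^ T) f → ∀ j, ∀ x : ℕ, α j * x ≤ B * N →
          ‖∑ n ∈ Icc 1 x, g j n * ext f (((α j * n : ℕ) : ℤ) + h)‖ ≤ N / Real.log N ^ U) →
      (S.card : ℝ) ≤ Fintype.card ι / Real.log N ^ U := by
  classical
  obtain ⟨T', U', Ex, k₀, hUU, hpass⟩ := Pool.Agent.R459.Ell.pass δ B₁ hδ B B' T W U hBB
  obtain ⟨N1, h1⟩ := Pool.Agent.R459.fam_near_fin liR Pool.Agent.H373R2.T7.liR_norm Pool.Agent.H373R2.T7.sup_liou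
    p B' C (T' + 1) (W + 1) (U' + 1)
  obtain ⟨N2, h2⟩ := lvl_facts
  obtain ⟨N3, h3⟩ := log_pow_le T'
  obtain ⟨N4, h4⟩ := log_pow_le W
  obtain ⟨N5, h5⟩ := log_pow_le U'
  obtain ⟨N6, h6⟩ := Pool.Agent.H373R2.T7.ev_L' ((k₀ + 8 : ℕ) : ℝ)
  obtain ⟨N7, h7⟩ := Pool.Agent.H373R2.T7.ev_log' (Ex + 4) 2
  obtain ⟨N8, h8⟩ := log_pow_le Ex
  refine ⟨N1 + N2 + N3 + N4 + N5 + N6 + N7 + N8 + 3, fun N hN ι _ v hv hE M hM α g hα hg S hS => ?_⟩
  obtain ⟨a1, a2, a3, a4⟩ := h2 N (by omega)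
  have c3 := h3 N (by omega)
  have c4 := h4 N (by omega)
  have c5 := h5 N (by omega)
  have c6 := h6 N (by omega)
  have c7 := h7 N (by omega)
  have c8 := h8 N (by omega)
  obtain ⟨K, hK⟩ : ∃ K, K = lvl N := ⟨_, rfl⟩
  rw [← hK] at a1 a2 a3 a4 c3 c4 c5 c8
  have hNr : (3 : ℝ) ≤ N := by exact_mod_cast (by omega : 3 ≤ N)
  have hN0 : (0 : ℝ) < N := by linarith
  have hfam := h1 N (by omega) ι v hv
  obtain ⟨L, hL⟩ : ∃ L, L = Real.log (N : ℝ) := ⟨_, rfl⟩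
  rw [← hL] at a3 a4 c3 c4 c5 c6 c7 c8 hfam hM hg hE hS ⊢
  have hL8 : (8 : ℝ) ≤ L := by
    refine le_trans ?_ c6
    exact_mod_cast (by omega : 8 ≤ k₀ + 8)
  have hkK' : k₀ + 8 ≤ K := by
    have : ((k₀ + 8 : ℕ) : ℝ) ≤ K := c6.trans a3
    exact_mod_cast this
  have hL1 : (1 : ℝ) ≤ L := by linarith
  have hL0 : (0 : ℝ) < L := by linarith
  have hK1 : (1 : ℝ) ≤ K := by linarith
  have hK0 : (0 : ℝ) < K := by linarith
  have hsq : √(N : ℝ) * √(N : ℝ) = N := Real.mul_self_sqrt hN0.le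
  have hsq1 : (1 : ℝ) ≤ √(N : ℝ) := by
    rw [Real.one_le_sqrt]
    linarith
  have hsX : √(N : ℝ) ≤ N := by nlinarith
  have d1 : K ^ Ex ≤ N := by
    have e1 : (K : ℝ) ^ Ex ≤ N := by
      have e2 : L ^ (Ex + 1) ≤ L ^ (Ex + 4) := pow_le_pow_right₀ hL1 (by omega)
      have e3 : (0 : ℝ) ≤ L ^ (Ex + 4) := by positivity
      linarith
    exact_mod_cast e1
  have d3 : Real.log (N : ℝ) ≤ (K : ℝ) ^ 2 := by
    rw [← hL]
    nlinarith
  have hLK : ∀ j : ℕ, L ^ j ≤ (K : ℝ) ^ j := fun j => pow_le_pow_left₀ hL0.le a3 j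
  -- the weights
  obtain ⟨G, hG⟩ : ∃ G : Fin M → ℕ → ℂ, G = fun j n => if 1 ≤ n ∧ α j * n ≤ B * N then g j n else 0 := ⟨_, rfl⟩
  have hW : Weights T K α G := by
    refine ⟨hM.trans (hLK T), hα, fun j n => ?_⟩
    rw [hG]
    simp only
    split_ifs with h
    · exact (hg j n h.1 h.2).trans (hLK T)
    · rw [norm_zero]
      positivity
  obtain ⟨L', α', g', hw', hbig⟩ := hpass K (by omega) N d1 d3 M α G hW
  obtain ⟨w1, w2, w3⟩ := hw'
  refine (hfam hE L' (w1.trans c3) α' g' w2 (fun l hl n hn1 hn2 => (w3 l hl n hn1 hn2).trans c3) S ?_).trans ?_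
  · intro i hi
    have hnear : ¬ Near W K (Good δ B₁ B T U N K α G) (v i) := by
      intro hcon
      refine hS i hi fun h hh f hf j x hx => ?_
      have e7 : |h - v i| ≤ (K : ℤ) ^ W := by
        have e8 := hh.trans (hLK W)
        have e9 : ((|h - v i| : ℤ) : ℝ) ≤ (((K : ℤ) ^ W : ℤ) : ℝ) := by
          push_cast
          push_cast at e8
          exact e8
        exact_mod_cast e9
      have e8 := hcon h e7 f ⟨hf.1, hf.2.1, by
        obtain ⟨q, χ, t, q1, q2, q3, q4⟩ := hf.2.2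
        exact ⟨q, χ, t, q1, q2.trans (hLK T), q3.trans (hLK T), q4⟩⟩ j x hx
      have e9 : ∑ n ∈ Icc 1 x, G j n * ext f ((α j : ℤ) * n + h) =
          ∑ n ∈ Icc 1 x, g j n * ext f (((α j * n : ℕ) : ℤ) + h) := by
        apply sum_congr rfl
        intro n hn
        rw [mem_Icc] at hn
        rw [hG]
        simp only
        rw [if_pos ⟨hn.1, (Nat.mul_le_mul_left _ hn.2).trans hx⟩]
        push_cast
        rfl
      rw [e9] at e8
      exact e8.trans (div_le_div_of_nonneg_left hN0.le (by positivity) (hLK U))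
    obtain ⟨t, ht, l, hl, X, hX, hb⟩ := hbig (v i) (hv i) hnear
    have ht' : |(t : ℝ)| ≤ (K : ℝ) ^ W := by exact_mod_cast ht
    refine ⟨t, ht'.trans c4, l, hl, X, hX, lt_of_le_of_lt ?_ hb⟩
    exact div_le_div_of_nonneg_left hN0.le (by positivity) c5
  · exact div_le_div_of_nonneg_left (Nat.cast_nonneg _) (by positivity) (pow_le_pow_right₀ hL1 (by omega))

end Pool.Agent.V5helper23.KP
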