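import Pool.Agent.V5helper23.KP.Fam
import Pool.Agent.Y885.WI2

set_option autoImplicit false

/-! Families of patterns: sums of two primes in windows. -/

namespace Pool.Agent.V5helper23.KP
open Finset
open Pool.Agent.H373R2.T7
open Pool.Agent.Y885 (Thin TLaw Spec)
open Pool.Agent.W93.PG

lemma fam_mono (p B₁ B₂ B'₁ B'₂ C X n : ℕ) (r : ℕ → ℤ) (S : Finset ℤ) (hX : 1 ≤ Real.log X) (hB : B₁ ≤ B₂) (hB' : B'₁ ≤ B'₂)
    (h : Long B₂ B'₂ C X n r S ∨ Short p B₂ C X n r S) : Long B₁ B'₁ C X n r S ∨ Short p B₁ C X n r S := by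
  rcases h with ⟨u₀, w₀, W, g1, g2, g3, g4, g5, g6⟩ | ⟨g1, g2, w₀, g3, g4⟩
  · left
    exact ⟨u₀, w₀, W, g1, g2, g3, (pow_le_pow_right₀ hX hB).trans g4, (pow_le_pow_right₀ hX hB').trans g5, g6⟩
  · right
    exact ⟨g1, g2, w₀, g3, (pow_le_pow_right₀ hX hB).trans g4⟩

/-- the level and its predecessor -/
lemma lvl_two (X : ℕ) (hX : 1 ≤ X) : ∃ K : ℕ, lvl X = K + 2 ∧ X ≤ 2 ^ K ∧ Real.log X ≤ K := by
  have a1 : 4 * X ≤ 2 ^ lvl X := Nat.le_pow_clog (by norm_num) _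
  have a2 : 2 ≤ lvl X := by
    by_contra hcon
    have : lvl X = 0 ∨ lvl X = 1 := by omega
    rcases this with h | h <;> rw [h] at a1 <;> norm_num at a1 <;> omega
  refine ⟨lvl X - 2, by omega, ?_, ?_⟩
  · have : 2 ^ lvl X = 4 * 2 ^ (lvl X - 2) := by
      rw [show (4 : ℕ) = 2 ^ 2 by norm_num, ← pow_add]
      congr 1
      omega
    omega
  · have h1 : X ≤ 2 ^ (lvl X - 2) := by
      have : 2 ^ lvl X = 4 * 2 ^ (lvl X - 2) := by
        rw [show (4 : ℕ) = 2 ^ 2 by norm_num, ← pow_add]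
        congr 1
        omega
      omega
    have h2 : (X : ℝ) ≤ (2 : ℝ) ^ (lvl X - 2) := by exact_mod_cast h1
    have h3 := Real.log_le_log (by exact_mod_cast hX) h2
    rw [Real.log_pow] at h3
    have h4 := Real.log_two_lt_d9
    have h5 : (0 : ℝ) ≤ ((lvl X - 2 : ℕ) : ℝ) := Nat.cast_nonneg _
    nlinarith

theorem gb_core (A W U m₀ : ℕ) (ε : ℝ) (hε : 0 < ε) (P : ℕ → Prop)
    (hP : ∀ m : ℕ, m₀ ≤ m → 2 ∣ m → WinP ε A m → P m) : ∃ B : ℕ, ∀ C p : ℕ, ∃ B' X₀ : ℕ, ∀ X : ℕ, X₀ ≤ X →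
    ∀ (n : ℕ) (r : ℕ → ℤ) (S : Finset ℤ), (Long B B' C X n r S ∨ Short p B C X n r S) → ∀ b : ℤ → ℤ,
      ∀ E : Finset ℕ, E ⊆ Icc 1 n → (∀ m ∈ E, ∃ a : ℤ, (∀ w ∈ S, |a + b w + r m * w| ≤ X) ∧
        ∃ S' ⊆ S, (S.card : ℝ) / Real.log X ^ U < S'.card ∧ ∀ w ∈ S', 0 < a + b w + r m * w ∧ 2 ∣ a + b w + r m * w ∧
          (X : ℝ) / Real.log X ^ W ≤ ((a + b w + r m * w : ℤ) : ℝ) ∧ ¬ P (a + b w + r m * w).toNat) →
      (E.card : ℝ) ≤ n / Real.log X ^ U := by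
  classical
  obtain ⟨V, hV⟩ : ∃ V, V = 2 * (U + 2 * (A + (W + 1) + 4) + 9) + 6 := ⟨_, rfl⟩
  refine ⟨2 * V + U + 2, fun C p => ?_⟩
  obtain ⟨c, X1, h1⟩ := family_PF p U C V
  obtain ⟨K₀, h2⟩ := Pool.Agent.Y885.tl_win0 2 le_rfl 3 c A (W + 1) U m₀ (by norm_num) ε hε P hP
  obtain ⟨X3, h3⟩ := ev_L' ((K₀ + 2 : ℕ) : ℝ)
  obtain ⟨X4, h4⟩ := lvl_facts
  refine ⟨4 * V + 2 * U + C + 3, X1 + X3 + X4 + 3, fun X hX n r S hfam b E hEI hE => ?_⟩
  have b3 := h3 X (by omega)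
  obtain ⟨K, hK, hK1, hK2⟩ := lvl_two X (by omega)
  obtain ⟨_, a2, _, _⟩ := h4 X (by omega)
  rw [hK] at a2
  have hKX : 2 ^ K ≤ 2 * X := by
    have : 2 ^ (K + 2) = 4 * 2 ^ K := by rw [pow_add]; ring
    omega
  obtain ⟨L, hL⟩ : ∃ L, L = Real.log (X : ℝ) := ⟨_, rfl⟩
  rw [← hL] at b3 hK2 hE ⊢
  have hX0 : (0 : ℝ) < X := by exact_mod_cast (by omega : 0 < X)
  have hk : ((K₀ + 2 : ℕ) : ℝ) ≤ K := b3.trans hK2
  have hk' : K₀ + 2 ≤ K := by exact_mod_cast hk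
  have hL2 : (2 : ℝ) ≤ L := by
    refine le_trans ?_ b3
    exact_mod_cast (by omega : 2 ≤ K₀ + 2)
  have hL0 : 0 < L := by linarith
  have hK0 : (0 : ℝ) < K := by linarith
  rcases Nat.eq_zero_or_pos n with hn | hn
  · subst hn
    have : E = ∅ := subset_empty.1 (hEI.trans (by simp))
    rw [this]
    simp
  have hSne : S.Nonempty := by
    rw [← card_pos]
    have h4 : Real.log X ^ (2 * V + U + 2) ≤ S.card := by
      rcases hfam with ⟨_, _, _, _, _, _, g4, _⟩ | ⟨_, _, _, _, g4⟩ <;> exact g4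
    rw [← hL] at h4
    have : (0 : ℝ) < S.card := lt_of_lt_of_le (by positivity) h4
    exact_mod_cast this
  have hPF := h1 X (by omega) n r S hn hfam
  have hcn : ((Icc 1 n).card : ℝ) = n := by rw [Nat.card_Icc, Nat.add_sub_cancel]
  -- the threshold
  have hthr : ((2 ^ K : ℕ) : ℝ) / Real.log ((2 ^ K : ℕ) : ℝ) ^ (W + 1) ≤ X / L ^ W := by
    have c1 : ((2 ^ K : ℕ) : ℝ) ≤ 2 * X := by exact_mod_cast hKX
    have c2 : L ≤ Real.log ((2 ^ K : ℕ) : ℝ) := by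
      rw [hL]
      exact Real.log_le_log hX0 (by exact_mod_cast hK1)
    have c3 : L ^ (W + 1) ≤ Real.log ((2 ^ K : ℕ) : ℝ) ^ (W + 1) := pow_le_pow_left₀ hL0.le c2 _
    calc ((2 ^ K : ℕ) : ℝ) / Real.log ((2 ^ K : ℕ) : ℝ) ^ (W + 1) ≤ 2 * X / L ^ (W + 1) := by gcongr
      _ ≤ X / L ^ W := by
          rw [div_le_div_iff₀ (by positivity) (by positivity), pow_succ]
          have : 0 < L ^ W := by positivity
          have : 2 * (X * L ^ W) ≤ L * (X * L ^ W) := mul_le_mul_of_nonneg_right hL2 (by positivity)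
          nlinarith
  obtain ⟨Bad, hBad⟩ : ∃ Bad : ℤ → Prop, Bad = fun (y : ℤ) => 0 < y ∧ 2 ∣ y ∧ (X : ℝ) / L ^ W ≤ (y : ℝ) ∧ ¬ P y.toNat := ⟨_, rfl⟩
  have hsel := select (Icc 1 n) r S b hSne (fun y => |y| ≤ X) Bad (1 / L ^ U) (1 / L ^ U) (Classical.decPred _) (by
    intro D hD hDne hDc a hR
    have hlaw := hPF D hD (by
      rw [hK]
      have e1 : ((Icc 1 n).card : ℝ) ≤ L ^ U * D.card := by
        rw [one_div_mul_eq_div, div_lt_iff₀ (by positivity)] at hDc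
        linarith
      refine e1.trans (mul_le_mul_of_nonneg_right ?_ (Nat.cast_nonneg _))
      apply pow_le_pow_left₀ hL0.le
      push_cast
      linarith) a b
    rw [hK] at hlaw
    have h3 := h2 K (by omega) (ℕ × ℤ) (D ×ˢ S) _ _ (by rw [← hV]; exact hlaw) (by
      intro ω hω
      refine (hR ω hω).trans ?_
      exact_mod_cast hK1) (fun ω => Bad (a ω.1 + b ω.2 + r ω.1 * ω.2)) (Classical.decPred _) (by
      intro ω _ hb
      rw [hBad] at hb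
      exact ⟨hb.1, hb.2.1, hthr.trans hb.2.2.1, hb.2.2.2⟩)
    refine h3.trans ?_
    apply one_div_le_one_div_of_le (by positivity)
    exact pow_le_pow_left₀ hL0.le hK2 U) (by positivity) E hEI (by
    intro i hi
    obtain ⟨a, g1, S', g2, g3, g4⟩ := hE i hi
    refine ⟨a, g1, ?_⟩
    rw [one_div_mul_eq_div]
    refine lt_of_lt_of_le g3 ?_
    have : S' ⊆ @Finset.filter _ (fun w => Bad (a + b w + r i * w)) (fun w => Classical.decPred Bad _) S := by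
      intro w hw
      rw [mem_filter, hBad]
      exact ⟨g2 hw, g4 w hw⟩
    exact_mod_cast card_le_card this)
  rwa [one_div_mul_eq_div, hcn] at hsel

end Pool.Agent.V5helper23.KP
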