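import Pool.Agent.V5helper23.KP.Near
import Pool.Agent.N469.TL.Law

set_option autoImplicit false

/-! The random integer `a u + b w + u w` has a thin large spectrum. -/

namespace Pool.Agent.V5helper23.KP
open Finset
open Pool.Agent.H807R2.Dav
open Pool.Agent.H373R2.T7
open Pool.Agent.Y885 (Thin TLaw Spec)
open Pool.Agent.N469.SQ (maj mem_maj maj_card)
open Pool.Agent.N469.TL (thin_card pow_two_ev')

lemma Ioc_image (u0 : ℤ) (U : ℕ) : Ioc u0 (u0 + U) = (range U).image (fun i : ℕ => u0 + 1 + (i : ℤ)) := by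
  ext z
  rw [mem_Ioc, mem_image]
  constructor
  · intro ⟨h1, h2⟩
    refine ⟨(z - (u0 + 1)).toNat, ?_, ?_⟩
    · rw [mem_range]; omega
    · omega
  · rintro ⟨i, hi, rfl⟩
    rw [mem_range] at hi
    omega

lemma geo_int (u0 : ℤ) (U : ℕ) (x : ℝ) : ‖∑ u ∈ Ioc u0 (u0 + U), ee ((u : ℝ) * x)‖ ≤ U ∧
    dd x * ‖∑ u ∈ Ioc u0 (u0 + U), ee ((u : ℝ) * x)‖ ≤ 2 := by
  constructor
  · refine (norm_sum_le _ _).trans ?_
    simp only [norm_ee, sum_const, Int.card_Ioc, nsmul_eq_mul, mul_one]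
    have : (u0 + (U : ℤ) - u0).toNat = U := by omega
    rw [this]
  · have h1 : ∑ u ∈ Ioc u0 (u0 + U), ee ((u : ℝ) * x) = ee (((u0 + 1 : ℤ) : ℝ) * x) * ∑ i ∈ range U, ee x ^ i := by
      rw [Ioc_image, sum_image (by
        intro i _ j _ h
        have h' : u0 + 1 + (i : ℤ) = u0 + 1 + (j : ℤ) := h
        omega), mul_sum]
      apply sum_congr rfl
      intro i _
      rw [← ee_pow, ← ee_add]
      congr 1
      push_cast
      ring
    rw [h1, norm_mul, norm_ee, one_mul]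
    have h3 : (1 - ee x) * ∑ i ∈ range U, ee x ^ i = 1 - ee x ^ U := by
      have := geom_sum_mul (ee x) U
      linear_combination -this
    have h4 : dd x * ‖∑ i ∈ range U, ee x ^ i‖ = ‖1 - ee x ^ U‖ := by
      rw [← h3, norm_mul]; rfl
    rw [h4]
    refine (norm_sub_le _ _).trans ?_
    rw [norm_pow, norm_ee, norm_one]
    norm_num

lemma bilin (D S : Finset ℤ) (u0 : ℤ) (U : ℕ) (hD : D ⊆ Ioc u0 (u0 + U)) (a b : ℤ → ℤ) (θ : ℝ) :
    ‖∑ ω ∈ D ×ˢ S, ee (((a ω.1 + b ω.2 + ω.1 * ω.2 : ℤ) : ℝ) * θ)‖ ^ 2 ≤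
      D.card * ∑ z ∈ S ×ˢ S, ‖∑ u ∈ Ioc u0 (u0 + U), ee ((u : ℝ) * (((z.1 - z.2 : ℤ) : ℝ) * θ))‖ := by
  classical
  obtain ⟨g, hg⟩ : ∃ g : ℤ → ℂ, g = fun (u : ℤ) => ∑ w ∈ S, ee ((b w : ℝ) * θ + (u : ℝ) * ((w : ℝ) * θ)) := ⟨_, rfl⟩
  have h1 : ∑ ω ∈ D ×ˢ S, ee (((a ω.1 + b ω.2 + ω.1 * ω.2 : ℤ) : ℝ) * θ) = ∑ u ∈ D, ee ((a u : ℝ) * θ) * g u := by
    rw [sum_product]
    apply sum_congr rfl
    intro u _
    rw [hg]
    simp only
    rw [mul_sum]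
    apply sum_congr rfl
    intro w _
    rw [← ee_add]
    congr 1
    push_cast
    ring
  have h2 : ‖∑ u ∈ D, ee ((a u : ℝ) * θ) * g u‖ ≤ ∑ u ∈ D, ‖g u‖ := by
    refine (norm_sum_le _ _).trans (le_of_eq ?_)
    apply sum_congr rfl
    intro u _
    rw [norm_mul, norm_ee, one_mul]
  have h3 : (∑ u ∈ D, ‖g u‖) ^ 2 ≤ D.card * ∑ u ∈ D, ‖g u‖ ^ 2 := sq_sum_le_card_mul_sum_sq
  have h4 : ∑ u ∈ D, ‖g u‖ ^ 2 ≤ ∑ u ∈ Ioc u0 (u0 + U), ‖g u‖ ^ 2 :=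
    sum_le_sum_of_subset_of_nonneg hD (fun _ _ _ => by positivity)
  have h5 : ((∑ u ∈ Ioc u0 (u0 + U), ‖g u‖ ^ 2 : ℝ) : ℂ) = ∑ z ∈ S ×ˢ S, ee ((b z.1 : ℝ) * θ - (b z.2 : ℝ) * θ) *
      ∑ u ∈ Ioc u0 (u0 + U), ee ((u : ℝ) * (((z.1 - z.2 : ℤ) : ℝ) * θ)) := by
    push_cast
    have e1 : ∀ u, ((‖g u‖ : ℝ) : ℂ) ^ 2 = ∑ z ∈ S ×ˢ S, ee ((b z.1 : ℝ) * θ - (b z.2 : ℝ) * θ) *
        ee ((u : ℝ) * (((z.1 - z.2 : ℤ) : ℝ) * θ)) := by
      intro u
      rw [← Complex.mul_conj', hg]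
      simp only
      rw [map_sum, sum_mul_sum, sum_product]
      apply sum_congr rfl
      intro w _
      apply sum_congr rfl
      intro w' _
      rw [Pool.Agent.N469.SM.conj_ee', ← ee_add, ← ee_add]
      congr 1
      push_cast
      ring
    rw [sum_congr rfl (fun u _ => e1 u), sum_comm]
    apply sum_congr rfl
    intro z _
    rw [mul_sum]
    apply sum_congr rfl
    intro u _
    push_cast
    rfl
  have h6 : ∑ u ∈ Ioc u0 (u0 + U), ‖g u‖ ^ 2 ≤ ∑ z ∈ S ×ˢ S, ‖∑ u ∈ Ioc u0 (u0 + U), ee ((u : ℝ) * (((z.1 - z.2 : ℤ) : ℝ) * θ))‖ := by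
    have e1 : ∑ u ∈ Ioc u0 (u0 + U), ‖g u‖ ^ 2 = ‖((∑ u ∈ Ioc u0 (u0 + U), ‖g u‖ ^ 2 : ℝ) : ℂ)‖ := by
      rw [Complex.norm_real, Real.norm_of_nonneg (by positivity)]
    rw [e1, h5]
    refine (norm_sum_le _ _).trans (le_of_eq ?_)
    apply sum_congr rfl
    intro z _
    rw [norm_mul, norm_ee, one_mul]
  rw [h1]
  calc ‖∑ u ∈ D, ee ((a u : ℝ) * θ) * g u‖ ^ 2 ≤ (∑ u ∈ D, ‖g u‖) ^ 2 := pow_le_pow_left₀ (norm_nonneg _) h2 2
    _ ≤ D.card * ∑ u ∈ D, ‖g u‖ ^ 2 := h3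
    _ ≤ _ := mul_le_mul_of_nonneg_left (h4.trans h6) (Nat.cast_nonneg _)

lemma dd_round (x : ℝ) : 4 * |x - round x| ≤ dd x := by
  have h1 : dd x = dd |x - round x| := by
    have h2 : dd x = dd (x - round x) := by
      have : x = (x - round x) + ((round x : ℤ) : ℝ) := by ring
      conv_lhs => rw [this]
      rw [dd_add_int]
    rw [h2]
    rcases abs_choice (x - round x) with h | h
    · rw [h]
    · rw [h, dd_neg]
  rw [h1]
  have h3 : |x - round x| ≤ 1 / 2 := abs_sub_round x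
  have h4 := dd_ge (abs_nonneg (x - round x)) (by linarith)
  rwa [min_eq_left (by linarith)] at h4

/-- the characteristic function is large only near rational numbers with small denominators -/
theorem char_near (R Kv Ka Kc : ℝ) (hR : R = Kv ^ 2 * Ka) (hKv : 1 ≤ Kv) (hKa : 1 ≤ Ka) (hKc : 1 ≤ Kc)
    (D S : Finset ℤ) (u0 w0 : ℤ) (U W : ℕ) (hD : D ⊆ Ioc u0 (u0 + U)) (hS : S ⊆ Ioc w0 (w0 + W))
    (hDc : (U : ℝ) ≤ Ka * D.card) (hSc : (W : ℝ) ≤ Kc * S.card) (hSB : 4 * R ≤ S.card) (hU : 120 * R ^ 2 * Kc ≤ U)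
    (a b : ℤ → ℤ) (θ : ℝ) (hbig : (D.card : ℝ) * S.card / Kv < ‖∑ ω ∈ D ×ˢ S, ee (((a ω.1 + b ω.2 + ω.1 * ω.2 : ℤ) : ℝ) * θ)‖) :
    ∃ (q : ℕ) (c : ℤ), 1 ≤ q ∧ (q : ℝ) ≤ 6 * R * Kc ∧ |θ - c / q| * (U * W) ≤ 6 * R ^ 2 * Kc := by
  classical
  have hR1 : 1 ≤ R := by
    rw [hR]
    nlinarith [one_le_pow₀ (n := 2) hKv]
  have hR0 : 0 < R := by linarith
  have hU0 : (0 : ℝ) < U := lt_of_lt_of_le (by positivity) hU
  have hn0 : (0 : ℝ) < S.card := by linarith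
  have hd0 : (0 : ℝ) < D.card := by
    by_contra hcon
    have : (D.card : ℝ) = 0 := le_antisymm (not_lt.1 hcon) (Nat.cast_nonneg _)
    rw [this, mul_zero] at hDc
    linarith
  obtain ⟨n, hn⟩ : ∃ n : ℝ, n = S.card := ⟨_, rfl⟩
  obtain ⟨d, hd⟩ : ∃ d : ℝ, d = D.card := ⟨_, rfl⟩
  rw [← hn] at hn0 hSc hSB hbig
  rw [← hd] at hd0 hDc hbig
  have hW1 : 1 ≤ W := by
    by_contra hcon
    have hW0 : W = 0 := by omega
    rw [hW0] at hS
    have : S.card = 0 := by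
      have := card_le_card hS
      rw [Int.card_Ioc] at this
      have e : (w0 + ((0 : ℕ) : ℤ) - w0).toNat = 0 := by omega
      omega
    rw [this] at hn
    rw [hn] at hn0
    simp at hn0
  have hW0 : (0 : ℝ) < W := by exact_mod_cast hW1
  have hb := bilin D S u0 U hD a b θ
  obtain ⟨g, hg⟩ : ∃ g : ℤ × ℤ → ℝ, g = fun z => ‖∑ u ∈ Ioc u0 (u0 + U), ee ((u : ℝ) * (((z.1 - z.2 : ℤ) : ℝ) * θ))‖ := ⟨_, rfl⟩
  have hb' : ‖∑ ω ∈ D ×ˢ S, ee (((a ω.1 + b ω.2 + ω.1 * ω.2 : ℤ) : ℝ) * θ)‖ ^ 2 ≤ d * ∑ z ∈ S ×ˢ S, g z := by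
    rw [hd, hg]; exact hb
  have hb2 : (d * n / Kv) ^ 2 < d * ∑ z ∈ S ×ˢ S, g z :=
    lt_of_lt_of_le (pow_lt_pow_left₀ hbig (by positivity) (by norm_num)) hb'
  have hb3 : d * n ^ 2 / Kv ^ 2 < ∑ z ∈ S ×ˢ S, g z := by
    have e1 : (d * n / Kv) ^ 2 = d * (d * n ^ 2 / Kv ^ 2) := by ring
    rw [e1] at hb2
    exact lt_of_mul_lt_mul_left hb2 hd0.le
  obtain ⟨δ, hδ⟩ : ∃ δ : ℝ, δ = R / U := ⟨_, rfl⟩
  have hδ0 : 0 < δ := by rw [hδ]; positivity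
  obtain ⟨P, hP⟩ : ∃ P, P = (S ×ˢ S).filter (fun z => |((z.1 - z.2 : ℤ) : ℝ) * θ - round (((z.1 - z.2 : ℤ) : ℝ) * θ)| ≤ δ) := ⟨_, rfl⟩
  have hsum : ∑ z ∈ S ×ˢ S, g z ≤ U * P.card + n ^ 2 * (1 / (2 * δ)) := by
    have e1 : ∀ z ∈ S ×ˢ S, g z ≤ (if z ∈ P then (U : ℝ) else 0) + 1 / (2 * δ) := by
      intro z hz
      obtain ⟨g1, g2⟩ := geo_int u0 U (((z.1 - z.2 : ℤ) : ℝ) * θ)
      have hgz : g z = ‖∑ u ∈ Ioc u0 (u0 + U), ee ((u : ℝ) * (((z.1 - z.2 : ℤ) : ℝ) * θ))‖ := by rw [hg]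
      rw [← hgz] at g1 g2
      split_ifs with hc
      · have : (0 : ℝ) ≤ 1 / (2 * δ) := by positivity
        linarith
      · rw [zero_add]
        have h1 : δ < |((z.1 - z.2 : ℤ) : ℝ) * θ - round (((z.1 - z.2 : ℤ) : ℝ) * θ)| := by
          by_contra hcon
          exact hc (by rw [hP, mem_filter]; exact ⟨hz, not_lt.1 hcon⟩)
        have h2 := dd_round (((z.1 - z.2 : ℤ) : ℝ) * θ)
        have h3 : 4 * δ ≤ dd (((z.1 - z.2 : ℤ) : ℝ) * θ) := by linarith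
        have h4 : 0 ≤ g z := by rw [hgz]; exact norm_nonneg _
        rw [le_div_iff₀ (by positivity)]
        nlinarith [mul_le_mul_of_nonneg_right h3 h4]
    refine (sum_le_sum e1).trans ?_
    rw [sum_add_distrib, sum_const, card_product, nsmul_eq_mul]
    apply add_le_add
    · rw [← sum_filter, sum_const, nsmul_eq_mul, mul_comm]
      apply mul_le_mul_of_nonneg_left _ hU0.le
      have : ((S ×ˢ S).filter (fun z => z ∈ P)).card ≤ P.card := by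
        apply card_le_card
        intro z hz
        exact (mem_filter.1 hz).2
      exact_mod_cast this
    · rw [hn]
      push_cast
      apply le_of_eq
      ring
  -- many pairs
  have hPbig : n ^ 2 / (2 * R) < P.card := by
    have e1 : 1 / (2 * δ) = U / (2 * R) := by rw [hδ]; field_simp
    rw [e1] at hsum
    have e2 : (U : ℝ) / (2 * R) ≤ d / (2 * Kv ^ 2) := by
      rw [hR, div_le_div_iff₀ (by positivity) (by positivity)]
      calc (U : ℝ) * (2 * Kv ^ 2) ≤ (Ka * d) * (2 * Kv ^ 2) := mul_le_mul_of_nonneg_right hDc (by positivity)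
        _ = _ := by ring
    have e3 : n ^ 2 * (U / (2 * R)) ≤ n ^ 2 * (d / (2 * Kv ^ 2)) := mul_le_mul_of_nonneg_left e2 (by positivity)
    have e4 : n ^ 2 * (d / (2 * Kv ^ 2)) < U * P.card := by
      have : d * n ^ 2 / Kv ^ 2 = n ^ 2 * (d / (2 * Kv ^ 2)) + n ^ 2 * (d / (2 * Kv ^ 2)) := by field_simp; ring
      linarith
    have e5 : n ^ 2 * (U / (2 * R)) < U * P.card := lt_of_le_of_lt e3 e4
    have e6 : n ^ 2 * (U / (2 * R)) = U * (n ^ 2 / (2 * R)) := by ring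
    rw [e6] at e5
    exact lt_of_mul_lt_mul_left e5 hU0.le
  obtain ⟨T, hT⟩ : ∃ T, T = (Icc 1 W).filter (fun h : ℕ => |(h : ℝ) * θ - round ((h : ℝ) * θ)| ≤ δ) := ⟨_, rfl⟩
  obtain ⟨G, hG⟩ : ∃ G : ℝ, G = T.card := ⟨_, rfl⟩
  have hPle : (P.card : ℝ) ≤ n * (2 * G + 1) := by
    obtain ⟨T', hT'⟩ : ∃ T' : Finset ℤ, T' = ({0} : Finset ℤ) ∪ (T.image (fun h : ℕ => (h : ℤ)) ∪ T.image (fun h : ℕ => -(h : ℤ))) := ⟨_, rfl⟩
    have hcT : T'.card ≤ 1 + (T.card + T.card) := by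
      rw [hT']
      refine (card_union_le _ _).trans ?_
      apply add_le_add (by rw [card_singleton])
      exact (card_union_le _ _).trans (add_le_add card_image_le card_image_le)
    have hcP : P.card ≤ (S ×ˢ T').card := by
      apply card_le_card_of_injOn (fun z => (z.1, z.1 - z.2))
      · intro z hz
        have hz' : z ∈ P := hz
        rw [hP, mem_filter, mem_product] at hz'
        obtain ⟨⟨h1, h2⟩, h3⟩ := hz'
        rw [mem_coe, mem_product]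
        refine ⟨h1, ?_⟩
        show z.1 - z.2 ∈ T'
        have g1 := mem_Ioc.1 (hS h1)
        have g2 := mem_Ioc.1 (hS h2)
        rw [hT', mem_union, mem_union, mem_singleton, mem_image, mem_image]
        by_cases h0 : z.1 - z.2 = 0
        · left; exact h0
        · right
          have hmem : (z.1 - z.2).natAbs ∈ T := by
            rw [hT, mem_filter, mem_Icc]
            refine ⟨⟨Int.natAbs_pos.2 h0, by omega⟩, ?_⟩
            rw [rd_natAbs]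
            exact h3
          rcases Int.natAbs_eq (z.1 - z.2) with h | h
          · left; exact ⟨_, hmem, h.symm⟩
          · right; exact ⟨_, hmem, h.symm⟩
      · intro z _ z' _ heq
        simp only [Prod.mk.injEq] at heq
        obtain ⟨e1, e2⟩ := heq
        apply Prod.ext e1
        linarith
    rw [card_product] at hcP
    have e1 : (P.card : ℝ) ≤ S.card * T'.card := by exact_mod_cast hcP
    have e2 : (T'.card : ℝ) ≤ 1 + (T.card + T.card) := by exact_mod_cast hcT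
    rw [← hn] at e1
    rw [← hG] at e2
    refine e1.trans (mul_le_mul_of_nonneg_left ?_ hn0.le)
    linarith
  have hG1 : n / (2 * R) < 2 * G + 1 := by
    have e1 : n * (n / (2 * R)) < n * (2 * G + 1) := by
      calc n * (n / (2 * R)) = n ^ 2 / (2 * R) := by ring
        _ < P.card := hPbig
        _ ≤ _ := hPle
    exact lt_of_mul_lt_mul_left e1 hn0.le
  have hn2 : 2 ≤ n / (2 * R) := by
    rw [le_div_iff₀ (by positivity)]
    linarith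
  have hGge : 1 ≤ G := by
    have e1 : (0 : ℝ) < G := by linarith
    rw [hG] at e1 ⊢
    have : 0 < T.card := by exact_mod_cast e1
    exact_mod_cast this
  have hnG : n < 6 * R * G := by
    have e1 : n / (2 * R) < 3 * G := by linarith
    rw [div_lt_iff₀ (by positivity)] at e1
    linarith
  have hWG : (W : ℝ) < 6 * R * Kc * G := by
    have : Kc * n < Kc * (6 * R * G) := mul_lt_mul_of_pos_left hnG (by linarith)
    linarith
  obtain ⟨q, c, hq1, hq2, hq3⟩ := near θ δ W hW1 T (by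
      intro h hh
      rw [hT, mem_filter, mem_Icc] at hh
      exact ⟨hh.1.1, hh.1.2, hh.2⟩) (by
      rw [← hG, hδ]
      have e1 : 20 * (R / U) * W < 20 * (R / U) * (6 * R * Kc * G) := mul_lt_mul_of_pos_left hWG (by positivity)
      have e2 : 20 * (R / U) * (6 * R * Kc * G) = (120 * R ^ 2 * Kc) / U * G := by ring
      have e3 : (120 * R ^ 2 * Kc) / U ≤ 1 := by rw [div_le_one hU0]; exact hU
      have e4 : (120 * R ^ 2 * Kc) / U * G ≤ 1 * G := mul_le_mul_of_nonneg_right e3 (by linarith)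
      linarith) hδ0.le
  have hG0 : 0 < G := by linarith
  refine ⟨q, c, hq1, ?_, ?_⟩
  · have e1 : (q : ℝ) * G ≤ W := by rw [hG]; exact_mod_cast hq2
    have e2 : (q : ℝ) * G < (6 * R * Kc) * G := by linarith
    exact (lt_of_mul_lt_mul_right e2 hG0.le).le
  · rw [← hG, hδ, le_div_iff₀ hU0] at hq3
    have e1 : |θ - c / q| * (U * W) ≤ |θ - c / q| * (U * (6 * R * Kc * G)) :=
      mul_le_mul_of_nonneg_left (mul_le_mul_of_nonneg_left hWG.le hU0.le) (abs_nonneg _)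
    refine e1.trans ?_
    calc |θ - c / q| * (U * (6 * R * Kc * G)) = (|θ - c / q| * G * U) * (6 * R * Kc) := by ring
      _ ≤ R * (6 * R * Kc) := mul_le_mul_of_nonneg_right hq3 (by positivity)
      _ = _ := by ring

/-- **The law.** The random integer `a u + b w + u w` has a thin large spectrum. -/
theorem kp_tlaw (A C V : ℕ) : ∃ c K₀ : ℕ, ∀ K : ℕ, K₀ ≤ K → ∀ (D S : Finset ℤ) (u0 w0 : ℤ) (U W : ℕ),
    D ⊆ Ioc u0 (u0 + U) → S ⊆ Ioc w0 (w0 + W) → (U : ℝ) ≤ (K : ℝ) ^ A * D.card → (W : ℝ) ≤ (K : ℝ) ^ C * S.card →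
    (K : ℝ) ^ (2 * V + A + 1) ≤ S.card → (K : ℝ) ^ (4 * V + 2 * A + C + 1) ≤ U → (2 : ℝ) ^ K ≤ (K : ℝ) ^ C * (U * W) →
    ∀ a b : ℤ → ℤ, TLaw 2 3 c V K (D ×ˢ S) (fun _ => 1 / ((D.card : ℝ) * S.card)) (fun ω => a ω.1 + b ω.2 + ω.1 * ω.2) := by
  obtain ⟨m, hm⟩ : ∃ m, m = 4 * V + 2 * A + 2 * C + 1 := ⟨_, rfl⟩
  obtain ⟨k1, hk1⟩ := pow_two_ev' m
  refine ⟨3 * m + 1, k1 + 120, fun K hK D S u0 w0 U W hD hS hDc hSc hSB hU hUW a b => ?_⟩
  have hK120 : (120 : ℝ) ≤ K := by exact_mod_cast (by omega : 120 ≤ K)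
  have hK0 : (0 : ℝ) < K := by linarith
  have hK1 : (1 : ℝ) ≤ K := by linarith
  have hpow : ∀ j : ℕ, (1 : ℝ) ≤ (K : ℝ) ^ j := fun j => one_le_pow₀ hK1
  obtain ⟨R, hR⟩ : ∃ R : ℝ, R = ((K : ℝ) ^ V) ^ 2 * (K : ℝ) ^ A := ⟨_, rfl⟩
  have hR' : R = (K : ℝ) ^ (2 * V + A) := by rw [hR]; ring
  have hR1 : 1 ≤ R := by rw [hR']; exact hpow _
  have hn4 : 4 * R ≤ S.card := by
    refine le_trans ?_ hSB
    rw [hR', pow_succ]
    have := hpow (2 * V + A)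
    nlinarith
  have hU' : 120 * R ^ 2 * (K : ℝ) ^ C ≤ U := by
    refine le_trans ?_ hU
    rw [hR']
    have : (K : ℝ) ^ (4 * V + 2 * A + C + 1) = K * (((K : ℝ) ^ (2 * V + A)) ^ 2 * (K : ℝ) ^ C) := by ring
    rw [this, mul_assoc]
    exact mul_le_mul_of_nonneg_right hK120 (by positivity)
  have hU0 : (0 : ℝ) < U := lt_of_lt_of_le (by positivity) hU'
  have hn0 : (0 : ℝ) < S.card := by linarith
  have hd0 : (0 : ℝ) < D.card := by
    by_contra hcon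
    have : (D.card : ℝ) = 0 := le_antisymm (not_lt.1 hcon) (Nat.cast_nonneg _)
    rw [this, mul_zero] at hDc
    linarith
  refine ⟨fun _ _ => by positivity, ?_, ?_⟩
  · rw [sum_const, nsmul_eq_mul, card_product]
    push_cast
    apply le_of_eq
    field_simp
  obtain ⟨Q, hQ⟩ : ∃ Q, Q = K ^ m := ⟨_, rfl⟩
  have hQ1 : 1 ≤ Q := by rw [hQ]; exact Nat.pow_pos (by omega)
  have hQx : Q ≤ 2 ^ K := by rw [hQ]; exact hk1 K (by omega)
  have hQr : (Q : ℝ) = (K : ℝ) ^ m := by rw [hQ]; push_cast; rfl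
  have hsub : Spec 2 V K (D ×ˢ S) (fun _ => 1 / ((D.card : ℝ) * S.card)) (fun ω => a ω.1 + b ω.2 + ω.1 * ω.2) ⊆
      maj 1 (2 ^ (K + 1)) (2 ^ K) Q := by
    intro t ht
    unfold Spec at ht
    rw [mem_filter] at ht
    obtain ⟨ht1, ht2⟩ := ht
    obtain ⟨θ, hθ⟩ : ∃ θ : ℝ, θ = (t : ℝ) / ((2 ^ (K + 1) : ℕ) : ℝ) := ⟨_, rfl⟩
    rw [← hθ, ← mul_sum, norm_mul, Complex.norm_real, Real.norm_of_nonneg (by positivity)] at ht2
    have hbig : (D.card : ℝ) * S.card / (K : ℝ) ^ V < ‖∑ ω ∈ D ×ˢ S, ee (((a ω.1 + b ω.2 + ω.1 * ω.2 : ℤ) : ℝ) * θ)‖ := by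
      have e1 : (D.card : ℝ) * S.card * (1 / (K : ℝ) ^ V) < (D.card : ℝ) * S.card * (1 / ((D.card : ℝ) * S.card) *
          ‖∑ ω ∈ D ×ˢ S, ee (((a ω.1 + b ω.2 + ω.1 * ω.2 : ℤ) : ℝ) * θ)‖) := mul_lt_mul_of_pos_left ht2 (by positivity)
      have e2 : (D.card : ℝ) * S.card * (1 / ((D.card : ℝ) * S.card) *
          ‖∑ ω ∈ D ×ˢ S, ee (((a ω.1 + b ω.2 + ω.1 * ω.2 : ℤ) : ℝ) * θ)‖) =
          ‖∑ ω ∈ D ×ˢ S, ee (((a ω.1 + b ω.2 + ω.1 * ω.2 : ℤ) : ℝ) * θ)‖ := by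
        rw [← mul_assoc, mul_one_div_cancel (by positivity), one_mul]
      rw [e2] at e1
      calc (D.card : ℝ) * S.card / (K : ℝ) ^ V = (D.card : ℝ) * S.card * (1 / (K : ℝ) ^ V) := by ring
        _ < _ := e1
    obtain ⟨q, c, hq1, hq2, hq3⟩ := char_near R ((K : ℝ) ^ V) ((K : ℝ) ^ A) ((K : ℝ) ^ C) hR (hpow _) (hpow _) (hpow _)
      D S u0 w0 U W hD hS hDc hSc hn4 hU' a b θ hbig
    rw [mem_maj]
    refine ⟨ht1, q, c, hq1, ?_, ?_⟩
    · have : (q : ℝ) ≤ Q := by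
        refine hq2.trans ?_
        rw [hQr, hm, hR']
        have e1 : (K : ℝ) ^ (4 * V + 2 * A + 2 * C + 1) = (K : ℝ) ^ (2 * V + A + C + 1) * ((K : ℝ) ^ (2 * V + A + C)) := by ring
        have e2 : (K : ℝ) ^ (2 * V + A + C + 1) = K * ((K : ℝ) ^ (2 * V + A) * (K : ℝ) ^ C) := by ring
        rw [e1, e2]
        have e3 := hpow (2 * V + A + C)
        have e4 : (0 : ℝ) ≤ (K : ℝ) ^ (2 * V + A) * (K : ℝ) ^ C := by positivity
        nlinarith [mul_nonneg e4 (by linarith : (0 : ℝ) ≤ (K : ℝ) ^ (2 * V + A + C) - 1), mul_nonneg (mul_nonneg hK0.le e4) (by linarith : (0 : ℝ) ≤ (K : ℝ) ^ (2 * V + A + C) - 1)]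
      exact_mod_cast this
    · rw [← hθ, Nat.cast_one, one_mul]
      push_cast
      have e1 : |θ - c / q| * (2 : ℝ) ^ K ≤ |θ - c / q| * ((K : ℝ) ^ C * (U * W)) := mul_le_mul_of_nonneg_left hUW (abs_nonneg _)
      refine e1.trans ?_
      have e2 : |θ - c / q| * ((K : ℝ) ^ C * (U * W)) = (K : ℝ) ^ C * (|θ - c / q| * (U * W)) := by ring
      rw [e2]
      have e3 : (K : ℝ) ^ C * (|θ - c / q| * (U * W)) ≤ (K : ℝ) ^ C * (6 * R ^ 2 * (K : ℝ) ^ C) := mul_le_mul_of_nonneg_left hq3 (by positivity)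
      refine e3.trans ?_
      rw [hQr, hm, hR']
      have e4 : (K : ℝ) ^ (4 * V + 2 * A + 2 * C + 1) = K * ((K : ℝ) ^ C * (((K : ℝ) ^ (2 * V + A)) ^ 2 * (K : ℝ) ^ C)) := by ring
      rw [e4]
      have e5 : (0 : ℝ) ≤ (K : ℝ) ^ C * (((K : ℝ) ^ (2 * V + A)) ^ 2 * (K : ℝ) ^ C) := by positivity
      nlinarith
  apply thin_card
  · intro t ht
    unfold Spec at ht
    rw [mem_filter, mem_range] at ht
    exact ht.1
  · have e1 := maj_card 1 (2 ^ (K + 1)) (2 ^ K) Q le_rfl (Nat.pow_pos (by norm_num)) hQ1 hQx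
    have e2 : (((maj 1 (2 ^ (K + 1)) (2 ^ K) Q).card : ℕ) : ℝ) ≤ ((K ^ (3 * m + 1) : ℕ) : ℝ) := by
      refine e1.trans ?_
      have e3 : 2 * (Q : ℝ) * ((2 ^ (K + 1) : ℕ) : ℝ) / ((2 ^ K : ℕ) : ℝ) = 4 * Q := by
        push_cast
        rw [pow_succ]
        field_simp
        ring
      rw [e3]
      have hQ1r : (1 : ℝ) ≤ Q := by exact_mod_cast hQ1
      push_cast
      have e4 : (K : ℝ) ^ (3 * m + 1) = (Q : ℝ) ^ 3 * K := by rw [hQr]; ring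
      rw [e4]
      have e5 : (Q : ℝ) * ((1 + 2) * Q + 1) * (4 * Q + 1) ≤ Q * (4 * Q) * (5 * Q) := by
        gcongr <;> linarith
      refine e5.trans ?_
      have e6 : (Q : ℝ) * (4 * Q) * (5 * Q) = Q ^ 3 * 20 := by ring
      rw [e6]
      apply mul_le_mul_of_nonneg_left (by linarith) (by positivity)
    exact (card_le_card hsub).trans (by exact_mod_cast e2)

end Pool.Agent.V5helper23.KP
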