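import Mathlib

set_option autoImplicit false

/-! Many multiples of a real number near integers: it is near a rational number with a small denominator. -/

namespace Pool.Agent.V5helper23.KP
open Finset

theorem near (θ δ : ℝ) (H : ℕ) (hH : 1 ≤ H) (T : Finset ℕ) (hT : ∀ h ∈ T, 1 ≤ h ∧ h ≤ H ∧ |(h : ℝ) * θ - round ((h : ℝ) * θ)| ≤ δ)
    (hδ : 20 * δ * H < T.card) (hδ0 : 0 ≤ δ) :
    ∃ (q : ℕ) (c : ℤ), 1 ≤ q ∧ q * T.card ≤ H ∧ |θ - c / q| * T.card ≤ δ := by
  classical
  obtain ⟨r, hr1, hr2⟩ := Real.exists_rat_abs_sub_le_and_den_le θ (n := 4 * H) (by omega)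
  have hHr : (1 : ℝ) ≤ H := by exact_mod_cast hH
  have hHr0 : (0 : ℝ) < H := by linarith
  obtain ⟨q, hq⟩ : ∃ q, q = r.den := ⟨_, rfl⟩
  obtain ⟨a, ha⟩ : ∃ a, a = r.num := ⟨_, rfl⟩
  have hqpos : 0 < q := by rw [hq]; exact r.pos
  have hq0 : (0 : ℝ) < q := by exact_mod_cast hqpos
  have hq1 : (1 : ℝ) ≤ q := by exact_mod_cast hqpos
  have hraq : (r : ℝ) = (a : ℝ) / (q : ℝ) := by
    rw [ha, hq]
    exact_mod_cast (Rat.num_div_den r).symm
  have hcop : IsCoprime a (q : ℤ) := by
    rw [ha, hq, Int.isCoprime_iff_gcd_eq_one]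
    exact r.reduced
  rw [hraq, ← hq] at hr1
  rw [← hq] at hr2
  have hq4 : (q : ℝ) ≤ 4 * H := by exact_mod_cast hr2
  -- for `h ≤ H`
  have hdist : ∀ h : ℕ, h ≤ H → |(h : ℝ) * θ - (h : ℝ) * (a / q)| * q ≤ 1 / 4 := by
    intro h hh
    have hhr : (h : ℝ) ≤ H := by exact_mod_cast hh
    have h0 : (0 : ℝ) ≤ h := Nat.cast_nonneg h
    have e1 : |(h : ℝ) * θ - (h : ℝ) * (a / q)| = h * |θ - a / q| := by
      rw [← mul_sub, abs_mul, abs_of_nonneg h0]
    rw [e1]
    have e2 : (h : ℝ) * |θ - a / q| * q ≤ H * (1 / ((((4 * H : ℕ) : ℝ) + 1) * q)) * q := by gcongr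
    refine e2.trans ?_
    push_cast
    rw [show (H : ℝ) * (1 / ((4 * (H : ℝ) + 1) * q)) * q = H / (4 * H + 1) by field_simp]
    rw [div_le_div_iff₀ (by positivity) (by norm_num)]
    linarith
  -- the residues
  obtain ⟨m, hm⟩ : ∃ m : ℕ → ℤ, m = fun (h : ℕ) => (h : ℤ) * a - q * round ((h : ℝ) * θ) := ⟨_, rfl⟩
  have hmb : ∀ h ∈ T, |(m h : ℝ)| ≤ q * δ + 1 / 4 := by
    intro h hh
    obtain ⟨h1, h2, h3⟩ := hT h hh
    have e1 : (m h : ℝ) = q * ((h : ℝ) * θ - round ((h : ℝ) * θ)) - ((h : ℝ) * θ - (h : ℝ) * (a / q)) * q := by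
      rw [hm]
      push_cast
      field_simp
      ring
    rw [e1]
    refine (abs_sub _ _).trans ?_
    rw [abs_mul, abs_mul, abs_of_pos hq0]
    exact add_le_add (mul_le_mul_of_nonneg_left h3 hq0.le) (hdist h h2)
  have hTpos : (0 : ℝ) < T.card := lt_of_le_of_lt (by positivity) hδ
  have hTne : T.Nonempty := by
    rw [← card_pos]
    exact_mod_cast hTpos
  have hmain : q * δ + 1 / 4 < 1 := by
    by_contra hcon
    push Not at hcon
    obtain ⟨R, hR⟩ : ∃ R : ℤ, R = ⌊q * δ + 1 / 4⌋ := ⟨_, rfl⟩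
    have hR1 : 1 ≤ R := by
      rw [hR]
      exact Int.le_floor.2 (by exact_mod_cast hcon)
    have hR2 : (R : ℝ) ≤ q * δ + 1 / 4 := by rw [hR]; exact Int.floor_le _
    have hcard : T.card ≤ (Icc (-R) R ×ˢ range (H / q + 1)).card := by
      apply card_le_card_of_injOn (fun h => (m h, h / q))
      · intro h hh
        have hh' : h ∈ T := hh
        rw [mem_coe, mem_product, mem_Icc, mem_range]
        have e1 := hmb h hh'
        have e2 : |m h| ≤ R := by
          rw [hR]
          exact Int.le_floor.2 (by exact_mod_cast e1)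
        rw [abs_le] at e2
        refine ⟨⟨by linarith [e2.1], e2.2⟩, ?_⟩
        exact Nat.lt_succ_of_le (Nat.div_le_div_right (hT h hh').2.1)
      · intro h hh h' hh' heq
        simp only [Prod.mk.injEq] at heq
        obtain ⟨e1, e2⟩ := heq
        rw [hm] at e1
        simp only at e1
        have e3 : (q : ℤ) ∣ a * ((h : ℤ) - h') := by
          refine ⟨round ((h : ℝ) * θ) - round ((h' : ℝ) * θ), ?_⟩
          linear_combination e1
        have e4 : (q : ℤ) ∣ (h : ℤ) - h' := hcop.symm.dvd_of_dvd_mul_left e3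
        have e5 := Nat.div_add_mod h q
        have e6 := Nat.div_add_mod h' q
        have e7 := Nat.mod_lt h hqpos
        have e8 := Nat.mod_lt h' hqpos
        rw [← e2] at e6
        have e9 : |(h : ℤ) - h'| < q := by
          rw [abs_lt]
          constructor <;> omega
        have e10 := Int.eq_zero_of_abs_lt_dvd e4 e9
        omega
    rw [card_product, card_range, Int.card_Icc] at hcard
    have e1 : ((R + 1 - -R).toNat : ℝ) = 2 * R + 1 := by
      have : ((R + 1 - -R).toNat : ℤ) = 2 * R + 1 := by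
        rw [Int.toNat_of_nonneg (by omega)]
        ring
      exact_mod_cast this
    have e2 : (T.card : ℝ) ≤ (2 * R + 1) * (H / q + 1) := by
      have : (T.card : ℝ) ≤ ((R + 1 - -R).toNat : ℝ) * (((H / q + 1 : ℕ)) : ℝ) := by exact_mod_cast hcard
      rw [e1] at this
      refine this.trans ?_
      have hd : (((H / q : ℕ)) : ℝ) ≤ (H : ℝ) / q := Nat.cast_div_le
      have hRr : (1 : ℝ) ≤ R := by exact_mod_cast hR1
      push_cast
      gcongr
    have e3 : (2 * (R : ℝ) + 1) ≤ 4 * (q * δ) := by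
      have hRr : (1 : ℝ) ≤ R := by exact_mod_cast hR1
      nlinarith
    have e4 : (T.card : ℝ) ≤ 4 * (q * δ) * (H / q + 1) := e2.trans (mul_le_mul_of_nonneg_right e3 (by positivity))
    have e5 : 4 * (q * δ) * ((H : ℝ) / q + 1) = 4 * δ * H + 4 * q * δ := by field_simp
    rw [e5] at e4
    nlinarith
  have hm0 : ∀ h ∈ T, m h = 0 := by
    intro h hh
    have e1 := hmb h hh
    have e2 : |(m h : ℝ)| < 1 := lt_of_le_of_lt e1 hmain
    have e3 : |m h| < 1 := by exact_mod_cast e2
    exact Int.abs_lt_one_iff.1 e3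
  have hdvd : ∀ h ∈ T, q ∣ h := by
    intro h hh
    have e1 := hm0 h hh
    rw [hm] at e1
    simp only at e1
    have e3 : (q : ℤ) ∣ a * (h : ℤ) := ⟨round ((h : ℝ) * θ), by linear_combination e1⟩
    have e4 : (q : ℤ) ∣ (h : ℤ) := hcop.symm.dvd_of_dvd_mul_left e3
    exact_mod_cast e4
  refine ⟨q, a, hqpos, ?_, ?_⟩
  · have hcard : T.card ≤ H / q := by
      have : T.card ≤ (Icc 1 (H / q)).card := by
        apply card_le_card_of_injOn (fun h => h / q)
        · intro h hh
          have hh' : h ∈ T := hh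
          obtain ⟨h1, h2, _⟩ := hT h hh'
          rw [mem_coe, mem_Icc]
          obtain ⟨c, hc⟩ := hdvd h hh'
          refine ⟨?_, Nat.div_le_div_right h2⟩
          rw [hc]
          show 1 ≤ q * c / q
          rw [Nat.mul_div_cancel_left _ hqpos]
          rcases Nat.eq_zero_or_pos c with h0 | h0
          · rw [h0, mul_zero] at hc; omega
          · exact h0
        · intro h hh h' hh' heq
          obtain ⟨c, hc⟩ := hdvd h hh
          obtain ⟨c', hc'⟩ := hdvd h' hh'
          simp only at heq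
          rw [hc, hc', Nat.mul_div_cancel_left _ hqpos, Nat.mul_div_cancel_left _ hqpos] at heq
          rw [hc, hc', heq]
      rwa [Nat.card_Icc, Nat.add_sub_cancel] at this
    calc q * T.card ≤ q * (H / q) := Nat.mul_le_mul_left _ hcard
      _ ≤ H := Nat.mul_div_le H q
  · obtain ⟨h, hh, hmax⟩ : ∃ h ∈ T, T.card ≤ h := by
      refine ⟨T.max' hTne, T.max'_mem hTne, ?_⟩
      have : T ⊆ Icc 1 (T.max' hTne) := by
        intro h hh
        rw [mem_Icc]
        exact ⟨(hT h hh).1, T.le_max' h hh⟩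
      have := card_le_card this
      rwa [Nat.card_Icc, Nat.add_sub_cancel] at this
    obtain ⟨h1, h2, h3⟩ := hT h hh
    have e1 := hm0 h hh
    rw [hm] at e1
    simp only at e1
    have e2 : (round ((h : ℝ) * θ) : ℝ) = (h : ℝ) * (a / q) := by
      have : (h : ℝ) * a - q * (round ((h : ℝ) * θ) : ℝ) = 0 := by exact_mod_cast e1
      field_simp
      linarith
    rw [e2, ← mul_sub, abs_mul, Nat.abs_cast] at h3
    have hmaxr : (T.card : ℝ) ≤ h := by exact_mod_cast hmax
    calc |θ - a / q| * T.card ≤ |θ - a / q| * h := mul_le_mul_of_nonneg_left hmaxr (abs_nonneg _)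
      _ = h * |θ - a / q| := mul_comm _ _
      _ ≤ δ := h3

lemma rd_neg (u : ℝ) : |(-u) - round (-u)| = |u - round u| := by
  have h : ∀ v : ℝ, |(-v) - round (-v)| ≤ |v - round v| := by
    intro v
    refine (round_le (-v) (-round v)).trans (le_of_eq ?_)
    rw [← abs_neg]
    congr 1
    push_cast
    ring
  apply le_antisymm (h u)
  have := h (-u)
  rwa [neg_neg] at this

lemma rd_natAbs (z : ℤ) (θ : ℝ) : |((z.natAbs : ℕ) : ℝ) * θ - round (((z.natAbs : ℕ) : ℝ) * θ)| = |(z : ℝ) * θ - round ((z : ℝ) * θ)| := by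
  rcases Int.natAbs_eq z with h | h
  · have h1 : (z : ℝ) = ((z.natAbs : ℕ) : ℝ) := by
      have := congrArg (fun y : ℤ => (y : ℝ)) h
      simpa using this
    rw [← h1]
  · have h1 : (z : ℝ) = -((z.natAbs : ℕ) : ℝ) := by
      have := congrArg (fun y : ℤ => (y : ℝ)) h
      simpa using this
    rw [h1, neg_mul, rd_neg]

end Pool.Agent.V5helper23.KP
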