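import Pool.Agent.V5helper23.KP.Law
import Pool.Agent.H373R2.T7.BilE

set_option autoImplicit false

/-! The random integer `a i + b w + r i w`, where the differences `r i` have a thin large spectrum. -/

namespace Pool.Agent.V5helper23.KP
open Finset
open Pool.Agent.H807R2.Dav
open Pool.Agent.H373R2.T7
open Pool.Agent.Y885 (Thin TLaw Spec)
open Pool.Agent.N469.TL (thin_card pow_two_ev')

lemma pat_bilin {ι : Type} (D I : Finset ι) (S : Finset ℤ) (hD : D ⊆ I) (r a : ι → ℤ) (b : ℤ → ℤ) (θ : ℝ) :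
    ‖∑ ω ∈ D ×ˢ S, ee (((a ω.1 + b ω.2 + r ω.1 * ω.2 : ℤ) : ℝ) * θ)‖ ^ 2 ≤
      D.card * ∑ z ∈ S ×ˢ S, ‖∑ i ∈ I, ee ((r i : ℝ) * (((z.1 - z.2 : ℤ) : ℝ) * θ))‖ := by
  classical
  obtain ⟨g, hg⟩ : ∃ g : ι → ℂ, g = fun i => ∑ w ∈ S, ee ((b w : ℝ) * θ + (r i : ℝ) * ((w : ℝ) * θ)) := ⟨_, rfl⟩
  have h1 : ∑ ω ∈ D ×ˢ S, ee (((a ω.1 + b ω.2 + r ω.1 * ω.2 : ℤ) : ℝ) * θ) = ∑ i ∈ D, ee ((a i : ℝ) * θ) * g i := by
    rw [sum_product]
    apply sum_congr rfl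
    intro i _
    rw [hg]
    simp only
    rw [mul_sum]
    apply sum_congr rfl
    intro w _
    rw [← ee_add]
    congr 1
    push_cast
    ring
  have h2 : ‖∑ i ∈ D, ee ((a i : ℝ) * θ) * g i‖ ≤ ∑ i ∈ D, ‖g i‖ := by
    refine (norm_sum_le _ _).trans (le_of_eq ?_)
    apply sum_congr rfl
    intro i _
    rw [norm_mul, norm_ee, one_mul]
  have h3 : (∑ i ∈ D, ‖g i‖) ^ 2 ≤ D.card * ∑ i ∈ D, ‖g i‖ ^ 2 := sq_sum_le_card_mul_sum_sq
  have h4 : ∑ i ∈ D, ‖g i‖ ^ 2 ≤ ∑ i ∈ I, ‖g i‖ ^ 2 :=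
    sum_le_sum_of_subset_of_nonneg hD (fun _ _ _ => by positivity)
  have h5 : ((∑ i ∈ I, ‖g i‖ ^ 2 : ℝ) : ℂ) = ∑ z ∈ S ×ˢ S, ee ((b z.1 : ℝ) * θ - (b z.2 : ℝ) * θ) *
      ∑ i ∈ I, ee ((r i : ℝ) * (((z.1 - z.2 : ℤ) : ℝ) * θ)) := by
    push_cast
    have e1 : ∀ i, ((‖g i‖ : ℝ) : ℂ) ^ 2 = ∑ z ∈ S ×ˢ S, ee ((b z.1 : ℝ) * θ - (b z.2 : ℝ) * θ) *
        ee ((r i : ℝ) * (((z.1 - z.2 : ℤ) : ℝ) * θ)) := by
      intro i
      rw [← Complex.mul_conj', hg]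
      simp only
      rw [map_sum, sum_mul_sum, sum_product]
      apply sum_congr rfl
      intro w _
      apply sum_congr rfl
      intro w' _
      rw [Pool.Agent.N469.SM.conj_ee', ← ee_add, ← ee_add]
      congr 1
      push_cast
      ring
    rw [sum_congr rfl (fun i _ => e1 i), sum_comm]
    apply sum_congr rfl
    intro z _
    rw [mul_sum]
    apply sum_congr rfl
    intro i _
    push_cast
    rfl
  have h6 : ∑ i ∈ I, ‖g i‖ ^ 2 ≤ ∑ z ∈ S ×ˢ S, ‖∑ i ∈ I, ee ((r i : ℝ) * (((z.1 - z.2 : ℤ) : ℝ) * θ))‖ := by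
    have e1 : ∑ i ∈ I, ‖g i‖ ^ 2 = ‖((∑ i ∈ I, ‖g i‖ ^ 2 : ℝ) : ℂ)‖ := by
      rw [Complex.norm_real, Real.norm_of_nonneg (by positivity)]
    rw [e1, h5]
    refine (norm_sum_le _ _).trans (le_of_eq ?_)
    apply sum_congr rfl
    intro z _
    rw [norm_mul, norm_ee, one_mul]
  rw [h1]
  calc ‖∑ i ∈ D, ee ((a i : ℝ) * θ) * g i‖ ^ 2 ≤ (∑ i ∈ D, ‖g i‖) ^ 2 := pow_le_pow_left₀ (norm_nonneg _) h2 2
    _ ≤ D.card * ∑ i ∈ D, ‖g i‖ ^ 2 := h3
    _ ≤ _ := mul_le_mul_of_nonneg_left (h4.trans h6) (Nat.cast_nonneg _)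

lemma norm_neg_arg {ι : Type} (I : Finset ι) (r : ι → ℤ) (x : ℝ) :
    ‖∑ i ∈ I, ee ((r i : ℝ) * (-x))‖ = ‖∑ i ∈ I, ee ((r i : ℝ) * x)‖ := by
  have h1 : ∑ i ∈ I, ee ((r i : ℝ) * (-x)) = (starRingEnd ℂ) (∑ i ∈ I, ee ((r i : ℝ) * x)) := by
    rw [map_sum]
    apply sum_congr rfl
    intro i _
    rw [Pool.Agent.N469.SM.conj_ee']
    congr 1
    ring
  rw [h1, RCLike.norm_conj]

/-- **The law.** -/
theorem pat_tlaw (A C V c' : ℕ) : ∃ c K₀ : ℕ, ∀ K : ℕ, K₀ ≤ K → ∀ (ι : Type) (D I : Finset ι) (S : Finset ℤ) (r : ι → ℤ),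
    D ⊆ I → (I.card : ℝ) ≤ (K : ℝ) ^ A * D.card → (∀ w ∈ S, |w| ≤ (K : ℤ) ^ C) →
    (K : ℝ) ^ (2 * V + A + 1) ≤ S.card →
    (Spec 2 (2 * V + A + 1) K I (fun _ => 1 / (I.card : ℝ)) r).card ≤ K ^ c' →
    ∀ (a : ι → ℤ) (b : ℤ → ℤ), TLaw 2 3 c V K (D ×ˢ S) (fun _ => 1 / ((D.card : ℝ) * S.card))
      (fun ω => a ω.1 + b ω.2 + r ω.1 * ω.2) := by
  classical
  refine ⟨2 * C + c' + 1, 5, fun K hK ι D I S r hD hDc hS hSc hspec a b => ?_⟩
  have hK4 : (5 : ℝ) ≤ K := by exact_mod_cast hK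
  have hK0 : (0 : ℝ) < K := by linarith
  have hK1 : (1 : ℝ) ≤ K := by linarith
  have hpow : ∀ j : ℕ, (1 : ℝ) ≤ (K : ℝ) ^ j := fun j => one_le_pow₀ hK1
  have hn0 : (0 : ℝ) < S.card := lt_of_lt_of_le (by positivity) hSc
  obtain ⟨n, hn⟩ : ∃ n : ℝ, n = S.card := ⟨_, rfl⟩
  have hnn : 0 < n := by rw [hn]; exact hn0
  obtain ⟨d, hd⟩ : ∃ d : ℝ, d = D.card := ⟨_, rfl⟩
  obtain ⟨N, hN⟩ : ∃ N : ℝ, N = I.card := ⟨_, rfl⟩
  rcases Finset.eq_empty_or_nonempty D with hDe | hDne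
  · subst hDe
    refine ⟨fun _ _ => by positivity, by simp, ?_⟩
    have he : Spec 2 V K ((∅ : Finset ι) ×ˢ S) (fun _ => 1 / (((∅ : Finset ι).card : ℝ) * S.card)) (fun ω => a ω.1 + b ω.2 + r ω.1 * ω.2) = ∅ := by
      unfold Spec
      rw [filter_eq_empty_iff]
      intro t _
      rw [empty_product, sum_empty, norm_zero]
      have : (0 : ℝ) ≤ 1 / (K : ℝ) ^ V := by positivity
      linarith
    rw [he]
    apply thin_card
    · intro t ht; simp at ht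
    · simp
  have hd0 : 0 < d := by rw [hd]; exact_mod_cast card_pos.2 hDne
  have hN0 : 0 < N := by
    rw [hN]
    exact_mod_cast card_pos.2 (hDne.mono hD)
  refine ⟨fun _ _ => by positivity, ?_, ?_⟩
  · rw [sum_const, nsmul_eq_mul, card_product, ← hd, ← hn]
    push_cast
    rw [← hd, ← hn]
    apply le_of_eq
    rw [← hn] at hn0
    field_simp
  obtain ⟨V', hV'⟩ : ∃ V', V' = 2 * V + A + 1 := ⟨_, rfl⟩
  rw [← hV'] at hspec hSc
  obtain ⟨Z, hZ⟩ : ∃ Z, Z = Spec 2 V' K I (fun _ => 1 / (I.card : ℝ)) r := ⟨_, rfl⟩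
  rw [← hZ] at hspec
  obtain ⟨M, hM⟩ : ∃ M, M = 2 ^ (K + 1) := ⟨_, rfl⟩
  have hMpos : 0 < M := by rw [hM]; positivity
  obtain ⟨H, hH⟩ : ∃ H, H = 2 * K ^ C := ⟨_, rfl⟩
  -- the spectrum
  have hsub : Spec 2 V K (D ×ˢ S) (fun _ => 1 / ((D.card : ℝ) * S.card)) (fun ω => a ω.1 + b ω.2 + r ω.1 * ω.2) ⊆
      (Icc 1 H).biUnion (fun h => (range M).filter (fun t => (h * t) % M ∈ Z)) := by
    intro t ht
    unfold Spec at ht
    rw [mem_filter, mem_range, ← hM] at ht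
    obtain ⟨ht1, ht2⟩ := ht
    obtain ⟨θ, hθ⟩ : ∃ θ : ℝ, θ = (t : ℝ) / (M : ℝ) := ⟨_, rfl⟩
    rw [← hθ, ← mul_sum, norm_mul, Complex.norm_real, Real.norm_of_nonneg (by positivity), ← hd, ← hn] at ht2
    have hbig : d * n / (K : ℝ) ^ V < ‖∑ ω ∈ D ×ˢ S, ee (((a ω.1 + b ω.2 + r ω.1 * ω.2 : ℤ) : ℝ) * θ)‖ := by
      rw [← hn] at hn0
      have e1 : d * n * (1 / (K : ℝ) ^ V) < d * n * (1 / (d * n) *
          ‖∑ ω ∈ D ×ˢ S, ee (((a ω.1 + b ω.2 + r ω.1 * ω.2 : ℤ) : ℝ) * θ)‖) := mul_lt_mul_of_pos_left ht2 (by positivity)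
      have e2 : d * n * (1 / (d * n) *
          ‖∑ ω ∈ D ×ˢ S, ee (((a ω.1 + b ω.2 + r ω.1 * ω.2 : ℤ) : ℝ) * θ)‖) =
          ‖∑ ω ∈ D ×ˢ S, ee (((a ω.1 + b ω.2 + r ω.1 * ω.2 : ℤ) : ℝ) * θ)‖ := by
        rw [← mul_assoc, mul_one_div_cancel (by positivity), one_mul]
      rw [e2] at e1
      calc d * n / (K : ℝ) ^ V = d * n * (1 / (K : ℝ) ^ V) := by ring
        _ < _ := e1
    have hb := pat_bilin D I S hD r a b θ
    rw [← hd] at hb
    have hb2 : (d * n / (K : ℝ) ^ V) ^ 2 < d * ∑ z ∈ S ×ˢ S, ‖∑ i ∈ I, ee ((r i : ℝ) * (((z.1 - z.2 : ℤ) : ℝ) * θ))‖ :=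
      lt_of_lt_of_le (pow_lt_pow_left₀ hbig (by positivity) (by norm_num)) hb
    have hb3 : d * n ^ 2 / (K : ℝ) ^ (2 * V) < ∑ z ∈ S ×ˢ S, ‖∑ i ∈ I, ee ((r i : ℝ) * (((z.1 - z.2 : ℤ) : ℝ) * θ))‖ := by
      have e1 : (d * n / (K : ℝ) ^ V) ^ 2 = d * (d * n ^ 2 / (K : ℝ) ^ (2 * V)) := by
        rw [mul_comm 2 V, pow_mul]
        ring
      rw [e1] at hb2
      exact lt_of_mul_lt_mul_left hb2 hd0.le
    have hex : ∃ z ∈ S ×ˢ S, z.1 ≠ z.2 ∧ N / (K : ℝ) ^ V' < ‖∑ i ∈ I, ee ((r i : ℝ) * (((z.1 - z.2 : ℤ) : ℝ) * θ))‖ := by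
      by_contra hcon
      push Not at hcon
      have e1 : ∑ z ∈ S ×ˢ S, ‖∑ i ∈ I, ee ((r i : ℝ) * (((z.1 - z.2 : ℤ) : ℝ) * θ))‖ ≤
          ∑ z ∈ S ×ˢ S, ((if z.1 = z.2 then N else 0) + N / (K : ℝ) ^ V') := by
        apply sum_le_sum
        intro z hz
        split_ifs with h
        · have : ‖∑ i ∈ I, ee ((r i : ℝ) * (((z.1 - z.2 : ℤ) : ℝ) * θ))‖ ≤ N := by
            refine (norm_sum_le _ _).trans ?_
            simp only [norm_ee, sum_const, nsmul_eq_mul, mul_one]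
            rw [hN]
          have h2 : 0 ≤ N / (K : ℝ) ^ V' := by positivity
          linarith
        · rw [zero_add]
          exact hcon z hz h
      have e2 : ∑ z ∈ S ×ˢ S, ((if z.1 = z.2 then N else 0) + N / (K : ℝ) ^ V') = n * N + n ^ 2 * (N / (K : ℝ) ^ V') := by
        rw [sum_add_distrib, sum_const, card_product, nsmul_eq_mul]
        congr 1
        · rw [sum_product]
          simp only [sum_ite_eq, hn]
          rw [sum_congr rfl (fun x hx => if_pos hx), sum_const, nsmul_eq_mul]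
        · rw [hn]; push_cast; ring
      rw [e2] at e1
      have e3 : d * n ^ 2 / (K : ℝ) ^ (2 * V) < n * N + n ^ 2 * (N / (K : ℝ) ^ V') := lt_of_lt_of_le hb3 e1
      have e4 : n * N ≤ n ^ 2 * (N / (K : ℝ) ^ V') := by
        rw [← hn] at hSc
        have : n ^ 2 * (N / (K : ℝ) ^ V') = n * N * (n / (K : ℝ) ^ V') := by ring
        rw [this]
        apply le_mul_of_one_le_right (by rw [hn]; positivity)
        rw [le_div_iff₀ (by positivity), one_mul]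
        exact hSc
      have e5 : 2 * (n ^ 2 * (N / (K : ℝ) ^ V')) ≤ d * n ^ 2 / (K : ℝ) ^ (2 * V) := by
        rw [← hN, ← hd] at hDc
        have f1 : N / (K : ℝ) ^ V' ≤ (K : ℝ) ^ A * d / (K : ℝ) ^ V' := div_le_div_of_nonneg_right hDc (by positivity)
        have f2 : (K : ℝ) ^ A * d / (K : ℝ) ^ V' = d / (K : ℝ) ^ (2 * V) / K := by
          rw [hV']
          have : (K : ℝ) ^ (2 * V + A + 1) = (K : ℝ) ^ (2 * V) * (K : ℝ) ^ A * K := by ring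
          rw [this]
          field_simp
        rw [f2] at f1
        have f3 : 2 * (N / (K : ℝ) ^ V') ≤ d / (K : ℝ) ^ (2 * V) := by
          have f4 : d / (K : ℝ) ^ (2 * V) / K ≤ d / (K : ℝ) ^ (2 * V) / 2 := by
            apply div_le_div_of_nonneg_left (by positivity) (by norm_num) (by linarith)
          linarith
        calc 2 * (n ^ 2 * (N / (K : ℝ) ^ V')) = n ^ 2 * (2 * (N / (K : ℝ) ^ V')) := by ring
          _ ≤ n ^ 2 * (d / (K : ℝ) ^ (2 * V)) := mul_le_mul_of_nonneg_left f3 (by positivity)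
          _ = _ := by ring
      linarith
    obtain ⟨z, hz, hne, hbz⟩ := hex
    rw [mem_product] at hz
    obtain ⟨h, hh⟩ : ∃ h : ℕ, h = (z.1 - z.2).natAbs := ⟨_, rfl⟩
    have hF : ‖∑ i ∈ I, ee ((r i : ℝ) * ((h : ℝ) * θ))‖ = ‖∑ i ∈ I, ee ((r i : ℝ) * (((z.1 - z.2 : ℤ) : ℝ) * θ))‖ := by
      rcases Int.natAbs_eq (z.1 - z.2) with h1 | h1
      · have : ((z.1 - z.2 : ℤ) : ℝ) = h := by rw [h1, ← hh]; simp
        rw [this]
      · have : ((z.1 - z.2 : ℤ) : ℝ) = -(h : ℝ) := by rw [h1, ← hh]; simp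
        rw [this, neg_mul, norm_neg_arg]
    rw [mem_biUnion]
    refine ⟨h, ?_, ?_⟩
    · rw [mem_Icc]
      have g1 := hS z.1 hz.1
      have g2 := hS z.2 hz.2
      have g3 : |z.1 - z.2| ≤ 2 * (K : ℤ) ^ C := by
        refine (abs_sub _ _).trans ?_
        linarith
      refine ⟨by rw [hh]; exact Int.natAbs_pos.2 (sub_ne_zero.2 hne), ?_⟩
      have g4 : (h : ℤ) ≤ 2 * (K : ℤ) ^ C := by rw [hh]; simpa using g3
      rw [hH]
      exact_mod_cast g4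
    · rw [mem_filter, mem_range]
      refine ⟨ht1, ?_⟩
      rw [hZ]
      unfold Spec
      rw [mem_filter, mem_range, ← hM]
      refine ⟨Nat.mod_lt _ hMpos, ?_⟩
      rw [← Pool.Agent.Y885.char_mod M hMpos, ← mul_sum, norm_mul, Complex.norm_real, Real.norm_of_nonneg (by positivity)]
      have e1 : ∀ i, ee ((r i : ℝ) * (((h * t : ℕ) : ℝ) / (M : ℝ))) = ee ((r i : ℝ) * ((h : ℝ) * θ)) := by
        intro i
        rw [hθ]
        push_cast
        congr 2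
        ring
      rw [sum_congr rfl (fun i _ => e1 i), hF, ← hN]
      have e2 : N / (K : ℝ) ^ V' = N * (1 / (K : ℝ) ^ V') := by ring
      rw [e2] at hbz
      rw [one_div_mul_eq_div, lt_div_iff₀ hN0, mul_comm]
      exact hbz
  apply thin_card
  · intro t ht
    unfold Spec at ht
    rw [mem_filter, mem_range] at ht
    exact ht.1
  · refine (card_le_card hsub).trans (card_biUnion_le.trans ?_)
    have e1 : ∀ h ∈ Icc 1 H, ((range M).filter (fun t => (h * t) % M ∈ Z)).card ≤ Z.card * H := by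
      intro h hh
      rw [mem_Icc] at hh
      have e2 : ((range M).filter (fun t => (h * t) % M ∈ Z)).card ≤ (Z ×ˢ range H).card := by
        apply card_le_card_of_injOn (fun t => ((h * t) % M, (h * t) / M))
        · intro t ht
          have ht' := mem_filter.1 (show t ∈ (range M).filter (fun t => (h * t) % M ∈ Z) from ht)
          rw [mem_coe, mem_product, mem_range]
          refine ⟨ht'.2, ?_⟩
          have h1 := mem_range.1 ht'.1
          show h * t / M < H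
          rw [Nat.div_lt_iff_lt_mul hMpos]
          calc h * t ≤ H * t := Nat.mul_le_mul_right _ hh.2
            _ < H * M := Nat.mul_lt_mul_of_pos_left h1 (by omega)
        · intro t _ t' _ heq
          simp only [Prod.mk.injEq] at heq
          obtain ⟨e3, e4⟩ := heq
          have e5 := Nat.div_add_mod (h * t) M
          have e6 := Nat.div_add_mod (h * t') M
          rw [e3, e4, e6] at e5
          exact (Nat.eq_of_mul_eq_mul_left (by omega) e5).symm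
      rwa [card_product, card_range] at e2
    refine (sum_le_sum e1).trans ?_
    rw [sum_const, Nat.card_Icc, Nat.add_sub_cancel, smul_eq_mul]
    calc H * (Z.card * H) ≤ H * (K ^ c' * H) := Nat.mul_le_mul_left _ (Nat.mul_le_mul_right _ hspec)
      _ = 4 * K ^ (2 * C + c') := by rw [hH]; ring
      _ ≤ K * K ^ (2 * C + c') := Nat.mul_le_mul_right _ (by omega)
      _ = K ^ (2 * C + c' + 1) := by ring

/-- a family of nearly minimal energy has a small large spectrum -/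
theorem energy_spec (p V C : ℕ) : ∃ c K₀ : ℕ, ∀ K : ℕ, K₀ ≤ K → ∀ (x : ℕ) (r : ℕ → ℤ), 1 ≤ x → (∀ m ∈ Icc 1 x, |r m| ≤ 2 ^ K) →
    (energy p x r : ℝ) * 2 ^ K ≤ (K : ℝ) ^ C * (x : ℝ) ^ (2 * p) →
    (Spec 2 V K (Icc 1 x) (fun _ => 1 / ((Icc 1 x).card : ℝ)) r).card ≤ K ^ c := by
  classical
  refine ⟨2 * p * V + C + 1, 2 ^ (p + 3), fun K hK x r hx hr hE => ?_⟩
  have hp2 : p + 3 < 2 ^ (p + 3) := Nat.lt_pow_self (by norm_num)
  have hK0 : (0 : ℝ) < K := by exact_mod_cast (by omega : 0 < K)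
  have hx0 : (0 : ℝ) < x := by exact_mod_cast hx
  obtain ⟨J, hJ⟩ : ∃ J, J = 2 ^ (p + 1) := ⟨_, rfl⟩
  have hJp : 2 * p < 2 * J := by
    have := Nat.lt_pow_self (n := p + 1) (show 1 < 2 by norm_num)
    omega
  have hJ0 : 0 < J := by rw [hJ]; positivity
  obtain ⟨M, hM⟩ : ∃ M, M = 2 ^ (K + 1) := ⟨_, rfl⟩
  have hM0 : 0 < M := by rw [hM]; positivity
  have hmom := moment_energy p x r (M * J) (2 ^ K) (Nat.mul_pos hM0 hJ0) (by
    intro m hm
    have := hr m hm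
    push_cast
    exact this) (by
    rw [hM, pow_succ]
    calc 2 * p * 2 ^ K < 2 * J * 2 ^ K := Nat.mul_lt_mul_of_pos_right hJp (by positivity)
      _ = _ := by ring)
  obtain ⟨Z, hZ⟩ : ∃ Z, Z = Spec 2 V K (Icc 1 x) (fun _ => 1 / ((Icc 1 x).card : ℝ)) r := ⟨_, rfl⟩
  rw [← hZ]
  have hcx : ((Icc 1 x).card : ℝ) = x := by rw [Nat.card_Icc, Nat.add_sub_cancel]
  have h1 : (Z.card : ℝ) * (x / (K : ℝ) ^ V) ^ (2 * p) ≤
      ∑ t ∈ range (M * J), ‖∑ m ∈ Icc 1 x, ee ((t : ℝ) * ((r m : ℝ) / ((M * J : ℕ) : ℝ)))‖ ^ (2 * p) := by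
    have e1 : Z.image (fun t => t * J) ⊆ range (M * J) := by
      intro t ht
      rw [mem_image] at ht
      obtain ⟨s, hs, rfl⟩ := ht
      rw [hZ] at hs
      unfold Spec at hs
      rw [mem_filter, mem_range, ← hM] at hs
      rw [mem_range]
      exact Nat.mul_lt_mul_of_pos_right hs.1 hJ0
    refine le_trans ?_ (sum_le_sum_of_subset_of_nonneg e1 (fun _ _ _ => by positivity))
    rw [sum_image (by
      intro a _ b _ hab
      exact Nat.eq_of_mul_eq_mul_right hJ0 hab)]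
    rw [← nsmul_eq_mul]
    apply card_nsmul_le_sum
    intro t ht
    rw [hZ] at ht
    unfold Spec at ht
    rw [mem_filter, ← hM] at ht
    obtain ⟨_, h2⟩ := ht
    rw [← mul_sum, norm_mul, Complex.norm_real, Real.norm_of_nonneg (by positivity), hcx] at h2
    apply pow_le_pow_left₀ (by positivity)
    have e2 : ∑ m ∈ Icc 1 x, ee (((t * J : ℕ) : ℝ) * ((r m : ℝ) / ((M * J : ℕ) : ℝ))) = ∑ m ∈ Icc 1 x, ee ((r m : ℝ) * ((t : ℝ) / (M : ℝ))) := by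
      apply sum_congr rfl
      intro m _
      congr 1
      have hMr : (0 : ℝ) < M := by exact_mod_cast hM0
      have hJr : (0 : ℝ) < J := by exact_mod_cast hJ0
      push_cast
      field_simp
    rw [e2]
    have e3 : x * (1 / (K : ℝ) ^ V) < x * (1 / x * ‖∑ m ∈ Icc 1 x, ee ((r m : ℝ) * ((t : ℝ) / (M : ℝ)))‖) := mul_lt_mul_of_pos_left h2 hx0
    have e4 : x * (1 / x * ‖∑ m ∈ Icc 1 x, ee ((r m : ℝ) * ((t : ℝ) / (M : ℝ)))‖) = ‖∑ m ∈ Icc 1 x, ee ((r m : ℝ) * ((t : ℝ) / (M : ℝ)))‖ := by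
      rw [← mul_assoc, mul_one_div_cancel hx0.ne', one_mul]
    rw [e4] at e3
    calc (x : ℝ) / (K : ℝ) ^ V = x * (1 / (K : ℝ) ^ V) := by ring
      _ ≤ _ := e3.le
  rw [hmom] at h1
  have h2 : (Z.card : ℝ) ≤ (K : ℝ) ^ (2 * p * V + C + 1) := by
    have e1 : (((M * J : ℕ) : ℝ)) * energy p x r ≤ (2 * J) * ((K : ℝ) ^ C * (x : ℝ) ^ (2 * p)) := by
      rw [hM]
      push_cast
      rw [pow_succ]
      calc (2 : ℝ) ^ K * 2 * J * (energy p x r) = (2 * J) * ((energy p x r : ℝ) * 2 ^ K) := by ring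
        _ ≤ _ := mul_le_mul_of_nonneg_left hE (by positivity)
    have e2 := h1.trans e1
    rw [div_pow, ← pow_mul] at e2
    have e3 : (Z.card : ℝ) * (x : ℝ) ^ (2 * p) ≤ (2 * J * (K : ℝ) ^ C * (K : ℝ) ^ (V * (2 * p))) * (x : ℝ) ^ (2 * p) := by
      have : (Z.card : ℝ) * ((x : ℝ) ^ (2 * p) / (K : ℝ) ^ (V * (2 * p))) = (Z.card : ℝ) * (x : ℝ) ^ (2 * p) / (K : ℝ) ^ (V * (2 * p)) := by ring
      rw [this, div_le_iff₀ (by positivity)] at e2
      refine e2.trans (le_of_eq ?_)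
      ring
    have e4 := le_of_mul_le_mul_right e3 (by positivity)
    refine e4.trans ?_
    have e5 : ((2 * J : ℕ) : ℝ) ≤ K := by
      have : 2 * J ≤ K := by
        rw [hJ]
        refine le_trans ?_ hK
        rw [show p + 3 = p + 1 + 1 + 1 by ring, pow_succ 2 (p + 1 + 1), pow_succ 2 (p + 1)]
        have : 0 < 2 ^ (p + 1) := by positivity
        omega
      exact_mod_cast this
    push_cast at e5
    have e6 : (K : ℝ) ^ (2 * p * V + C + 1) = K * ((K : ℝ) ^ C * (K : ℝ) ^ (V * (2 * p))) := by ring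
    rw [e6, mul_assoc (2 * (J : ℝ))]
    exact mul_le_mul_of_nonneg_right e5 (by positivity)
  exact_mod_cast h2

end Pool.Agent.V5helper23.KP
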