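import Pool.Agent.V5helper23.KP.Sq
import Pool.Agent.N469.PW.Few

set_option autoImplicit false

/-! Families of patterns, with an arbitrary parameter `K` in place of the logarithm: the random members of patterns have few
large Fourier coefficients. -/

namespace Pool.Agent.V5helper23.KP
open Finset
open Pool.Agent.H807R2.Dav
open Pool.Agent.H373R2.T7

/-- Differences from an interval: the differences `r 1, ..., r n` are `n ≥ K ^ B'` consecutive integers, and `S` is a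
set of at least `K ^ B` integers, which is contained in an interval with `W ≤ (#S) K ^ C` elements, where
`n W ≥ N / K ^ C`. -/
def LongP (K : ℝ) (B B' C N n : ℕ) (r : ℕ → ℤ) (S : Finset ℤ) : Prop :=
  ∃ (u₀ w₀ : ℤ) (W : ℕ), (∀ m : ℕ, r m = u₀ + m) ∧ S ⊆ Ioc w₀ (w₀ + W) ∧ (W : ℝ) ≤ K ^ C * S.card ∧
    K ^ B ≤ S.card ∧ K ^ B' ≤ n ∧ (N : ℝ) ≤ K ^ C * (n * W)

/-- Differences from a thin family: the differences `r 1, ..., r n` are arbitrary integers in `[-N, N]` with nearly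
minimal additive energy of order `p`, that is, the energy is at most `K ^ C * n ^ (2 * p) / N`, and `S` is a set of
at least `K ^ B` integers at a distance of at most `K ^ C` from some integer. -/
def ShortP (K : ℝ) (p B C N n : ℕ) (r : ℕ → ℤ) (S : Finset ℤ) : Prop :=
  (∀ m ∈ Icc 1 n, |r m| ≤ N) ∧ (energy p n r : ℝ) * N ≤ K ^ C * (n : ℝ) ^ (2 * p) ∧
    ∃ w₀ : ℤ, (∀ w ∈ S, |((w - w₀ : ℤ) : ℝ)| ≤ K ^ C) ∧ K ^ B ≤ S.card

lemma ee_lip (x y : ℝ) : ‖ee x - ee y‖ ≤ 7 * |x - y| := by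
  have h1 : ee x - ee y = ee y * (ee (x - y) - 1) := by
    rw [mul_sub, ← ee_add, mul_one]
    congr 2
    ring
  rw [h1, norm_mul, norm_ee, one_mul]
  have h2 : ee (x - y) = Complex.exp (Complex.I * ((2 * Real.pi * (x - y) : ℝ) : ℂ)) := by
    unfold ee
    congr 1
    push_cast
    ring
  rw [h2]
  refine (Real.norm_exp_I_mul_ofReal_sub_one_le).trans ?_
  rw [Real.norm_eq_abs, abs_mul, abs_of_pos (by positivity : 0 < 2 * Real.pi)]
  have := Real.pi_lt_d2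
  have h3 := abs_nonneg (x - y)
  nlinarith

lemma energy_smul (p x : ℕ) (s : ℕ → ℤ) (t : ℤ) (ht : t ≠ 0) : energy p x (fun m => t * s m) = energy p x s := by
  unfold energy
  congr 1
  apply filter_congr
  intro q _
  simp only [← mul_sum]
  constructor
  · intro h
    exact mul_left_cancel₀ ht h
  · intro h
    rw [h]

/-- few frequencies for a family of nearly minimal energy -/
lemma few_freq (p n N J T : ℕ) (r : ℕ → ℤ) (t : ℤ) (R : ℝ) (hR : 1 ≤ R) (hn : 1 ≤ n) (hN : 1 ≤ N) (ht0 : t ≠ 0)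
    (htT : |t| ≤ T) (hr : ∀ m ∈ Icc 1 n, |r m| ≤ N) (hJ : 28 * T * R + 2 * p * T < J) (F : Finset ℝ)
    (hF : ∀ α ∈ F, 0 ≤ α ∧ α < 1 ∧ n / (2 * R) < ‖∑ m ∈ Icc 1 n, ee ((r m : ℝ) * (t * α))‖)
    (hsep : ∀ a ∈ F, ∀ b ∈ F, a ≠ b → 1 / (N : ℝ) ≤ |a - b|) :
    (F.card : ℝ) * (n / (4 * R)) ^ (2 * p) ≤ (N * J) * energy p n r := by
  classical
  have hR0 : 0 < R := by linarith
  have hT0 : (0 : ℝ) ≤ T := Nat.cast_nonneg _
  have hNr : (1 : ℝ) ≤ N := by exact_mod_cast hN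
  have hn0 : (0 : ℝ) < n := by exact_mod_cast hn
  have hJ0 : (0 : ℝ) < J := lt_of_le_of_lt (by positivity) hJ
  have hJ1 : 1 ≤ J := by exact_mod_cast hJ0
  have hJr1 : (1 : ℝ) ≤ J := by exact_mod_cast hJ1
  obtain ⟨M, hM⟩ : ∃ M, M = N * J := ⟨_, rfl⟩
  have hM1 : 1 ≤ M := by rw [hM]; exact Nat.mul_pos hN hJ1
  have hM0 : (0 : ℝ) < M := by exact_mod_cast hM1
  have hMr : (M : ℝ) = N * J := by rw [hM]; push_cast; rfl
  have hTr : |(t : ℝ)| ≤ T := by exact_mod_cast htT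
  have hmom := moment_energy p n (fun m => t * r m) M (T * N) hM1 (by
    intro m hm
    rw [abs_mul]
    push_cast
    exact mul_le_mul htT (hr m hm) (abs_nonneg _) (by positivity)) (by
    have e1 : ((2 * p * T : ℕ) : ℝ) < J := by
      push_cast
      have : 0 ≤ 28 * T * R := by positivity
      linarith
    have e2 : 2 * p * T < J := by exact_mod_cast e1
    rw [hM]
    calc 2 * p * (T * N) = (2 * p * T) * N := by ring
      _ < J * N := Nat.mul_lt_mul_of_pos_right e2 (by omega)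
      _ = N * J := by ring)
  rw [energy_smul p n r t ht0] at hmom
  have hinj : Set.InjOn (fun a : ℝ => ⌊a * (M : ℝ)⌋₊) (F : Set ℝ) := by
    intro a ha b hb hab
    simp only at hab
    by_contra hne
    have h2 := hsep a ha b hb hne
    have e1 : (0 : ℝ) ≤ a * M := mul_nonneg (hF a ha).1 hM0.le
    have e2 : (0 : ℝ) ≤ b * M := mul_nonneg (hF b hb).1 hM0.le
    have a1 := Nat.floor_le e1
    have a2 := Nat.lt_floor_add_one (a * M)
    have b1 := Nat.floor_le e2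
    have b2 := Nat.lt_floor_add_one (b * M)
    rw [hab] at a1 a2
    have h3 : |a * M - b * M| < 1 := by
      rw [abs_lt]
      constructor <;> linarith
    rw [← sub_mul, abs_mul, abs_of_pos hM0] at h3
    rw [div_le_iff₀ (by linarith)] at h2
    have h4 : |a - b| * N ≤ |a - b| * M := by
      apply mul_le_mul_of_nonneg_left _ (abs_nonneg _)
      rw [hMr]
      exact le_mul_of_one_le_right (by linarith) hJr1
    linarith
  have himg : F.image (fun a : ℝ => ⌊a * (M : ℝ)⌋₊) ⊆ range M := by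
    intro g hg
    rw [mem_image] at hg
    obtain ⟨a, ha, rfl⟩ := hg
    rw [mem_range, Nat.floor_lt (mul_nonneg (hF a ha).1 hM0.le)]
    have := (hF a ha).2.1
    nlinarith
  have hlow : ∀ a ∈ F, n / (4 * R) ≤ ‖∑ m ∈ Icc 1 n, ee (((⌊a * (M : ℝ)⌋₊ : ℕ) : ℝ) * (((t * r m : ℤ) : ℝ) / M))‖ := by
    intro a ha
    obtain ⟨h0, h1, h2⟩ := hF a ha
    have e1 : (0 : ℝ) ≤ a * M := by positivity
    have a1 := Nat.floor_le e1
    have a2 := Nat.lt_floor_add_one (a * M)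
    have h3 : ‖∑ m ∈ Icc 1 n, ee ((r m : ℝ) * (t * a)) - ∑ m ∈ Icc 1 n, ee (((⌊a * (M : ℝ)⌋₊ : ℕ) : ℝ) * (((t * r m : ℤ) : ℝ) / M))‖ ≤
        n / (4 * R) := by
      rw [← sum_sub_distrib]
      refine (norm_sum_le _ _).trans ?_
      have h4 : ∀ m ∈ Icc 1 n, ‖ee ((r m : ℝ) * (t * a)) - ee (((⌊a * (M : ℝ)⌋₊ : ℕ) : ℝ) * (((t * r m : ℤ) : ℝ) / M))‖ ≤ 1 / (4 * R) := by
        intro m hm
        refine (ee_lip _ _).trans ?_
        have e2 : (r m : ℝ) * (t * a) - ((⌊a * (M : ℝ)⌋₊ : ℕ) : ℝ) * (((t * r m : ℤ) : ℝ) / M) =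
            (t : ℝ) * r m * (a - ((⌊a * (M : ℝ)⌋₊ : ℕ) : ℝ) / M) := by
          push_cast
          ring
        rw [e2, abs_mul, abs_mul]
        have e3 : |a - ((⌊a * (M : ℝ)⌋₊ : ℕ) : ℝ) / M| ≤ 1 / M := by
          rw [abs_of_nonneg]
          · rw [sub_le_iff_le_add, ← add_div, le_div_iff₀ hM0]
            linarith
          · rw [sub_nonneg, div_le_iff₀ hM0]
            exact a1
        have e4 : |(r m : ℝ)| ≤ N := by exact_mod_cast hr m hm
        calc 7 * (|(t : ℝ)| * |(r m : ℝ)| * |a - ((⌊a * (M : ℝ)⌋₊ : ℕ) : ℝ) / M|) ≤ 7 * (T * N * (1 / M)) := by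
              apply mul_le_mul_of_nonneg_left _ (by norm_num)
              apply mul_le_mul (mul_le_mul hTr e4 (abs_nonneg _) hT0) e3 (abs_nonneg _) (by positivity)
          _ = 7 * T / J := by
              rw [hMr]
              field_simp
          _ ≤ 1 / (4 * R) := by
              rw [div_le_div_iff₀ hJ0 (by positivity)]
              have : (0 : ℝ) ≤ 2 * p * T := by positivity
              linarith
      refine (sum_le_sum h4).trans ?_
      rw [sum_const, Nat.card_Icc, Nat.add_sub_cancel, nsmul_eq_mul]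
      apply le_of_eq
      ring
    have h5 := norm_sub_norm_le (∑ m ∈ Icc 1 n, ee ((r m : ℝ) * (t * a)))
      (∑ m ∈ Icc 1 n, ee (((⌊a * (M : ℝ)⌋₊ : ℕ) : ℝ) * (((t * r m : ℤ) : ℝ) / M)))
    have h6 : n / (2 * R) = n / (4 * R) + n / (4 * R) := by
      field_simp
      ring
    linarith
  rw [← hMr, ← hmom]
  calc (F.card : ℝ) * (n / (4 * R)) ^ (2 * p) = ∑ a ∈ F, (n / (4 * R)) ^ (2 * p) := by
        rw [sum_const, nsmul_eq_mul]
    _ ≤ ∑ a ∈ F, ‖∑ m ∈ Icc 1 n, ee (((⌊a * (M : ℝ)⌋₊ : ℕ) : ℝ) * (((t * r m : ℤ) : ℝ) / M))‖ ^ (2 * p) :=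
        sum_le_sum fun a ha => pow_le_pow_left₀ (by positivity) (hlow a ha) _
    _ = ∑ g ∈ F.image (fun a : ℝ => ⌊a * (M : ℝ)⌋₊), ‖∑ m ∈ Icc 1 n, ee ((g : ℝ) * (((t * r m : ℤ) : ℝ) / M))‖ ^ (2 * p) :=
        by rw [sum_image hinj]
    _ ≤ _ := sum_le_sum_of_subset_of_nonneg himg (fun _ _ _ => by positivity)

/-- the sum over the random members of the patterns is large: so is the sum over the pairs of multipliers -/
lemma big_QQ (K : ℝ) (hK : 1 ≤ K) (V n : ℕ) (hn : 1 ≤ n) (r a : ℕ → ℤ) (b : ℤ → ℤ) (S : Finset ℤ) (D : Finset ℕ) (hD : D ⊆ Icc 1 n)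
    (hDn : (n : ℝ) ≤ K * D.card) (hS : 0 < S.card) (θ : ℝ)
    (hbig : (D.card : ℝ) * S.card / K ^ V < ‖∑ ω ∈ D ×ˢ S, ee (((a ω.1 + b ω.2 + r ω.1 * ω.2 : ℤ) : ℝ) * θ)‖) :
    (n : ℝ) * (S.card : ℝ) ^ 2 / K ^ (2 * V + 1) < QQ (Icc 1 n) r S θ := by
  classical
  have hK0 : 0 < K := by linarith
  have hn0 : (0 : ℝ) < n := by exact_mod_cast hn
  have hD0 : (0 : ℝ) < D.card := by
    by_contra hcon
    have : (D.card : ℝ) = 0 := le_antisymm (not_lt.1 hcon) (Nat.cast_nonneg _)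
    rw [this, mul_zero] at hDn
    linarith
  have hS0 : (0 : ℝ) < S.card := by exact_mod_cast hS
  have h1 := pat_bilin D (Icc 1 n) S hD r a b θ
  have h2 : ((D.card : ℝ) * S.card / K ^ V) ^ 2 < D.card * QQ (Icc 1 n) r S θ :=
    lt_of_lt_of_le (pow_lt_pow_left₀ hbig (by positivity) (by norm_num)) h1
  have h3 : ((D.card : ℝ) * S.card / K ^ V) ^ 2 = D.card * (D.card * (S.card : ℝ) ^ 2 / K ^ (2 * V)) := by
    rw [div_pow, ← pow_mul, mul_comm V 2]
    ring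
  rw [h3] at h2
  have h4 := lt_of_mul_lt_mul_left h2 hD0.le
  refine lt_of_le_of_lt ?_ h4
  rw [div_le_div_iff₀ (by positivity) (by positivity)]
  calc (n : ℝ) * (S.card : ℝ) ^ 2 * K ^ (2 * V) ≤ (K * D.card) * (S.card : ℝ) ^ 2 * K ^ (2 * V) := by gcongr
    _ = _ := by ring

/-- differences from an interval: few frequencies -/
theorem few_long (V C : ℕ) (K : ℝ) (hK : 120 ≤ K) (N n : ℕ) (r a : ℕ → ℤ) (b : ℤ → ℤ) (S : Finset ℤ)
    (hfam : LongP K (2 * V + 2) (4 * V + C + 3) C N n r S) (hKN : K ^ (4 * V + 2 * C + 4) ≤ N)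
    (D : Finset ℕ) (hD : D ⊆ Icc 1 n) (hDn : (n : ℝ) ≤ K * D.card) (F : Finset ℝ)
    (hF : ∀ α ∈ F, 0 ≤ α ∧ α < 1 ∧
      (D.card : ℝ) * S.card / K ^ V < ‖∑ ω ∈ D ×ˢ S, ee (((a ω.1 + b ω.2 + r ω.1 * ω.2 : ℤ) : ℝ) * α)‖)
    (hsep : ∀ x ∈ F, ∀ y ∈ F, x ≠ y → 1 / (N : ℝ) ≤ |x - y|) : (F.card : ℝ) ≤ K ^ (12 * V + 4 * C + 14) := by
  classical
  obtain ⟨u0, w0, W, hr, hS, hSc, hSB, hnB, hNW⟩ := hfam
  have hK0 : 0 < K := by linarith
  have hK1 : 1 ≤ K := by linarith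
  have hpow : ∀ j : ℕ, (1 : ℝ) ≤ K ^ j := fun j => one_le_pow₀ hK1
  have hn0 : (0 : ℝ) < n := lt_of_lt_of_le (by positivity) hnB
  have hn1 : 1 ≤ n := by exact_mod_cast hn0
  have hS0 : (0 : ℝ) < S.card := lt_of_lt_of_le (by positivity) hSB
  have hS1 : 0 < S.card := by exact_mod_cast hS0
  have hN0 : (0 : ℝ) < N := lt_of_lt_of_le (by positivity) hKN
  have hN1 : 1 ≤ N := by exact_mod_cast hN0
  obtain ⟨R, hR⟩ : ∃ R, R = K ^ (2 * V + 1) := ⟨_, rfl⟩
  have hR1 : 1 ≤ R := by rw [hR]; exact hpow _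
  have hR2 : R ^ 2 = K ^ (4 * V + 2) := by rw [hR, ← pow_mul]; congr 1; ring
  obtain ⟨Q, hQ⟩ : ∃ Q : ℕ, Q = ⌈6 * R ^ 2 * K ^ C⌉₊ := ⟨_, rfl⟩
  have hQ1 : 6 * R ^ 2 * K ^ C ≤ Q := by rw [hQ]; exact Nat.le_ceil _
  have hQ2 : (Q : ℝ) + 1 ≤ K ^ (4 * V + C + 3) := by
    have e1 : (Q : ℝ) < 6 * R ^ 2 * K ^ C + 1 := by rw [hQ]; exact Nat.ceil_lt_add_one (by positivity)
    have e2 : K ^ (4 * V + C + 3) = K * (K ^ (4 * V + 2) * K ^ C) := by ring
    have e3 : 1 ≤ K ^ (4 * V + 2) * K ^ C := one_le_mul_of_one_le_of_one_le (hpow _) (hpow _)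
    rw [hR2] at e1
    rw [e2]
    nlinarith
  have hQ6 : 6 ≤ (Q : ℝ) := by
    refine le_trans ?_ hQ1
    rw [hR2]
    have e3 : 1 ≤ K ^ (4 * V + 2) * K ^ C := one_le_mul_of_one_le_of_one_le (hpow _) (hpow _)
    nlinarith
  have hQpos : 1 ≤ Q := by
    have : (0 : ℝ) < Q := by linarith
    exact_mod_cast this
  obtain ⟨x, hx⟩ : ∃ x, x = min N (n * W) := ⟨_, rfl⟩
  have hxN : x ≤ N := by rw [hx]; exact min_le_left _ _
  have hxnW : x ≤ n * W := by rw [hx]; exact min_le_right _ _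
  have hNx : (N : ℝ) ≤ K ^ C * x := by
    rw [hx]
    rcases le_total N (n * W) with h | h
    · rw [min_eq_left h]
      exact le_mul_of_one_le_left hN0.le (hpow _)
    · rw [min_eq_right h]
      push_cast
      exact hNW
  have hQx : Q + 1 ≤ x := by
    have e1 : ((Q + 1 : ℕ) : ℝ) ≤ x := by
      push_cast
      have e2 : K ^ (4 * V + 2 * C + 4) = K ^ C * (K * K ^ (4 * V + C + 3)) := by ring
      rw [e2] at hKN
      have e3 := le_of_mul_le_mul_left (hKN.trans hNx) (by positivity : 0 < K ^ C)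
      have e4 : K ^ (4 * V + C + 3) ≤ K * K ^ (4 * V + C + 3) := le_mul_of_one_le_left (by positivity) hK1
      linarith
    exact_mod_cast e1
  have hx0 : (0 : ℝ) < x := by
    have : 0 < x := by omega
    exact_mod_cast this
  have key := Pool.Agent.N469.PW.count_sep 1 N x Q le_rfl hN1 hxN hQpos hQx F (by
    intro α hα
    obtain ⟨h0, h1, h2⟩ := hF α hα
    refine ⟨h0, h1, ?_⟩
    have h3 := big_QQ K hK1 V n hn1 r a b S D hD hDn hS1 α h2
    have hQQ : QQ (Icc 1 n) r S α = QQ (Ioc u0 (u0 + (n : ℕ))) (fun u => u) S α := by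
      unfold QQ
      apply sum_congr rfl
      intro z _
      congr 1
      have him : Ioc u0 (u0 + (n : ℕ)) = (Icc 1 n).image (fun i : ℕ => u0 + (i : ℤ)) := by
        ext z
        rw [mem_Ioc, mem_image]
        constructor
        · intro ⟨h1, h2⟩
          refine ⟨(z - u0).toNat, ?_, ?_⟩
          · rw [mem_Icc]; omega
          · omega
        · rintro ⟨i, hi, rfl⟩
          rw [mem_Icc] at hi
          omega
      rw [him, sum_image (by intro i _ j _ h; simpa using h)]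
      apply sum_congr rfl
      intro i _
      rw [hr i]
    rw [hQQ, ← hR] at h3
    obtain ⟨q, c, q1, q2, q3⟩ := sum_near R (K ^ C) hR1 (hpow _) S u0 w0 n W hS hSc (by
      refine le_trans ?_ hSB
      have : K ^ (2 * V + 2) = K * R := by rw [hR]; ring
      rw [this]
      nlinarith) (by
      refine le_trans ?_ hnB
      have : K ^ (4 * V + C + 3) = K * (R ^ 2 * K ^ C) := by rw [hR2]; ring
      rw [this]
      have e3 : 0 ≤ R ^ 2 * K ^ C := by positivity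
      nlinarith) α h3
    refine ⟨q, c, q1, ?_, ?_⟩
    · have e1 : (q : ℝ) ≤ Q := by
        refine q2.trans (le_trans ?_ hQ1)
        have : R ≤ R ^ 2 := by nlinarith
        gcongr
      exact_mod_cast e1
    · rw [Nat.cast_one, one_mul]
      refine le_trans ?_ (q3.trans hQ1)
      apply mul_le_mul_of_nonneg_left _ (abs_nonneg _)
      exact_mod_cast hxnW) hsep
  refine key.trans ?_
  push_cast
  have g1 : (N : ℝ) / x ≤ K ^ C := by
    rw [div_le_iff₀ hx0]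
    exact hNx
  have g2 : (1 : ℝ) ≤ Q + 1 := by linarith
  have g3 : ((1 : ℝ) + 2) * (Q + 1) + 1 ≤ K * (Q + 1) := by nlinarith
  have g4 : 2 * ((Q : ℝ) + 1) * N / x + 1 ≤ (Q + 1) * (K * K ^ C) := by
    have e1 : 2 * ((Q : ℝ) + 1) * N / x = 2 * (Q + 1) * (N / x) := by ring
    rw [e1]
    have e2 : 2 * ((Q : ℝ) + 1) * (N / x) ≤ 2 * (Q + 1) * K ^ C := mul_le_mul_of_nonneg_left g1 (by positivity)
    have e3 : 1 ≤ (Q + 1) * K ^ C := one_le_mul_of_one_le_of_one_le g2 (hpow C)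
    have e4 : (Q + 1) * (K * K ^ C) = K * ((Q + 1) * K ^ C) := by ring
    have e5 : 3 * ((Q + 1) * K ^ C) ≤ K * ((Q + 1) * K ^ C) := mul_le_mul_of_nonneg_right (by linarith) (by positivity)
    have e6 : 2 * ((Q : ℝ) + 1) * K ^ C = 2 * ((Q + 1) * K ^ C) := by ring
    rw [e4]
    rw [e6] at e2
    linarith
  calc ((Q : ℝ) + 1) * ((1 + 2) * (Q + 1) + 1) * (2 * (Q + 1) * N / x + 1) ≤
      (Q + 1) * (K * (Q + 1)) * ((Q + 1) * (K * K ^ C)) := by
        apply mul_le_mul (mul_le_mul_of_nonneg_left g3 (by positivity)) g4 _ (by positivity)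
        have : (0 : ℝ) ≤ 2 * (Q + 1) * N / x := by positivity
        linarith
    _ = (Q + 1) ^ 3 * K ^ (C + 2) := by ring
    _ ≤ (K ^ (4 * V + C + 3)) ^ 3 * K ^ (C + 2) := by
        apply mul_le_mul_of_nonneg_right _ (by positivity)
        exact pow_le_pow_left₀ (by positivity) hQ2 3
    _ = K ^ (12 * V + 4 * C + 11) := by
        rw [← pow_mul, ← pow_add]
        congr 1
        ring
    _ ≤ _ := pow_le_pow_right₀ hK1 (by omega)

/-- thin families of differences: few frequencies -/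
theorem few_short (p V C : ℕ) (K : ℝ) (hK : 120 ≤ K) (hKp : p ≤ K) (N n : ℕ) (hN : 1 ≤ N) (hn : 1 ≤ n) (r a : ℕ → ℤ) (b : ℤ → ℤ)
    (S : Finset ℤ) (hfam : ShortP K p (2 * V + 2) C N n r S)
    (D : Finset ℕ) (hD : D ⊆ Icc 1 n) (hDn : (n : ℝ) ≤ K * D.card) (F : Finset ℝ)
    (hF : ∀ α ∈ F, 0 ≤ α ∧ α < 1 ∧
      (D.card : ℝ) * S.card / K ^ V < ‖∑ ω ∈ D ×ˢ S, ee (((a ω.1 + b ω.2 + r ω.1 * ω.2 : ℤ) : ℝ) * α)‖)
    (hsep : ∀ x ∈ F, ∀ y ∈ F, x ≠ y → 1 / (N : ℝ) ≤ |x - y|) : (F.card : ℝ) ≤ K ^ (4 * p * (V + 1) + 2 * V + 3 * C + 6) := by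
  classical
  obtain ⟨hr, hE, w0, hS, hSB⟩ := hfam
  have hK0 : 0 < K := by linarith
  have hK1 : 1 ≤ K := by linarith
  have hpow : ∀ j : ℕ, (1 : ℝ) ≤ K ^ j := fun j => one_le_pow₀ hK1
  have hn0 : (0 : ℝ) < n := by exact_mod_cast hn
  have hN0 : (0 : ℝ) < N := by exact_mod_cast hN
  have hS0 : (0 : ℝ) < S.card := lt_of_lt_of_le (by positivity) hSB
  have hS1 : 0 < S.card := by exact_mod_cast hS0
  obtain ⟨R, hR⟩ : ∃ R, R = K ^ (2 * V + 1) := ⟨_, rfl⟩
  have hR1 : 1 ≤ R := by rw [hR]; exact hpow _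
  have hR0 : 0 < R := by linarith
  obtain ⟨T, hT⟩ : ∃ T : ℕ, T = ⌊2 * K ^ C⌋₊ := ⟨_, rfl⟩
  have hT1 : (T : ℝ) ≤ 2 * K ^ C := by rw [hT]; exact Nat.floor_le (by positivity)
  obtain ⟨J, hJ⟩ : ∃ J : ℕ, J = ⌈K ^ (2 * V + C + 2)⌉₊ := ⟨_, rfl⟩
  have hJ1 : K ^ (2 * V + C + 2) ≤ J := by rw [hJ]; exact Nat.le_ceil _
  have hJ2 : (J : ℝ) ≤ K ^ (2 * V + C + 3) := by
    have e1 : (J : ℝ) < K ^ (2 * V + C + 2) + 1 := by rw [hJ]; exact Nat.ceil_lt_add_one (by positivity)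
    have e2 : K ^ (2 * V + C + 3) = K * K ^ (2 * V + C + 2) := by ring
    have e3 := hpow (2 * V + C + 2)
    rw [e2]
    nlinarith
  have hJ3 : 28 * T * R + 2 * p * T < J := by
    refine lt_of_lt_of_le ?_ hJ1
    have e1 : K ^ (2 * V + C + 2) = K * (R * K ^ C) := by rw [hR]; ring
    have e2 : K ≤ R := by
      rw [hR, pow_succ]
      exact le_mul_of_one_le_left hK0.le (hpow _)
    have e3 : (0 : ℝ) < R * K ^ C := by positivity
    rw [e1]
    calc 28 * (T : ℝ) * R + 2 * p * T ≤ 28 * (2 * K ^ C) * R + 2 * R * (2 * K ^ C) := by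
          have e4 : (p : ℝ) ≤ R := hKp.trans e2
          gcongr
      _ = 60 * (R * K ^ C) := by ring
      _ < K * (R * K ^ C) := by nlinarith
  -- one multiplier
  have hone : ∀ t ∈ Icc (-(T : ℤ)) T, ((F.filter (fun α => t ≠ 0 ∧ n / (2 * R) < ‖∑ m ∈ Icc 1 n, ee ((r m : ℝ) * (t * α))‖)).card : ℝ) ≤
      K ^ (4 * p * (V + 1) + 2 * V + 2 * C + 3) := by
    intro t ht
    rw [mem_Icc, ← abs_le] at ht
    by_cases ht0 : t = 0
    · have : F.filter (fun α => t ≠ 0 ∧ n / (2 * R) < ‖∑ m ∈ Icc 1 n, ee ((r m : ℝ) * (t * α))‖) = ∅ := by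
        apply filter_eq_empty_iff.2
        intro α _ h
        exact h.1 ht0
      rw [this, card_empty, Nat.cast_zero]
      positivity
    · obtain ⟨G, hG⟩ : ∃ G, G = F.filter (fun α => t ≠ 0 ∧ n / (2 * R) < ‖∑ m ∈ Icc 1 n, ee ((r m : ℝ) * (t * α))‖) := ⟨_, rfl⟩
      rw [← hG]
      have h1 := few_freq p n N J T r t R hR1 hn hN ht0 ht hr hJ3 G (by
        intro α hα
        rw [hG, mem_filter] at hα
        exact ⟨(hF α hα.1).1, (hF α hα.1).2.1, hα.2.2⟩) (by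
        intro x hx y hy hne
        rw [hG, mem_filter] at hx hy
        exact hsep x hx.1 y hy.1 hne)
      have h2 : (G.card : ℝ) * (n / (4 * R)) ^ (2 * p) ≤ J * (K ^ C * (n : ℝ) ^ (2 * p)) := by
        refine h1.trans ?_
        calc (N : ℝ) * J * energy p n r = J * (energy p n r * N) := by ring
          _ ≤ _ := mul_le_mul_of_nonneg_left hE (Nat.cast_nonneg _)
      rw [div_pow, mul_div_assoc', div_le_iff₀ (by positivity)] at h2
      have h3 : (G.card : ℝ) ≤ J * K ^ C * (4 * R) ^ (2 * p) := by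
        have e1 : (0 : ℝ) < (n : ℝ) ^ (2 * p) := by positivity
        have e2 : (G.card : ℝ) * (n : ℝ) ^ (2 * p) ≤ (J * K ^ C * (4 * R) ^ (2 * p)) * (n : ℝ) ^ (2 * p) := by
          refine h2.trans (le_of_eq ?_)
          ring
        exact le_of_mul_le_mul_right e2 e1
      have e4 : 4 * R ≤ K ^ (2 * V + 2) := by
        have : K ^ (2 * V + 2) = K * R := by rw [hR]; ring
        rw [this]
        nlinarith
      calc (G.card : ℝ) ≤ J * K ^ C * (4 * R) ^ (2 * p) := h3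
        _ ≤ K ^ (2 * V + C + 3) * K ^ C * (K ^ (2 * V + 2)) ^ (2 * p) := by gcongr
        _ = _ := by
            rw [← pow_mul, ← pow_add, ← pow_add]
            congr 1
            ring
  -- the union
  have hsub : F ⊆ (Icc (-(T : ℤ)) T).biUnion (fun t => F.filter (fun α => t ≠ 0 ∧ n / (2 * R) < ‖∑ m ∈ Icc 1 n, ee ((r m : ℝ) * (t * α))‖)) := by
    intro α hα
    have h3 := big_QQ K hK1 V n hn r a b S D hD hDn hS1 α (hF α hα).2.2
    rw [← hR] at h3
    have h4 : ∃ z ∈ S ×ˢ S, z.1 ≠ z.2 ∧ n / (2 * R) < ‖∑ i ∈ Icc 1 n, ee ((r i : ℝ) * (((z.1 - z.2 : ℤ) : ℝ) * α))‖ := by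
      by_contra hcon
      push Not at hcon
      have e1 : QQ (Icc 1 n) r S α ≤ ∑ z ∈ S ×ˢ S, ((if z.1 = z.2 then (n : ℝ) else 0) + n / (2 * R)) := by
        unfold QQ
        apply sum_le_sum
        intro z hz
        split_ifs with h
        · have e2 : ‖∑ i ∈ Icc 1 n, ee ((r i : ℝ) * (((z.1 - z.2 : ℤ) : ℝ) * α))‖ ≤ n := by
            refine (norm_sum_le _ _).trans (le_of_eq ?_)
            simp only [norm_ee, sum_const, Nat.card_Icc, Nat.add_sub_cancel, nsmul_eq_mul, mul_one]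
          have : 0 ≤ (n : ℝ) / (2 * R) := by positivity
          linarith
        · rw [zero_add]
          exact hcon z hz h
      rw [sum_add_distrib, sum_const, card_product, nsmul_eq_mul] at e1
      have e2 : ∑ z ∈ S ×ˢ S, (if z.1 = z.2 then (n : ℝ) else 0) = S.card * n := by
        rw [sum_product]
        simp only [sum_ite_eq]
        rw [sum_ite_mem, inter_self, sum_const, nsmul_eq_mul]
      rw [e2] at e1
      have e4 : 4 * R ≤ S.card := by
        refine le_trans ?_ hSB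
        have : K ^ (2 * V + 2) = K * R := by rw [hR]; ring
        rw [this]
        nlinarith
      have e5 : (S.card : ℝ) * n ≤ n * (S.card : ℝ) ^ 2 / (4 * R) := by
        rw [le_div_iff₀ (by positivity)]
        calc (S.card : ℝ) * n * (4 * R) ≤ (S.card : ℝ) * n * S.card := mul_le_mul_of_nonneg_left e4 (by positivity)
          _ = _ := by ring
      have e6 : ((S.card * S.card : ℕ) : ℝ) * (n / (2 * R)) = n * (S.card : ℝ) ^ 2 / (2 * R) := by
        push_cast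
        ring
      rw [e6] at e1
      have e7 : (n : ℝ) * (S.card : ℝ) ^ 2 / R = 4 * (n * (S.card : ℝ) ^ 2 / (4 * R)) := by
        field_simp
      have e8 : (n : ℝ) * (S.card : ℝ) ^ 2 / (2 * R) = 2 * (n * (S.card : ℝ) ^ 2 / (4 * R)) := by
        field_simp
        ring
      have e9 : 0 < (n : ℝ) * (S.card : ℝ) ^ 2 / (4 * R) := by positivity
      linarith
    obtain ⟨z, hz, hne, hbig⟩ := h4
    rw [mem_product] at hz
    rw [mem_biUnion]
    refine ⟨z.1 - z.2, ?_, ?_⟩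
    · have e1 := hS z.1 hz.1
      have e2 := hS z.2 hz.2
      have e3 : (((z.1 - z.2).natAbs : ℕ) : ℝ) ≤ 2 * K ^ C := by
        rw [Nat.cast_natAbs]
        push_cast at e1 e2 ⊢
        rw [abs_le] at e1 e2 ⊢
        constructor <;> linarith [e1.1, e1.2, e2.1, e2.2]
      have e4 : (z.1 - z.2).natAbs ≤ T := by rw [hT]; exact Nat.le_floor e3
      rw [mem_Icc]
      omega
    · rw [mem_filter]
      exact ⟨hα, sub_ne_zero.2 hne, hbig⟩
  have hcard : (F.card : ℝ) ≤ ∑ t ∈ Icc (-(T : ℤ)) T, ((F.filter (fun α => t ≠ 0 ∧ n / (2 * R) < ‖∑ m ∈ Icc 1 n, ee ((r m : ℝ) * (t * α))‖)).card : ℝ) := by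
    exact_mod_cast (card_le_card hsub).trans card_biUnion_le
  refine hcard.trans ((sum_le_card_nsmul _ _ _ hone).trans ?_)
  rw [Int.card_Icc, nsmul_eq_mul]
  have e1 : (((T : ℤ) + 1 - -(T : ℤ)).toNat : ℝ) ≤ K ^ (C + 1) := by
    have : ((T : ℤ) + 1 - -(T : ℤ)).toNat = 2 * T + 1 := by omega
    rw [this]
    push_cast
    have e3 : K ^ (C + 1) = K * K ^ C := by ring
    have e4 := hpow C
    rw [e3]
    nlinarith
  calc (((T : ℤ) + 1 - -(T : ℤ)).toNat : ℝ) * K ^ (4 * p * (V + 1) + 2 * V + 2 * C + 3) ≤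
      K ^ (C + 1) * K ^ (4 * p * (V + 1) + 2 * V + 2 * C + 3) := mul_le_mul_of_nonneg_right e1 (by positivity)
    _ = K ^ ((C + 1) + (4 * p * (V + 1) + 2 * V + 2 * C + 3)) := by rw [← pow_add]
    _ ≤ _ := pow_le_pow_right₀ hK1 (by omega)

end Pool.Agent.V5helper23.KP
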