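import Pool.Agent.V5helper23.KP.Fam

set_option autoImplicit false

/-! The differences of two members of a pattern have a thin large spectrum. -/

namespace Pool.Agent.V5helper23.KP
open Finset
open Pool.Agent.H807R2.Dav
open Pool.Agent.H373R2.T7
open Pool.Agent.Y885 (Thin TLaw Spec)
open Pool.Agent.N469.SQ (maj mem_maj maj_card)
open Pool.Agent.N469.TL (thin_card pow_two_ev')

/-- the sum over the pairs of multipliers -/
noncomputable def QQ {ι : Type} (I : Finset ι) (r : ι → ℤ) (S : Finset ℤ) (θ : ℝ) : ℝ :=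
  ∑ z ∈ S ×ˢ S, ‖∑ i ∈ I, ee ((r i : ℝ) * (((z.1 - z.2 : ℤ) : ℝ) * θ))‖

/-- it is large only near rational numbers with small denominators -/
theorem sum_near (R Kc : ℝ) (hR1 : 1 ≤ R) (hKc : 1 ≤ Kc)
    (S : Finset ℤ) (u0 w0 : ℤ) (U W : ℕ) (hS : S ⊆ Ioc w0 (w0 + W))
    (hSc : (W : ℝ) ≤ Kc * S.card) (hSB : 4 * R ≤ S.card) (hU : 120 * R ^ 2 * Kc ≤ U)
    (θ : ℝ) (hbig : (U : ℝ) * (S.card : ℝ) ^ 2 / R < QQ (Ioc u0 (u0 + U)) (fun u => u) S θ) :
    ∃ (q : ℕ) (c : ℤ), 1 ≤ q ∧ (q : ℝ) ≤ 6 * R * Kc ∧ |θ - c / q| * (U * W) ≤ 6 * R ^ 2 * Kc := by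
  classical
  have hR0 : 0 < R := by linarith
  have hU0 : (0 : ℝ) < U := lt_of_lt_of_le (by positivity) hU
  have hn0 : (0 : ℝ) < S.card := by linarith
  obtain ⟨n, hn⟩ : ∃ n : ℝ, n = S.card := ⟨_, rfl⟩
  rw [← hn] at hn0 hSc hSB hbig
  have hW1 : 1 ≤ W := by
    by_contra hcon
    have hW0 : W = 0 := by omega
    rw [hW0] at hS
    have : S.card = 0 := by
      have := card_le_card hS
      rw [Int.card_Ioc] at this
      have e : (w0 + ((0 : ℕ) : ℤ) - w0).toNat = 0 := by omega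
      omega
    rw [this] at hn
    rw [hn] at hn0
    simp at hn0
  have hW0 : (0 : ℝ) < W := by exact_mod_cast hW1
  obtain ⟨g, hg⟩ : ∃ g : ℤ × ℤ → ℝ, g = fun z => ‖∑ u ∈ Ioc u0 (u0 + U), ee ((u : ℝ) * (((z.1 - z.2 : ℤ) : ℝ) * θ))‖ := ⟨_, rfl⟩
  have hb3 : U * n ^ 2 / R < ∑ z ∈ S ×ˢ S, g z := by
    rw [hg]; exact hbig
  obtain ⟨δ, hδ⟩ : ∃ δ : ℝ, δ = R / U := ⟨_, rfl⟩
  have hδ0 : 0 < δ := by rw [hδ]; positivity
  obtain ⟨P, hP⟩ : ∃ P, P = (S ×ˢ S).filter (fun z => |((z.1 - z.2 : ℤ) : ℝ) * θ - round (((z.1 - z.2 : ℤ) : ℝ) * θ)| ≤ δ) := ⟨_, rfl⟩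
  have hsum : ∑ z ∈ S ×ˢ S, g z ≤ U * P.card + n ^ 2 * (1 / (2 * δ)) := by
    have e1 : ∀ z ∈ S ×ˢ S, g z ≤ (if z ∈ P then (U : ℝ) else 0) + 1 / (2 * δ) := by
      intro z hz
      obtain ⟨g1, g2⟩ := geo_int u0 U (((z.1 - z.2 : ℤ) : ℝ) * θ)
      have hgz : g z = ‖∑ u ∈ Ioc u0 (u0 + U), ee ((u : ℝ) * (((z.1 - z.2 : ℤ) : ℝ) * θ))‖ := by rw [hg]
      rw [← hgz] at g1 g2
      split_ifs with hc
      · have : (0 : ℝ) ≤ 1 / (2 * δ) := by positivity
        linarith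
      · rw [zero_add]
        have h1 : δ < |((z.1 - z.2 : ℤ) : ℝ) * θ - round (((z.1 - z.2 : ℤ) : ℝ) * θ)| := by
          by_contra hcon
          exact hc (by rw [hP, mem_filter]; exact ⟨hz, not_lt.1 hcon⟩)
        have h2 := dd_round (((z.1 - z.2 : ℤ) : ℝ) * θ)
        have h3 : 4 * δ ≤ dd (((z.1 - z.2 : ℤ) : ℝ) * θ) := by linarith
        have h4 : 0 ≤ g z := by rw [hgz]; exact norm_nonneg _
        rw [le_div_iff₀ (by positivity)]
        nlinarith [mul_le_mul_of_nonneg_right h3 h4]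
    refine (sum_le_sum e1).trans ?_
    rw [sum_add_distrib, sum_const, card_product, nsmul_eq_mul]
    apply add_le_add
    · rw [← sum_filter, sum_const, nsmul_eq_mul, mul_comm]
      apply mul_le_mul_of_nonneg_left _ hU0.le
      have : ((S ×ˢ S).filter (fun z => z ∈ P)).card ≤ P.card := by
        apply card_le_card
        intro z hz
        exact (mem_filter.1 hz).2
      exact_mod_cast this
    · rw [hn]
      push_cast
      apply le_of_eq
      ring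
  -- many pairs
  have hPbig : n ^ 2 / (2 * R) < P.card := by
    have e1 : 1 / (2 * δ) = U / (2 * R) := by rw [hδ]; field_simp
    rw [e1] at hsum
    have e4 : U * (n ^ 2 / (2 * R)) < U * P.card := by
      have : U * n ^ 2 / R = U * (n ^ 2 / (2 * R)) + n ^ 2 * (U / (2 * R)) := by field_simp; ring
      linarith
    exact lt_of_mul_lt_mul_left e4 hU0.le
  obtain ⟨T, hT⟩ : ∃ T, T = (Icc 1 W).filter (fun h : ℕ => |(h : ℝ) * θ - round ((h : ℝ) * θ)| ≤ δ) := ⟨_, rfl⟩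
  obtain ⟨G, hG⟩ : ∃ G : ℝ, G = T.card := ⟨_, rfl⟩
  have hPle : (P.card : ℝ) ≤ n * (2 * G + 1) := by
    obtain ⟨T', hT'⟩ : ∃ T' : Finset ℤ, T' = ({0} : Finset ℤ) ∪ (T.image (fun h : ℕ => (h : ℤ)) ∪ T.image (fun h : ℕ => -(h : ℤ))) := ⟨_, rfl⟩
    have hcT : T'.card ≤ 1 + (T.card + T.card) := by
      rw [hT']
      refine (card_union_le _ _).trans ?_
      apply add_le_add (by rw [card_singleton])
      exact (card_union_le _ _).trans (add_le_add card_image_le card_image_le)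
    have hcP : P.card ≤ (S ×ˢ T').card := by
      apply card_le_card_of_injOn (fun z => (z.1, z.1 - z.2))
      · intro z hz
        have hz' : z ∈ P := hz
        rw [hP, mem_filter, mem_product] at hz'
        obtain ⟨⟨h1, h2⟩, h3⟩ := hz'
        rw [mem_coe, mem_product]
        refine ⟨h1, ?_⟩
        show z.1 - z.2 ∈ T'
        have g1 := mem_Ioc.1 (hS h1)
        have g2 := mem_Ioc.1 (hS h2)
        rw [hT', mem_union, mem_union, mem_singleton, mem_image, mem_image]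
        by_cases h0 : z.1 - z.2 = 0
        · left; exact h0
        · right
          have hmem : (z.1 - z.2).natAbs ∈ T := by
            rw [hT, mem_filter, mem_Icc]
            refine ⟨⟨Int.natAbs_pos.2 h0, by omega⟩, ?_⟩
            rw [rd_natAbs]
            exact h3
          rcases Int.natAbs_eq (z.1 - z.2) with h | h
          · left; exact ⟨_, hmem, h.symm⟩
          · right; exact ⟨_, hmem, h.symm⟩
      · intro z _ z' _ heq
        simp only [Prod.mk.injEq] at heq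
        obtain ⟨e1, e2⟩ := heq
        apply Prod.ext e1
        linarith
    rw [card_product] at hcP
    have e1 : (P.card : ℝ) ≤ S.card * T'.card := by exact_mod_cast hcP
    have e2 : (T'.card : ℝ) ≤ 1 + (T.card + T.card) := by exact_mod_cast hcT
    rw [← hn] at e1
    rw [← hG] at e2
    refine e1.trans (mul_le_mul_of_nonneg_left ?_ hn0.le)
    linarith
  have hG1 : n / (2 * R) < 2 * G + 1 := by
    have e1 : n * (n / (2 * R)) < n * (2 * G + 1) := by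
      calc n * (n / (2 * R)) = n ^ 2 / (2 * R) := by ring
        _ < P.card := hPbig
        _ ≤ _ := hPle
    exact lt_of_mul_lt_mul_left e1 hn0.le
  have hn2 : 2 ≤ n / (2 * R) := by
    rw [le_div_iff₀ (by positivity)]
    linarith
  have hGge : 1 ≤ G := by
    have e1 : (0 : ℝ) < G := by linarith
    rw [hG] at e1 ⊢
    have : 0 < T.card := by exact_mod_cast e1
    exact_mod_cast this
  have hnG : n < 6 * R * G := by
    have e1 : n / (2 * R) < 3 * G := by linarith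
    rw [div_lt_iff₀ (by positivity)] at e1
    linarith
  have hWG : (W : ℝ) < 6 * R * Kc * G := by
    have : Kc * n < Kc * (6 * R * G) := mul_lt_mul_of_pos_left hnG (by linarith)
    linarith
  obtain ⟨q, c, hq1, hq2, hq3⟩ := near θ δ W hW1 T (by
      intro h hh
      rw [hT, mem_filter, mem_Icc] at hh
      exact ⟨hh.1.1, hh.1.2, hh.2⟩) (by
      rw [← hG, hδ]
      have e1 : 20 * (R / U) * W < 20 * (R / U) * (6 * R * Kc * G) := mul_lt_mul_of_pos_left hWG (by positivity)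
      have e2 : 20 * (R / U) * (6 * R * Kc * G) = (120 * R ^ 2 * Kc) / U * G := by ring
      have e3 : (120 * R ^ 2 * Kc) / U ≤ 1 := by rw [div_le_one hU0]; exact hU
      have e4 : (120 * R ^ 2 * Kc) / U * G ≤ 1 * G := mul_le_mul_of_nonneg_right e3 (by linarith)
      linarith) hδ0.le
  have hG0 : 0 < G := by linarith
  refine ⟨q, c, hq1, ?_, ?_⟩
  · have e1 : (q : ℝ) * G ≤ W := by rw [hG]; exact_mod_cast hq2
    have e2 : (q : ℝ) * G < (6 * R * Kc) * G := by linarith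
    exact (lt_of_mul_lt_mul_right e2 hG0.le).le
  · rw [← hG, hδ, le_div_iff₀ hU0] at hq3
    have e1 : |θ - c / q| * (U * W) ≤ |θ - c / q| * (U * (6 * R * Kc * G)) :=
      mul_le_mul_of_nonneg_left (mul_le_mul_of_nonneg_left hWG.le hU0.le) (abs_nonneg _)
    refine e1.trans ?_
    calc |θ - c / q| * (U * (6 * R * Kc * G)) = (|θ - c / q| * G * U) * (6 * R * Kc) := by ring
      _ ≤ R * (6 * R * Kc) := mul_le_mul_of_nonneg_right hq3 (by positivity)
      _ = _ := by ring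

/-- the frequencies at which the sum over the pairs is large -/
noncomputable def QS {ι : Type} (V K : ℕ) (I : Finset ι) (r : ι → ℤ) (S : Finset ℤ) : Finset ℕ :=
  (range (2 ^ (K + 1))).filter (fun t => (I.card : ℝ) * (S.card : ℝ) ^ 2 / (K : ℝ) ^ V <
    QQ I r S ((t : ℝ) / ((2 ^ (K + 1) : ℕ) : ℝ)))

lemma mem_QS {ι : Type} {V K : ℕ} {I : Finset ι} {r : ι → ℤ} {S : Finset ℤ} {t : ℕ} : t ∈ QS V K I r S ↔
    t < 2 ^ (K + 1) ∧ (I.card : ℝ) * (S.card : ℝ) ^ 2 / (K : ℝ) ^ V < QQ I r S ((t : ℝ) / ((2 ^ (K + 1) : ℕ) : ℝ)) := by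
  unfold QS
  rw [mem_filter, mem_range]

/-- differences from an interval -/
theorem QS_long (C V : ℕ) : ∃ c X₀ : ℕ, ∀ X : ℕ, X₀ ≤ X → ∀ (u0 w0 : ℤ) (x W : ℕ) (S : Finset ℤ),
    S ⊆ Ioc w0 (w0 + W) → (W : ℝ) ≤ Real.log X ^ C * S.card → Real.log X ^ (V + 2) ≤ S.card →
    Real.log X ^ (2 * V + C + 3) ≤ x → (X : ℝ) ≤ Real.log X ^ C * (x * W) →
    ∀ r : ℕ → ℤ, (∀ m, r m = u0 + m) → (QS V (lvl X) (Icc 1 x) r S).card ≤ lvl X ^ c := by
  classical
  obtain ⟨m, hm⟩ : ∃ m, m = 2 * V + 2 * C + 3 := ⟨_, rfl⟩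
  obtain ⟨k1, hk1⟩ := pow_two_ev' m
  obtain ⟨n1, h1⟩ := lvl_facts
  obtain ⟨n2, h2⟩ := log_pow_le (V + 1)
  obtain ⟨n3, h3⟩ := log_pow_le (2 * V + C + 2)
  obtain ⟨n4, h4⟩ := ev_L' ((k1 + 120 : ℕ) : ℝ)
  refine ⟨3 * m + 1, n1 + n2 + n3 + n4 + 2, fun X hX u0 w0 x W S hS hW hSc hx hXx r hr => ?_⟩
  obtain ⟨a1, a2, a3, a4⟩ := h1 X (by omega)
  have b2 := h2 X (by omega)
  have b3 := h3 X (by omega)
  have b4 := h4 X (by omega)
  obtain ⟨K, hK⟩ : ∃ K, K = lvl X := ⟨_, rfl⟩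
  rw [← hK] at a1 a2 a3 a4 b2 b3 ⊢
  have hL0 : 0 ≤ Real.log X := Real.log_natCast_nonneg X
  have hK8 : ((k1 + 120 : ℕ) : ℝ) ≤ K := b4.trans a3
  have hK8' : k1 + 120 ≤ K := by exact_mod_cast hK8
  have hK120 : (120 : ℝ) ≤ K := by exact_mod_cast (by omega : 120 ≤ K)
  have hK0 : (0 : ℝ) < K := by linarith
  have hK1 : (1 : ℝ) ≤ K := by linarith
  have hpow : ∀ j : ℕ, (1 : ℝ) ≤ (K : ℝ) ^ j := fun j => one_le_pow₀ hK1
  have hLC : Real.log X ^ C ≤ (K : ℝ) ^ C := pow_le_pow_left₀ hL0 a3 C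
  have hSK : (K : ℝ) ^ (V + 1) ≤ S.card := b2.trans (le_trans (le_of_eq (by congr 1)) hSc)
  have hxK : (K : ℝ) ^ (2 * V + C + 2) ≤ x := b3.trans (le_trans (le_of_eq (by congr 1)) hx)
  obtain ⟨Q, hQ⟩ : ∃ Q, Q = K ^ m := ⟨_, rfl⟩
  have hQ1 : 1 ≤ Q := by rw [hQ]; exact Nat.pow_pos (by omega)
  have hQx : Q ≤ 2 ^ K := by rw [hQ]; exact hk1 K (by omega)
  have hQr : (Q : ℝ) = (K : ℝ) ^ m := by rw [hQ]; push_cast; rfl
  have hsub : QS V K (Icc 1 x) r S ⊆ maj 1 (2 ^ (K + 1)) (2 ^ K) Q := by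
    intro t ht
    rw [mem_QS] at ht
    obtain ⟨ht1, ht2⟩ := ht
    obtain ⟨θ, hθ⟩ : ∃ θ : ℝ, θ = (t : ℝ) / ((2 ^ (K + 1) : ℕ) : ℝ) := ⟨_, rfl⟩
    rw [← hθ, Nat.card_Icc, Nat.add_sub_cancel] at ht2
    have hQQ : QQ (Icc 1 x) r S θ = QQ (Ioc u0 (u0 + (x : ℕ))) (fun u => u) S θ := by
      unfold QQ
      apply sum_congr rfl
      intro z _
      congr 1
      have him : Ioc u0 (u0 + (x : ℕ)) = (Icc 1 x).image (fun i : ℕ => u0 + (i : ℤ)) := by
        ext z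
        rw [mem_Ioc, mem_image]
        constructor
        · intro ⟨h1, h2⟩
          refine ⟨(z - u0).toNat, ?_, ?_⟩
          · rw [mem_Icc]; omega
          · omega
        · rintro ⟨i, hi, rfl⟩
          rw [mem_Icc] at hi
          omega
      rw [him, sum_image (by
        intro i _ j _ h
        have h' : u0 + (i : ℤ) = u0 + (j : ℤ) := h
        omega)]
      apply sum_congr rfl
      intro i _
      rw [hr]
    rw [hQQ] at ht2
    obtain ⟨q, c, hq1, hq2, hq3⟩ := sum_near ((K : ℝ) ^ V) ((K : ℝ) ^ (C + 1)) (hpow _) (hpow _) S u0 w0 x W hS (by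
        refine hW.trans (mul_le_mul_of_nonneg_right (hLC.trans ?_) (Nat.cast_nonneg _))
        rw [pow_succ]
        exact le_mul_of_one_le_right (by positivity) hK1) (by
        refine le_trans ?_ hSK
        rw [pow_succ]
        have := hpow V
        nlinarith) (by
        refine le_trans ?_ hxK
        have : (K : ℝ) ^ (2 * V + C + 2) = K * (((K : ℝ) ^ V) ^ 2 * (K : ℝ) ^ (C + 1)) := by ring
        rw [this, mul_assoc]
        exact mul_le_mul_of_nonneg_right hK120 (by positivity)) θ ht2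
    rw [mem_maj]
    refine ⟨mem_range.2 ht1, q, c, hq1, ?_, ?_⟩
    · have : (q : ℝ) ≤ Q := by
        refine hq2.trans ?_
        rw [hQr, hm]
        have e1 : (K : ℝ) ^ (2 * V + 2 * C + 3) = (K * ((K : ℝ) ^ V * (K : ℝ) ^ (C + 1))) * (K : ℝ) ^ (V + C + 1) := by ring
        rw [e1]
        have e3 := hpow (V + C + 1)
        have e4 : (0 : ℝ) ≤ (K : ℝ) ^ V * (K : ℝ) ^ (C + 1) := by positivity
        have e5 : 6 * (K : ℝ) ^ V * (K : ℝ) ^ (C + 1) ≤ K * ((K : ℝ) ^ V * (K : ℝ) ^ (C + 1)) := by nlinarith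
        exact e5.trans (le_mul_of_one_le_right (by positivity) e3)
      exact_mod_cast this
    · rw [← hθ, Nat.cast_one, one_mul]
      push_cast
      have hUW : (2 : ℝ) ^ K ≤ (K : ℝ) ^ (C + 1) * (x * W) := by
        have e1 : ((2 : ℝ) ^ K) ≤ 8 * X := by exact_mod_cast a2
        calc (2 : ℝ) ^ K ≤ 8 * X := e1
          _ ≤ K * (Real.log X ^ C * (x * W)) := mul_le_mul (by linarith) hXx (Nat.cast_nonneg _) (by linarith)
          _ ≤ K * ((K : ℝ) ^ C * (x * W)) := by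
              apply mul_le_mul_of_nonneg_left _ (by linarith)
              exact mul_le_mul_of_nonneg_right hLC (by positivity)
          _ = (K : ℝ) ^ (C + 1) * (x * W) := by ring
      have e1 : |θ - c / q| * (2 : ℝ) ^ K ≤ |θ - c / q| * ((K : ℝ) ^ (C + 1) * (x * W)) := mul_le_mul_of_nonneg_left hUW (abs_nonneg _)
      refine e1.trans ?_
      have e2 : |θ - c / q| * ((K : ℝ) ^ (C + 1) * (x * W)) = (K : ℝ) ^ (C + 1) * (|θ - c / q| * (x * W)) := by ring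
      rw [e2]
      have e3 : (K : ℝ) ^ (C + 1) * (|θ - c / q| * (x * W)) ≤ (K : ℝ) ^ (C + 1) * (6 * ((K : ℝ) ^ V) ^ 2 * (K : ℝ) ^ (C + 1)) :=
        mul_le_mul_of_nonneg_left hq3 (by positivity)
      refine e3.trans ?_
      rw [hQr, hm]
      have e4 : (K : ℝ) ^ (2 * V + 2 * C + 3) = K * ((K : ℝ) ^ (C + 1) * (((K : ℝ) ^ V) ^ 2 * (K : ℝ) ^ (C + 1))) := by ring
      rw [e4]
      have e5 : (0 : ℝ) ≤ (K : ℝ) ^ (C + 1) * (((K : ℝ) ^ V) ^ 2 * (K : ℝ) ^ (C + 1)) := by positivity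
      nlinarith
  have e1 := maj_card 1 (2 ^ (K + 1)) (2 ^ K) Q le_rfl (Nat.pow_pos (by norm_num)) hQ1 hQx
  have e2 : (((maj 1 (2 ^ (K + 1)) (2 ^ K) Q).card : ℕ) : ℝ) ≤ ((K ^ (3 * m + 1) : ℕ) : ℝ) := by
    refine e1.trans ?_
    have e3 : 2 * (Q : ℝ) * ((2 ^ (K + 1) : ℕ) : ℝ) / ((2 ^ K : ℕ) : ℝ) = 4 * Q := by
      push_cast
      rw [pow_succ]
      field_simp
      ring
    rw [e3]
    have hQ1r : (1 : ℝ) ≤ Q := by exact_mod_cast hQ1
    push_cast
    have e4 : (K : ℝ) ^ (3 * m + 1) = (Q : ℝ) ^ 3 * K := by rw [hQr]; ring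
    rw [e4]
    have e5 : (Q : ℝ) * ((1 + 2) * Q + 1) * (4 * Q + 1) ≤ Q * (4 * Q) * (5 * Q) := by
      gcongr <;> linarith
    refine e5.trans ?_
    have e6 : (Q : ℝ) * (4 * Q) * (5 * Q) = Q ^ 3 * 20 := by ring
    rw [e6]
    apply mul_le_mul_of_nonneg_left (by linarith) (by positivity)
  exact (card_le_card hsub).trans (by exact_mod_cast e2)

/-- differences with a small large spectrum -/
theorem QS_pat (C V c' : ℕ) : ∀ K : ℕ, 5 ≤ K → ∀ (ι : Type) (I : Finset ι) (S : Finset ℤ) (r : ι → ℤ),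
    (∀ w ∈ S, |w| ≤ (K : ℤ) ^ C) → (K : ℝ) ^ (V + 1) ≤ S.card →
    (Spec 2 (V + 1) K I (fun _ => 1 / (I.card : ℝ)) r).card ≤ K ^ c' →
    (QS V K I r S).card ≤ K ^ (2 * C + c' + 1) := by
  classical
  intro K hK ι I S r hS hSc hspec
  have hK4 : (5 : ℝ) ≤ K := by exact_mod_cast hK
  have hK0 : (0 : ℝ) < K := by linarith
  have hK1 : (1 : ℝ) ≤ K := by linarith
  have hn0 : (0 : ℝ) < S.card := lt_of_lt_of_le (by positivity) hSc
  obtain ⟨n, hn⟩ : ∃ n : ℝ, n = S.card := ⟨_, rfl⟩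
  have hnn : 0 < n := by rw [hn]; exact hn0
  obtain ⟨N, hN⟩ : ∃ N : ℝ, N = I.card := ⟨_, rfl⟩
  rcases Finset.eq_empty_or_nonempty I with hDe | hDne
  · subst hDe
    have he : QS V K (∅ : Finset ι) r S = ∅ := by
      unfold QS QQ
      rw [filter_eq_empty_iff]
      intro t _
      simp
    rw [he]
    simp
  have hN0 : 0 < N := by
    rw [hN]
    exact_mod_cast card_pos.2 hDne
  obtain ⟨V', hV'⟩ : ∃ V', V' = V + 1 := ⟨_, rfl⟩
  rw [← hV'] at hspec hSc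
  obtain ⟨Z, hZ⟩ : ∃ Z, Z = Spec 2 V' K I (fun _ => 1 / (I.card : ℝ)) r := ⟨_, rfl⟩
  rw [← hZ] at hspec
  obtain ⟨M, hM⟩ : ∃ M, M = 2 ^ (K + 1) := ⟨_, rfl⟩
  have hMpos : 0 < M := by rw [hM]; positivity
  obtain ⟨H, hH⟩ : ∃ H, H = 2 * K ^ C := ⟨_, rfl⟩
  have hsub : QS V K I r S ⊆ (Icc 1 H).biUnion (fun h => (range M).filter (fun t => (h * t) % M ∈ Z)) := by
    intro t ht
    rw [mem_QS, ← hM, ← hN, ← hn] at ht
    obtain ⟨ht1, ht2⟩ := ht
    obtain ⟨θ, hθ⟩ : ∃ θ : ℝ, θ = (t : ℝ) / (M : ℝ) := ⟨_, rfl⟩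
    rw [← hθ] at ht2
    have hb3 : N * n ^ 2 / (K : ℝ) ^ V < ∑ z ∈ S ×ˢ S, ‖∑ i ∈ I, ee ((r i : ℝ) * (((z.1 - z.2 : ℤ) : ℝ) * θ))‖ := ht2
    have hex : ∃ z ∈ S ×ˢ S, z.1 ≠ z.2 ∧ N / (K : ℝ) ^ V' < ‖∑ i ∈ I, ee ((r i : ℝ) * (((z.1 - z.2 : ℤ) : ℝ) * θ))‖ := by
      by_contra hcon
      push Not at hcon
      have e1 : ∑ z ∈ S ×ˢ S, ‖∑ i ∈ I, ee ((r i : ℝ) * (((z.1 - z.2 : ℤ) : ℝ) * θ))‖ ≤
          ∑ z ∈ S ×ˢ S, ((if z.1 = z.2 then N else 0) + N / (K : ℝ) ^ V') := by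
        apply sum_le_sum
        intro z hz
        split_ifs with h
        · have : ‖∑ i ∈ I, ee ((r i : ℝ) * (((z.1 - z.2 : ℤ) : ℝ) * θ))‖ ≤ N := by
            refine (norm_sum_le _ _).trans ?_
            simp only [norm_ee, sum_const, nsmul_eq_mul, mul_one]
            rw [hN]
          have h2 : 0 ≤ N / (K : ℝ) ^ V' := by positivity
          linarith
        · rw [zero_add]
          exact hcon z hz h
      have e2 : ∑ z ∈ S ×ˢ S, ((if z.1 = z.2 then N else 0) + N / (K : ℝ) ^ V') = n * N + n ^ 2 * (N / (K : ℝ) ^ V') := by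
        rw [sum_add_distrib, sum_const, card_product, nsmul_eq_mul]
        congr 1
        · rw [sum_product]
          simp only [sum_ite_eq, hn]
          rw [sum_congr rfl (fun x hx => if_pos hx), sum_const, nsmul_eq_mul]
        · rw [hn]; push_cast; ring
      rw [e2] at e1
      have e3 : N * n ^ 2 / (K : ℝ) ^ V < n * N + n ^ 2 * (N / (K : ℝ) ^ V') := lt_of_lt_of_le hb3 e1
      have e4 : n * N ≤ n ^ 2 * (N / (K : ℝ) ^ V') := by
        rw [← hn] at hSc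
        have : n ^ 2 * (N / (K : ℝ) ^ V') = n * N * (n / (K : ℝ) ^ V') := by ring
        rw [this]
        apply le_mul_of_one_le_right (by positivity)
        rw [le_div_iff₀ (by positivity), one_mul]
        exact hSc
      have e5 : 2 * (n ^ 2 * (N / (K : ℝ) ^ V')) ≤ N * n ^ 2 / (K : ℝ) ^ V := by
        have f2 : N / (K : ℝ) ^ V' = N / (K : ℝ) ^ V / K := by
          rw [hV', pow_succ]
          field_simp
        rw [f2]
        have f4 : N / (K : ℝ) ^ V / K ≤ N / (K : ℝ) ^ V / 2 := by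
          apply div_le_div_of_nonneg_left (by positivity) (by norm_num) (by linarith)
        calc 2 * (n ^ 2 * (N / (K : ℝ) ^ V / K)) ≤ 2 * (n ^ 2 * (N / (K : ℝ) ^ V / 2)) := by gcongr
          _ = _ := by ring
      linarith
    obtain ⟨z, hz, hne, hbz⟩ := hex
    rw [mem_product] at hz
    obtain ⟨h, hh⟩ : ∃ h : ℕ, h = (z.1 - z.2).natAbs := ⟨_, rfl⟩
    have hF : ‖∑ i ∈ I, ee ((r i : ℝ) * ((h : ℝ) * θ))‖ = ‖∑ i ∈ I, ee ((r i : ℝ) * (((z.1 - z.2 : ℤ) : ℝ) * θ))‖ := by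
      rcases Int.natAbs_eq (z.1 - z.2) with h1 | h1
      · have : ((z.1 - z.2 : ℤ) : ℝ) = h := by rw [h1, ← hh]; simp
        rw [this]
      · have : ((z.1 - z.2 : ℤ) : ℝ) = -(h : ℝ) := by rw [h1, ← hh]; simp
        rw [this, neg_mul, norm_neg_arg]
    rw [mem_biUnion]
    refine ⟨h, ?_, ?_⟩
    · rw [mem_Icc]
      have g1 := hS z.1 hz.1
      have g2 := hS z.2 hz.2
      have g3 : |z.1 - z.2| ≤ 2 * (K : ℤ) ^ C := by
        refine (abs_sub _ _).trans ?_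
        linarith
      refine ⟨by rw [hh]; exact Int.natAbs_pos.2 (sub_ne_zero.2 hne), ?_⟩
      have g4 : (h : ℤ) ≤ 2 * (K : ℤ) ^ C := by rw [hh]; simpa using g3
      rw [hH]
      exact_mod_cast g4
    · rw [mem_filter, mem_range]
      refine ⟨ht1, ?_⟩
      rw [hZ]
      unfold Spec
      rw [mem_filter, mem_range, ← hM]
      refine ⟨Nat.mod_lt _ hMpos, ?_⟩
      rw [← Pool.Agent.Y885.char_mod M hMpos, ← mul_sum, norm_mul, Complex.norm_real, Real.norm_of_nonneg (by positivity)]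
      have e1 : ∀ i, ee ((r i : ℝ) * (((h * t : ℕ) : ℝ) / (M : ℝ))) = ee ((r i : ℝ) * ((h : ℝ) * θ)) := by
        intro i
        rw [hθ]
        push_cast
        congr 2
        ring
      rw [sum_congr rfl (fun i _ => e1 i), hF, ← hN]
      have e2 : N / (K : ℝ) ^ V' = N * (1 / (K : ℝ) ^ V') := by ring
      rw [e2] at hbz
      rw [one_div_mul_eq_div, lt_div_iff₀ hN0, mul_comm]
      exact hbz
  refine (card_le_card hsub).trans (card_biUnion_le.trans ?_)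
  have e1 : ∀ h ∈ Icc 1 H, ((range M).filter (fun t => (h * t) % M ∈ Z)).card ≤ Z.card * H := by
    intro h hh
    rw [mem_Icc] at hh
    have e2 : ((range M).filter (fun t => (h * t) % M ∈ Z)).card ≤ (Z ×ˢ range H).card := by
      apply card_le_card_of_injOn (fun t => ((h * t) % M, (h * t) / M))
      · intro t ht
        have ht' := mem_filter.1 (show t ∈ (range M).filter (fun t => (h * t) % M ∈ Z) from ht)
        rw [mem_coe, mem_product, mem_range]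
        refine ⟨ht'.2, ?_⟩
        have h1 := mem_range.1 ht'.1
        show h * t / M < H
        rw [Nat.div_lt_iff_lt_mul hMpos]
        calc h * t ≤ H * t := Nat.mul_le_mul_right _ hh.2
          _ < H * M := Nat.mul_lt_mul_of_pos_left h1 (by omega)
      · intro t _ t' _ heq
        simp only [Prod.mk.injEq] at heq
        obtain ⟨e3, e4⟩ := heq
        have e5 := Nat.div_add_mod (h * t) M
        have e6 := Nat.div_add_mod (h * t') M
        rw [e3, e4, e6] at e5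
        exact (Nat.eq_of_mul_eq_mul_left (by omega) e5).symm
    rwa [card_product, card_range] at e2
  refine (sum_le_sum e1).trans ?_
  rw [sum_const, Nat.card_Icc, Nat.add_sub_cancel, smul_eq_mul]
  calc H * (Z.card * H) ≤ H * (K ^ c' * H) := Nat.mul_le_mul_left _ (Nat.mul_le_mul_right _ hspec)
    _ = 4 * K ^ (2 * C + c') := by rw [hH]; ring
    _ ≤ K * K ^ (2 * C + c') := Nat.mul_le_mul_right _ (by omega)
    _ = K ^ (2 * C + c' + 1) := by ring

/-- differences from a thin family, short patterns -/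
theorem QS_short (p C V : ℕ) : ∃ c X₀ : ℕ, ∀ X : ℕ, X₀ ≤ X → ∀ (x : ℕ) (r : ℕ → ℤ), 1 ≤ x → (∀ m ∈ Icc 1 x, |r m| ≤ X) →
    (energy p x r : ℝ) * X ≤ Real.log X ^ C * (x : ℝ) ^ (2 * p) →
    ∀ (w0 : ℤ) (S : Finset ℤ), (∀ w ∈ S, |((w - w0 : ℤ) : ℝ)| ≤ Real.log X ^ C) → Real.log X ^ (V + 2) ≤ S.card →
    (QS V (lvl X) (Icc 1 x) r S).card ≤ lvl X ^ c := by
  classical
  obtain ⟨c', K1, g1⟩ := energy_spec p (V + 1) (C + 1)
  obtain ⟨n1, h1⟩ := lvl_facts
  obtain ⟨n2, h2⟩ := log_pow_le (V + 1)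
  obtain ⟨n4, h4⟩ := ev_L' ((K1 + 8 : ℕ) : ℝ)
  refine ⟨2 * C + c' + 1, n1 + n2 + n4 + 2, fun X hX x r hx hr hE w0 S hS hSc => ?_⟩
  obtain ⟨a1, a2, a3, a4⟩ := h1 X (by omega)
  have b2 := h2 X (by omega)
  have b4 := h4 X (by omega)
  obtain ⟨K, hK⟩ : ∃ K, K = lvl X := ⟨_, rfl⟩
  rw [← hK] at a1 a2 a3 a4 b2 ⊢
  have hL0 : 0 ≤ Real.log X := Real.log_natCast_nonneg X
  have hK8 : ((K1 + 8 : ℕ) : ℝ) ≤ K := b4.trans a3
  have hK8' : K1 + 8 ≤ K := by exact_mod_cast hK8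
  have hKr : (8 : ℝ) ≤ K := by exact_mod_cast (by omega : 8 ≤ K)
  have hLC : Real.log X ^ C ≤ (K : ℝ) ^ C := pow_le_pow_left₀ hL0 a3 C
  obtain ⟨S', hS'⟩ : ∃ S', S' = S.image (fun w => w - w0) := ⟨_, rfl⟩
  have hinj : ∀ w w' : ℤ, w - w0 = w' - w0 → w = w' := fun w w' hw => by linarith
  have hcard : S'.card = S.card := by
    rw [hS']
    exact card_image_of_injective _ (fun w w' hw => hinj w w' hw)
  have hQS : QS V K (Icc 1 x) r S = QS V K (Icc 1 x) r S' := by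
    unfold QS
    apply filter_congr
    intro t _
    rw [hcard]
    have : QQ (Icc 1 x) r S ((t : ℝ) / ((2 ^ (K + 1) : ℕ) : ℝ)) = QQ (Icc 1 x) r S' ((t : ℝ) / ((2 ^ (K + 1) : ℕ) : ℝ)) := by
      unfold QQ
      rw [sum_product, sum_product, hS', sum_image (fun m _ m' _ hmm => hinj m m' hmm)]
      apply sum_congr rfl
      intro w _
      rw [sum_image (fun m _ m' _ hmm => hinj m m' hmm)]
      apply sum_congr rfl
      intro w' _
      have : w - w0 - (w' - w0) = w - w' := by ring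
      simp only [this]
    rw [this]
  rw [hQS]
  refine QS_pat C V c' K (by omega) ℕ (Icc 1 x) S' r ?_ ?_ ?_
  · intro w hw
    rw [hS', mem_image] at hw
    obtain ⟨w', hw', rfl⟩ := hw
    have e1 := (hS w' hw').trans hLC
    have e2 : (|w' - w0| : ℝ) ≤ (K : ℝ) ^ C := by
      push_cast at e1
      exact e1
    exact_mod_cast e2
  · rw [hcard]
    exact b2.trans (le_trans (le_of_eq (by congr 1)) hSc)
  · apply g1 K (by omega) x r hx
    · intro m hm
      refine (hr m hm).trans ?_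
      exact_mod_cast (by omega : X ≤ 2 ^ K)
    · have e1 : ((2 : ℝ) ^ K) ≤ 8 * X := by exact_mod_cast a2
      calc (energy p x r : ℝ) * 2 ^ K ≤ energy p x r * (8 * X) := mul_le_mul_of_nonneg_left e1 (Nat.cast_nonneg _)
        _ = 8 * (energy p x r * X) := by ring
        _ ≤ K * ((K : ℝ) ^ C * (x : ℝ) ^ (2 * p)) := by
            apply mul_le_mul hKr _ (by positivity) (by linarith)
            exact hE.trans (mul_le_mul_of_nonneg_right hLC (by positivity))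
        _ = (K : ℝ) ^ (C + 1) * (x : ℝ) ^ (2 * p) := by ring

theorem family_QS (p C V : ℕ) : ∃ c X₀ : ℕ, ∀ X : ℕ, X₀ ≤ X → ∀ (n : ℕ) (r : ℕ → ℤ) (S : Finset ℤ), 1 ≤ n →
    (Long (V + 2) (2 * V + C + 3) C X n r S ∨ Short p (V + 2) C X n r S) →
    (QS V (lvl X) (Icc 1 n) r S).card ≤ lvl X ^ c := by
  obtain ⟨c1, X1, h1⟩ := QS_long C V
  obtain ⟨c2, X2, h2⟩ := QS_short p C V
  refine ⟨c1 + c2, X1 + X2 + 1, fun X hX n r S hn h => ?_⟩
  have hl : 1 ≤ lvl X := Nat.clog_pos (by norm_num) (by omega)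
  rcases h with ⟨u₀, w₀, W, g1, g2, g3, g4, g5, g6⟩ | ⟨g1, g2, w₀, g3, g4⟩
  · exact (h1 X (by omega) u₀ w₀ n W S g2 g3 g4 g5 g6 r g1).trans (Nat.pow_le_pow_right hl (by omega))
  · exact (h2 X (by omega) n r hn g1 g2 w₀ S g3 g4).trans (Nat.pow_le_pow_right hl (by omega))

/-- the law of the difference of two members of a pattern -/
theorem dif_law (A V c K : ℕ) (hK : 1 ≤ K) {ι : Type} (D I : Finset ι) (S : Finset ℤ) (r : ι → ℤ) (b : ℤ → ℤ) (hD : D ⊆ I)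
    (hDne : D.Nonempty) (hSne : S.Nonempty) (hDc : (I.card : ℝ) ≤ (K : ℝ) ^ A * D.card)
    (hQ : (QS (V + A) K I r S).card ≤ K ^ c) :
    TLaw 2 3 c V K (D ×ˢ (S ×ˢ S)) (fun _ => 1 / ((D.card : ℝ) * (S.card : ℝ) ^ 2))
      (fun ω => (b ω.2.1 - b ω.2.2) + r ω.1 * (ω.2.1 - ω.2.2)) := by
  classical
  have hd0 : (0 : ℝ) < D.card := by exact_mod_cast card_pos.2 hDne
  have hn0 : (0 : ℝ) < S.card := by exact_mod_cast card_pos.2 hSne
  have hK0 : (0 : ℝ) < K := by exact_mod_cast hK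
  refine ⟨fun _ _ => by positivity, ?_, ?_⟩
  · rw [sum_const, nsmul_eq_mul, card_product, card_product]
    push_cast
    apply le_of_eq
    field_simp
  have hsub : Spec 2 V K (D ×ˢ (S ×ˢ S)) (fun _ => 1 / ((D.card : ℝ) * (S.card : ℝ) ^ 2))
      (fun ω => (b ω.2.1 - b ω.2.2) + r ω.1 * (ω.2.1 - ω.2.2)) ⊆ QS (V + A) K I r S := by
    intro t ht
    unfold Spec at ht
    rw [mem_filter, mem_range] at ht
    obtain ⟨ht1, ht2⟩ := ht
    rw [mem_QS]
    refine ⟨ht1, ?_⟩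
    obtain ⟨θ, hθ⟩ : ∃ θ : ℝ, θ = (t : ℝ) / ((2 ^ (K + 1) : ℕ) : ℝ) := ⟨_, rfl⟩
    rw [← hθ, ← mul_sum, norm_mul, Complex.norm_real, Real.norm_of_nonneg (by positivity), one_div_mul_eq_div,
      lt_div_iff₀ (by positivity)] at ht2
    rw [← hθ]
    -- the sum is a sum of squares
    obtain ⟨g, hg⟩ : ∃ g : ι → ℂ, g = fun i => ∑ w ∈ S, ee ((b w : ℝ) * θ + (r i : ℝ) * ((w : ℝ) * θ)) := ⟨_, rfl⟩
    have hgg : ∀ i, ((‖g i‖ ^ 2 : ℝ) : ℂ) = ∑ z ∈ S ×ˢ S, ee ((((b z.1 - b z.2) + r i * (z.1 - z.2) : ℤ) : ℝ) * θ) := by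
      intro i
      push_cast
      rw [← Complex.mul_conj', hg]
      simp only
      rw [map_sum, sum_mul_sum, sum_product]
      apply sum_congr rfl
      intro w _
      apply sum_congr rfl
      intro w' _
      rw [Pool.Agent.N469.SM.conj_ee', ← ee_add]
      congr 1
      ring
    have e1 : ∑ ω ∈ D ×ˢ (S ×ˢ S), ee ((((b ω.2.1 - b ω.2.2) + r ω.1 * (ω.2.1 - ω.2.2) : ℤ) : ℝ) * θ) = ((∑ i ∈ D, ‖g i‖ ^ 2 : ℝ) : ℂ) := by
      rw [sum_product]
      push_cast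
      apply sum_congr rfl
      intro i _
      have := hgg i
      push_cast at this
      rw [this]
    rw [e1, Complex.norm_real, Real.norm_of_nonneg (by positivity)] at ht2
    have e2 : ∑ i ∈ D, ‖g i‖ ^ 2 ≤ ∑ i ∈ I, ‖g i‖ ^ 2 := sum_le_sum_of_subset_of_nonneg hD (fun _ _ _ => by positivity)
    have e3 : ∑ i ∈ I, ‖g i‖ ^ 2 ≤ QQ I r S θ := by
      have f1 : ((∑ i ∈ I, ‖g i‖ ^ 2 : ℝ) : ℂ) = ∑ z ∈ S ×ˢ S, ee ((b z.1 : ℝ) * θ - (b z.2 : ℝ) * θ) *
          ∑ i ∈ I, ee ((r i : ℝ) * (((z.1 - z.2 : ℤ) : ℝ) * θ)) := by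
        rw [Complex.ofReal_sum, sum_congr rfl (fun i _ => hgg i), sum_comm]
        apply sum_congr rfl
        intro z _
        rw [mul_sum]
        apply sum_congr rfl
        intro i _
        rw [← ee_add]
        congr 1
        push_cast
        ring
      have f2 : ∑ i ∈ I, ‖g i‖ ^ 2 = ‖((∑ i ∈ I, ‖g i‖ ^ 2 : ℝ) : ℂ)‖ := by
        rw [Complex.norm_real, Real.norm_of_nonneg (by positivity)]
      rw [f2, f1]
      refine (norm_sum_le _ _).trans (le_of_eq ?_)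
      unfold QQ
      apply sum_congr rfl
      intro z _
      rw [norm_mul, norm_ee, one_mul]
    refine lt_of_le_of_lt ?_ (lt_of_lt_of_le ht2 (e2.trans e3))
    rw [pow_add]
    have e4 : (I.card : ℝ) * (S.card : ℝ) ^ 2 / ((K : ℝ) ^ V * (K : ℝ) ^ A) ≤ ((K : ℝ) ^ A * D.card) * (S.card : ℝ) ^ 2 / ((K : ℝ) ^ V * (K : ℝ) ^ A) := by
      gcongr
    refine e4.trans (le_of_eq ?_)
    field_simp
  apply thin_card
  · intro t ht
    unfold Spec at ht
    rw [mem_filter, mem_range] at ht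
    exact ht.1
  · exact (card_le_card hsub).trans hQ

end Pool.Agent.V5helper23.KP
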