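import Pool.Agent.V5helper23.KP.Sq
import Pool.Agent.V5helper23.KP.GB
import Pool.Agent.Y885.MU5

set_option autoImplicit false

/-! Every bounded function correlates with few of the shifts of the Möbius function by the members of a pattern. -/

namespace Pool.Agent.V5helper23.KP
open Finset
open Pool.Agent.H373R2.T7
open Pool.Agent.Y885 (Thin TLaw Spec Fine)

/-- duality -/
lemma dual (N : ℕ) (S : Finset ℤ) (F : ℤ → ℕ → ℂ) (g : ℕ → ℂ) :
    (∑ w ∈ S, ‖∑ k ∈ Icc 1 N, g k * F w k‖) ^ 2 ≤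
      (∑ k ∈ Icc 1 N, ‖g k‖ ^ 2) * ∑ z ∈ S ×ˢ S, ‖∑ k ∈ Icc 1 N, F z.1 k * (starRingEnd ℂ) (F z.2 k)‖ := by
  classical
  obtain ⟨Tw, hT⟩ : ∃ Tw : ℤ → ℂ, Tw = fun w => ∑ k ∈ Icc 1 N, g k * F w k := ⟨_, rfl⟩
  obtain ⟨ε, hε⟩ : ∃ ε : ℤ → ℂ, ε = fun w => (starRingEnd ℂ) (Tw w) / (‖Tw w‖ : ℂ) := ⟨_, rfl⟩
  have hε1 : ∀ w, ‖ε w‖ ≤ 1 := by
    intro w
    rw [hε]
    simp only
    rw [norm_div, RCLike.norm_conj, Complex.norm_real, norm_norm]
    exact div_self_le_one _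
  have hε2 : ∀ w, ε w * Tw w = ((‖Tw w‖ : ℝ) : ℂ) := by
    intro w
    rw [hε]
    simp only
    rcases eq_or_ne (Tw w) 0 with h | h
    · rw [h]; simp
    · have h1 : ((‖Tw w‖ : ℝ) : ℂ) ≠ 0 := by
        rw [Ne, Complex.ofReal_eq_zero, norm_eq_zero]
        exact h
      rw [div_mul_eq_mul_div, div_eq_iff h1, Complex.conj_mul']
      ring
  obtain ⟨G, hG⟩ : ∃ G : ℕ → ℂ, G = fun k => ∑ w ∈ S, ε w * F w k := ⟨_, rfl⟩
  have h1 : ∑ w ∈ S, ‖Tw w‖ ≤ ∑ k ∈ Icc 1 N, ‖g k‖ * ‖G k‖ := by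
    have e1 : ((∑ w ∈ S, ‖Tw w‖ : ℝ) : ℂ) = ∑ k ∈ Icc 1 N, g k * G k := by
      rw [Complex.ofReal_sum, sum_congr rfl (fun w _ => (hε2 w).symm), hT, hG]
      simp only
      rw [sum_congr rfl (fun w _ => mul_sum _ _ _), sum_comm]
      apply sum_congr rfl
      intro k _
      rw [mul_sum]
      apply sum_congr rfl
      intro w _
      ring
    have e2 : ∑ w ∈ S, ‖Tw w‖ = ‖((∑ w ∈ S, ‖Tw w‖ : ℝ) : ℂ)‖ := by
      rw [Complex.norm_real, Real.norm_of_nonneg (sum_nonneg fun _ _ => norm_nonneg _)]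
    rw [e2, e1]
    refine (norm_sum_le _ _).trans (le_of_eq ?_)
    apply sum_congr rfl
    intro k _
    rw [norm_mul]
  have h2 : (∑ k ∈ Icc 1 N, ‖g k‖ * ‖G k‖) ^ 2 ≤ (∑ k ∈ Icc 1 N, ‖g k‖ ^ 2) * ∑ k ∈ Icc 1 N, ‖G k‖ ^ 2 :=
    sum_mul_sq_le_sq_mul_sq _ _ _
  have h3 : ∑ k ∈ Icc 1 N, ‖G k‖ ^ 2 ≤ ∑ z ∈ S ×ˢ S, ‖∑ k ∈ Icc 1 N, F z.1 k * (starRingEnd ℂ) (F z.2 k)‖ := by
    have e1 : ((∑ k ∈ Icc 1 N, ‖G k‖ ^ 2 : ℝ) : ℂ) = ∑ z ∈ S ×ˢ S, (ε z.1 * (starRingEnd ℂ) (ε z.2)) *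
        ∑ k ∈ Icc 1 N, F z.1 k * (starRingEnd ℂ) (F z.2 k) := by
      push_cast
      have f1 : ∀ k, ((‖G k‖ : ℝ) : ℂ) ^ 2 = ∑ z ∈ S ×ˢ S, (ε z.1 * (starRingEnd ℂ) (ε z.2)) * (F z.1 k * (starRingEnd ℂ) (F z.2 k)) := by
        intro k
        rw [← Complex.mul_conj', hG]
        simp only
        rw [map_sum, sum_mul_sum, sum_product]
        apply sum_congr rfl
        intro w _
        apply sum_congr rfl
        intro w' _
        rw [map_mul]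
        ring
      rw [sum_congr rfl (fun k _ => f1 k), sum_comm]
      apply sum_congr rfl
      intro z _
      rw [mul_sum]
    have e2 : ∑ k ∈ Icc 1 N, ‖G k‖ ^ 2 = ‖((∑ k ∈ Icc 1 N, ‖G k‖ ^ 2 : ℝ) : ℂ)‖ := by
      rw [Complex.norm_real, Real.norm_of_nonneg (sum_nonneg fun _ _ => by positivity)]
    rw [e2, e1]
    refine (norm_sum_le _ _).trans ?_
    apply sum_le_sum
    intro z _
    rw [norm_mul, norm_mul, RCLike.norm_conj]
    calc ‖ε z.1‖ * ‖ε z.2‖ * ‖∑ k ∈ Icc 1 N, F z.1 k * (starRingEnd ℂ) (F z.2 k)‖ ≤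
        1 * 1 * ‖∑ k ∈ Icc 1 N, F z.1 k * (starRingEnd ℂ) (F z.2 k)‖ := by
          apply mul_le_mul_of_nonneg_right _ (norm_nonneg _)
          exact mul_le_mul (hε1 _) (hε1 _) (norm_nonneg _) zero_le_one
      _ = _ := by ring
  have h0 : ∑ w ∈ S, ‖∑ k ∈ Icc 1 N, g k * F w k‖ = ∑ w ∈ S, ‖Tw w‖ := by rw [hT]
  rw [h0]
  calc (∑ w ∈ S, ‖Tw w‖) ^ 2 ≤ (∑ k ∈ Icc 1 N, ‖g k‖ * ‖G k‖) ^ 2 :=
        pow_le_pow_left₀ (sum_nonneg fun _ _ => norm_nonneg _) h1 2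
    _ ≤ _ := h2
    _ ≤ _ := mul_le_mul_of_nonneg_left h3 (sum_nonneg fun _ _ => by positivity)

/-- a sum over an interval of integers as a difference of two sums over initial intervals -/
lemma shift_sum (f : ℤ → ℂ) (hf : ∀ j : ℤ, j ≤ 0 → f j = 0) (y : ℤ) (x : ℕ) :
    ∑ k ∈ Icc 1 x, f ((k : ℤ) + y) = ∑ j ∈ Icc 1 (y + x).toNat, f (j : ℤ) - ∑ j ∈ Icc 1 y.toNat, f (j : ℤ) := by
  induction x with
  | zero => simp
  | succ x ih =>
    rw [Finset.sum_Icc_succ_top (by omega), ih]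
    rcases le_or_gt (y + x + 1) 0 with h | h
    · have h1 : (y + ((x + 1 : ℕ) : ℤ)).toNat = 0 := by push_cast; omega
      have h2 : (y + (x : ℤ)).toNat = 0 := by omega
      rw [h1, h2, hf _ (by push_cast; omega)]
      ring
    · have h1 : (y + ((x + 1 : ℕ) : ℤ)).toNat = (y + (x : ℤ)).toNat + 1 := by push_cast; omega
      rw [h1, Finset.sum_Icc_succ_top (by omega)]
      have h2 : (((y + (x : ℤ)).toNat + 1 : ℕ) : ℤ) = ((x + 1 : ℕ) : ℤ) + y := by push_cast; omega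
      rw [h2]
      ring

lemma ite_sum (X x : ℕ) (hx : x ≤ X) (f : ℕ → ℂ) : ∑ k ∈ Icc 1 X, (if k ≤ x then f k else 0) = ∑ k ∈ Icc 1 x, f k := by
  rw [← sum_filter]
  apply sum_congr _ (fun _ _ => rfl)
  ext k
  simp only [mem_filter, mem_Icc]
  omega

/-- a bounded function which correlates with many of the shifts: many pairs of shifts are correlated -/
lemma many_pairs (θ : ℕ → ℝ) (hθ : ∀ n, |θ n| ≤ 1) (X : ℕ) (hX : 1 ≤ X) (S S' : Finset ℤ) (hS' : S' ⊆ S) (y : ℤ → ℤ)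
    (hy : ∀ w ∈ S, |y w| ≤ X) (g : ℕ → ℂ) (G t₁ t₂ thr : ℝ) (hG : 0 ≤ G) (ht₂ : 0 ≤ t₂) (hthr : 0 ≤ thr)
    (hg : ∀ k ∈ Icc 1 X, ‖g k‖ ≤ G) (ht₁ : 0 ≤ t₁) (hcard : t₁ * S.card ≤ S'.card)
    (hw : ∀ w ∈ S', ∃ x ≤ X, t₂ * X ≤ ‖∑ k ∈ Icc 1 x, g k * exI (fun n => ((θ n : ℝ) : ℂ)) ((k : ℤ) + y w)‖)
    (Ev : ℤ × ℤ → Prop) (_hdec : DecidablePred Ev) (hEv : ∀ z ∈ S ×ˢ S, ¬ Ev z → ∀ N' ≤ 2 * X,
      ‖∑ j ∈ Icc 1 N', ((θ j : ℝ) : ℂ) * exI (fun n => ((θ n : ℝ) : ℂ)) ((j : ℤ) + (y z.1 - y z.2))‖ ≤ thr * X) :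
    (t₁ * t₂) ^ 2 * (S.card : ℝ) ^ 2 ≤ G ^ 2 * (((S ×ˢ S).filter Ev).card + 2 * thr * (S.card : ℝ) ^ 2) := by
  classical
  have hX0 : (0 : ℝ) < X := by exact_mod_cast hX
  obtain ⟨f, hf⟩ : ∃ f : ℤ → ℂ, f = exI (fun n => ((θ n : ℝ) : ℂ)) := ⟨_, rfl⟩
  rw [← hf] at hw hEv
  have hf1 : ∀ j, ‖f j‖ ≤ 1 := by
    intro j
    rw [hf]
    unfold exI
    split_ifs
    · rw [Complex.norm_real]
      exact hθ _
    · simp
  have hf0 : ∀ j : ℤ, j ≤ 0 → f j = 0 := by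
    intro j hj
    rw [hf]
    unfold exI
    rw [if_neg (by omega)]
  have hfpos : ∀ j : ℕ, 1 ≤ j → f (j : ℤ) = ((θ j : ℝ) : ℂ) := by
    intro j hj
    rw [hf]
    unfold exI
    rw [if_pos (by exact_mod_cast hj), Int.toNat_natCast]
  have hfre : ∀ j, (starRingEnd ℂ) (f j) = f j := by
    intro j
    rw [hf]
    unfold exI
    split_ifs
    · exact Complex.conj_ofReal _
    · simp
  choose! x hx1 hx2 using hw
  obtain ⟨F, hF⟩ : ∃ F : ℤ → ℕ → ℂ, F = fun w k => if k ≤ x w then f ((k : ℤ) + y w) else 0 := ⟨_, rfl⟩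
  have hTw : ∀ w ∈ S', ∑ k ∈ Icc 1 X, g k * F w k = ∑ k ∈ Icc 1 (x w), g k * f ((k : ℤ) + y w) := by
    intro w hw'
    rw [← ite_sum X (x w) (hx1 w hw')]
    apply sum_congr rfl
    intro k _
    rw [hF]
    simp only
    rw [mul_ite, mul_zero]
  have hlow : t₁ * S.card * (t₂ * X) ≤ ∑ w ∈ S', ‖∑ k ∈ Icc 1 X, g k * F w k‖ := by
    calc t₁ * S.card * (t₂ * X) ≤ S'.card * (t₂ * X) := mul_le_mul_of_nonneg_right hcard (by positivity)
      _ = ∑ w ∈ S', t₂ * X := by rw [sum_const, nsmul_eq_mul]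
      _ ≤ _ := by
          apply sum_le_sum
          intro w hw'
          rw [hTw w hw']
          exact hx2 w hw'
  have hdual := dual X S' F g
  have hg2 : ∑ k ∈ Icc 1 X, ‖g k‖ ^ 2 ≤ X * G ^ 2 := by
    calc ∑ k ∈ Icc 1 X, ‖g k‖ ^ 2 ≤ ∑ _k ∈ Icc 1 X, G ^ 2 := by
          apply sum_le_sum
          intro k hk
          exact pow_le_pow_left₀ (norm_nonneg _) (hg k hk) 2
      _ = X * G ^ 2 := by rw [sum_const, Nat.card_Icc, nsmul_eq_mul, Nat.add_sub_cancel]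
  have hpair : ∀ z ∈ S' ×ˢ S', ‖∑ k ∈ Icc 1 X, F z.1 k * (starRingEnd ℂ) (F z.2 k)‖ ≤ (if Ev z then (X : ℝ) else 0) + 2 * (thr * X) := by
    intro z hz
    rw [mem_product] at hz
    have hz1 := hS' hz.1
    have hz2 := hS' hz.2
    obtain ⟨x', hx'⟩ : ∃ x', x' = min (x z.1) (x z.2) := ⟨_, rfl⟩
    have hx'X : x' ≤ X := by rw [hx']; exact (min_le_left _ _).trans (hx1 _ hz.1)
    have e1 : ∑ k ∈ Icc 1 X, F z.1 k * (starRingEnd ℂ) (F z.2 k) = ∑ k ∈ Icc 1 x', f ((k : ℤ) + y z.1) * f ((k : ℤ) + y z.2) := by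
      rw [← ite_sum X x' hx'X]
      apply sum_congr rfl
      intro k _
      rw [hF]
      simp only
      by_cases h1 : k ≤ x z.1
      · by_cases h2 : k ≤ x z.2
        · rw [if_pos h1, if_pos h2, if_pos (by rw [hx']; exact le_min h1 h2), hfre]
        · have h4 : ¬ (k ≤ x') := by rw [hx']; omega
          rw [if_neg h2, if_neg h4]
          simp
      · have h4 : ¬ (k ≤ x') := by rw [hx']; omega
        rw [if_neg h1, if_neg h4]
        simp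
    rw [e1]
    by_cases hc : Ev z
    · rw [if_pos hc]
      have e2 : ‖∑ k ∈ Icc 1 x', f ((k : ℤ) + y z.1) * f ((k : ℤ) + y z.2)‖ ≤ X := by
        refine (norm_sum_le _ _).trans ?_
        calc ∑ k ∈ Icc 1 x', ‖f ((k : ℤ) + y z.1) * f ((k : ℤ) + y z.2)‖ ≤ ∑ _k ∈ Icc 1 x', (1 : ℝ) := by
              apply sum_le_sum
              intro k _
              rw [norm_mul]
              exact mul_le_one₀ (hf1 _) (norm_nonneg _) (hf1 _)
          _ = x' := by rw [sum_const, Nat.card_Icc, nsmul_eq_mul, Nat.add_sub_cancel, mul_one]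
          _ ≤ X := by exact_mod_cast hx'X
      have : 0 ≤ 2 * (thr * X) := by positivity
      linarith
    · rw [if_neg hc, zero_add]
      have e3 : ∑ k ∈ Icc 1 x', f ((k : ℤ) + y z.1) * f ((k : ℤ) + y z.2) =
          ∑ k ∈ Icc 1 x', (fun j : ℤ => f j * f (j + (y z.1 - y z.2))) ((k : ℤ) + y z.2) := by
        apply sum_congr rfl
        intro k _
        simp only
        rw [mul_comm, show (k : ℤ) + y z.2 + (y z.1 - y z.2) = (k : ℤ) + y z.1 by ring]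
      have e5 := shift_sum (fun j : ℤ => f j * f (j + (y z.1 - y z.2))) (by
        intro j hj
        show f j * f (j + (y z.1 - y z.2)) = 0
        rw [hf0 j hj, zero_mul]) (y z.2) x'
      rw [e3.trans e5]
      have e4 : ∀ N' ≤ 2 * X, ‖∑ j ∈ Icc 1 N', (fun j : ℤ => f j * f (j + (y z.1 - y z.2))) (j : ℤ)‖ ≤ thr * X := by
        intro N' hN'
        have := hEv z (mem_product.2 ⟨hz1, hz2⟩) hc N' hN'
        refine le_trans (le_of_eq ?_) this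
        congr 1
        apply sum_congr rfl
        intro j hj
        simp only
        rw [hfpos j (mem_Icc.1 hj).1]
      have hy2 := hy _ hz2
      have f1 := e4 ((y z.2 + (x' : ℤ)).toNat) (by
        have := abs_le.1 hy2
        omega)
      have f2 := e4 ((y z.2).toNat) (by
        have := abs_le.1 hy2
        omega)
      refine (norm_sub_le _ _).trans ?_
      linarith
  have hsum : ∑ z ∈ S' ×ˢ S', ‖∑ k ∈ Icc 1 X, F z.1 k * (starRingEnd ℂ) (F z.2 k)‖ ≤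
      X * ((S ×ˢ S).filter Ev).card + 2 * (thr * X) * (S.card : ℝ) ^ 2 := by
    refine (sum_le_sum hpair).trans ?_
    have h1 : S' ×ˢ S' ⊆ S ×ˢ S := product_subset_product hS' hS'
    refine (sum_le_sum_of_subset_of_nonneg h1 (fun z _ _ => ?_)).trans ?_
    · have : 0 ≤ 2 * (thr * X) := by positivity
      split_ifs <;> positivity
    · rw [sum_add_distrib, sum_const, card_product, nsmul_eq_mul, ← sum_filter, sum_const, nsmul_eq_mul]
      push_cast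
      apply le_of_eq
      ring
  have hfin : (t₁ * S.card * (t₂ * X)) ^ 2 ≤ (X * G ^ 2) * (X * ((S ×ˢ S).filter Ev).card + 2 * (thr * X) * (S.card : ℝ) ^ 2) := by
    calc (t₁ * S.card * (t₂ * X)) ^ 2 ≤ (∑ w ∈ S', ‖∑ k ∈ Icc 1 X, g k * F w k‖) ^ 2 := pow_le_pow_left₀ (by positivity) hlow 2
      _ ≤ _ := hdual
      _ ≤ _ := mul_le_mul hg2 hsum (sum_nonneg fun _ _ => norm_nonneg _) (by positivity)
  have e5 : (t₁ * S.card * (t₂ * X)) ^ 2 = (X : ℝ) ^ 2 * ((t₁ * t₂) ^ 2 * (S.card : ℝ) ^ 2) := by ring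
  have e6 : (X * G ^ 2) * (X * ((S ×ˢ S).filter Ev).card + 2 * (thr * X) * (S.card : ℝ) ^ 2) =
      (X : ℝ) ^ 2 * (G ^ 2 * (((S ×ˢ S).filter Ev).card + 2 * thr * (S.card : ℝ) ^ 2)) := by ring
  rw [e5, e6] at hfin
  exact le_of_mul_le_mul_left hfin (by positivity)

theorem univ_core (θ : ℕ → ℝ) (hθ : Fine θ) (T U : ℕ) : ∃ B : ℕ, ∀ C p : ℕ, ∃ B' X₀ : ℕ, ∀ X : ℕ, X₀ ≤ X →
    ∀ (n : ℕ) (r : ℕ → ℤ) (S : Finset ℤ), (Long B B' C X n r S ∨ Short p B C X n r S) → ∀ b : ℤ → ℤ,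
      ∀ E : Finset ℕ, E ⊆ Icc 1 n → (∀ m ∈ E, ∃ (a : ℤ) (g : ℕ → ℂ), (∀ w ∈ S, |a + b w + r m * w| ≤ X) ∧
        (∀ k ∈ Icc 1 X, ‖g k‖ ≤ Real.log X ^ T) ∧
        ∃ S' ⊆ S, (S.card : ℝ) / Real.log X ^ U < S'.card ∧ ∀ w ∈ S', ∃ x ≤ X,
          (X : ℝ) / Real.log X ^ U < ‖∑ k ∈ Icc 1 x, g k * exI (fun n => ((θ n : ℝ) : ℂ)) ((k : ℤ) + (a + b w + r m * w))‖) →
      (E.card : ℝ) ≤ n / Real.log X ^ U := by
  classical
  obtain ⟨U', hU'⟩ : ∃ U', U' = 4 * U + 2 * T + 1 := ⟨_, rfl⟩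
  obtain ⟨V, hV⟩ : ∃ V, V = 4 * U' + 4 * 0 + 7 := ⟨_, rfl⟩
  refine ⟨V + U + 2, fun C p => ?_⟩
  obtain ⟨c, X1, h1⟩ := family_QS p C (V + U)
  obtain ⟨K₀, h2⟩ := Pool.Agent.Y885.tl_probZ 2 3 c le_rfl (by norm_num) θ hθ 0 U'
  obtain ⟨X3, h3⟩ := ev_L' ((K₀ + 64 : ℕ) : ℝ)
  obtain ⟨X4, h4⟩ := lvl_facts
  refine ⟨2 * (V + U) + C + 3, X1 + X3 + X4 + 3, fun X hX n r S hfam b E hEI hE => ?_⟩
  have b3 := h3 X (by omega)
  obtain ⟨a1, a2, a3, a4⟩ := h4 X (by omega)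
  obtain ⟨L, hL⟩ : ∃ L, L = Real.log (X : ℝ) := ⟨_, rfl⟩
  obtain ⟨K, hK⟩ : ∃ K, K = lvl X := ⟨_, rfl⟩
  rw [← hK] at a1 a2 a3 a4
  rw [← hL] at b3 a3 a4 hE ⊢
  have hX0 : (0 : ℝ) < X := by exact_mod_cast (by omega : 0 < X)
  have hk : ((K₀ + 64 : ℕ) : ℝ) ≤ K := b3.trans a3
  have hk' : K₀ + 64 ≤ K := by exact_mod_cast hk
  have hL64 : (64 : ℝ) ≤ L := by
    refine le_trans ?_ b3
    exact_mod_cast (by omega : 64 ≤ K₀ + 64)
  have hL0 : 0 < L := by linarith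
  have hK0 : (0 : ℝ) < K := by linarith
  have hθ1 : ∀ n, |θ n| ≤ 1 := by
    intro n
    have := hθ.1.1 n
    rwa [Complex.norm_real] at this
  rcases Nat.eq_zero_or_pos n with hn | hn
  · subst hn
    have : E = ∅ := subset_empty.1 (hEI.trans (by simp))
    rw [this]
    simp
  have hSne : S.Nonempty := by
    rw [← card_pos]
    have h4 : Real.log X ^ (V + U + 2) ≤ S.card := by
      rcases hfam with ⟨_, _, _, _, _, _, g4, _⟩ | ⟨_, _, _, _, g4⟩ <;> exact g4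
    rw [← hL] at h4
    have : (0 : ℝ) < S.card := lt_of_lt_of_le (by positivity) h4
    exact_mod_cast this
  have hs0 : (0 : ℝ) < S.card := by exact_mod_cast card_pos.2 hSne
  by_contra hcon
  push Not at hcon
  have hEne : E.Nonempty := by
    rw [← card_pos]
    have : (0 : ℝ) < E.card := lt_of_le_of_lt (by positivity) hcon
    exact_mod_cast this
  have hE0 : (0 : ℝ) < E.card := by exact_mod_cast card_pos.2 hEne
  have hQS := h1 X (by omega) n r S hn hfam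
  rw [← hK] at hQS
  have hlaw := dif_law U V c K (by omega) E (Icc 1 n) S r b hEI hEne hSne (by
    rw [Nat.card_Icc, Nat.add_sub_cancel]
    have e1 : (n : ℝ) ≤ L ^ U * E.card := by
      rw [div_lt_iff₀ (by positivity)] at hcon
      linarith
    exact e1.trans (mul_le_mul_of_nonneg_right (pow_le_pow_left₀ hL0.le a3 U) (Nat.cast_nonneg _))) hQS
  -- the bad pairs
  obtain ⟨Ev, hEv⟩ : ∃ Ev : ℕ × (ℤ × ℤ) → Prop, Ev = fun ω => ∃ N' ≤ 2 * X, ((2 ^ K : ℕ) : ℝ) / (K : ℝ) ^ U' <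
      ‖∑ j ∈ Icc 1 N', ((θ j : ℝ) : ℂ) * exI (fun n => ((θ n : ℝ) : ℂ)) ((j : ℤ) + ((b ω.2.1 - b ω.2.2) + r ω.1 * (ω.2.1 - ω.2.2)))‖ := ⟨_, rfl⟩
  obtain ⟨Q, hQ⟩ : ∃ Q : ℝ, Q = L ^ (4 * U + 2 * T) := ⟨_, rfl⟩
  have hQ1 : 1 ≤ Q := by rw [hQ]; exact one_le_pow₀ (by linarith)
  have hQ0 : 0 < Q := by linarith
  have hKU : 64 * Q ≤ (K : ℝ) ^ U' := by
    calc 64 * Q ≤ L * Q := mul_le_mul_of_nonneg_right hL64 hQ0.le
      _ = L ^ U' := by rw [hQ, hU', pow_succ]; ring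
      _ ≤ _ := pow_le_pow_left₀ hL0.le a3 _
  have hthr : ((2 ^ K : ℕ) : ℝ) / (K : ℝ) ^ U' ≤ 1 / (8 * Q) * X := by
    have c1 : ((2 ^ K : ℕ) : ℝ) ≤ 8 * X := by exact_mod_cast a2
    calc ((2 ^ K : ℕ) : ℝ) / (K : ℝ) ^ U' ≤ 8 * X / (64 * Q) := by gcongr
      _ = 1 / (8 * Q) * X := by field_simp; norm_num
  have hmany : ∀ m ∈ E, 1 / (2 * Q) * (S.card : ℝ) ^ 2 ≤ (((S ×ˢ S).filter (fun z => Ev (m, z))).card : ℝ) := by
    intro m hm
    obtain ⟨a, g, g1, g2, S', g3, g4, g5⟩ := hE m hm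
    have h5 := many_pairs θ hθ1 X (by omega) S S' g3 (fun w => a + b w + r m * w) g1 g (L ^ T) (1 / L ^ U) (1 / L ^ U)
      (1 / (8 * Q)) (by positivity) (by positivity) (by positivity) g2 (by positivity) (by
        rw [one_div_mul_eq_div]; exact g4.le) (by
        intro w hw
        obtain ⟨x, hx1, hx2⟩ := g5 w hw
        refine ⟨x, hx1, ?_⟩
        rw [one_div_mul_eq_div]
        exact hx2.le) (fun z => Ev (m, z)) (Classical.decPred _) (by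
        intro z _ hz N' hN'
        by_contra hc
        push Not at hc
        apply hz
        rw [hEv]
        refine ⟨N', hN', lt_of_le_of_lt hthr ?_⟩
        refine lt_of_lt_of_eq hc ?_
        congr 1
        apply sum_congr rfl
        intro j _
        congr 2
        simp only
        ring)
    have e1 : (1 / L ^ U * (1 / L ^ U)) ^ 2 = 1 / L ^ (4 * U) := by
      rw [div_mul_div_comm, one_mul, ← pow_add, div_pow, one_pow, ← pow_mul]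
      congr 2
      ring
    have e2 : (L ^ T) ^ 2 = L ^ (2 * T) := by rw [← pow_mul, mul_comm]
    rw [e1, e2] at h5
    have e3 : (1 / Q) * (S.card : ℝ) ^ 2 ≤ (((@Finset.filter _ (fun z => Ev (m, z)) (Classical.decPred _) (S ×ˢ S)).card : ℝ) + 2 * (1 / (8 * Q)) * (S.card : ℝ) ^ 2) := by
      have e4 : 1 / L ^ (4 * U) * (S.card : ℝ) ^ 2 = L ^ (2 * T) * ((1 / Q) * (S.card : ℝ) ^ 2) := by
        rw [hQ, pow_add]
        field_simp
      rw [e4] at h5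
      exact le_of_mul_le_mul_left h5 (by positivity)
    have e5 : (1 / Q) * (S.card : ℝ) ^ 2 = 1 / (2 * Q) * (S.card : ℝ) ^ 2 + 1 / (4 * Q) * (S.card : ℝ) ^ 2 + 1 / (4 * Q) * (S.card : ℝ) ^ 2 := by
      field_simp
      norm_num
    have e6 : 2 * (1 / (8 * Q)) * (S.card : ℝ) ^ 2 = 1 / (4 * Q) * (S.card : ℝ) ^ 2 := by
      field_simp
      norm_num
    rw [e5, e6] at e3
    have e7 : (0 : ℝ) ≤ 1 / (4 * Q) * (S.card : ℝ) ^ 2 := by positivity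
    have e8 : (((@Finset.filter _ (fun z => Ev (m, z)) (Classical.decPred _) (S ×ˢ S)).card : ℝ)) = (((S ×ˢ S).filter (fun z => Ev (m, z))).card : ℝ) := by
      congr
    rw [e8] at e3
    linarith
  -- the law
  have h6 := h2 K (by omega) _ _ _ _ (by rw [← hV]; exact hlaw) (2 * X) (by omega) (by
    intro ω hω
    rw [mem_product, mem_product] at hω
    obtain ⟨hm, hz1, hz2⟩ := hω
    obtain ⟨a, _, g1, _⟩ := hE ω.1 hm
    have c1 := abs_le.1 (g1 _ hz1)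
    have c2 := abs_le.1 (g1 _ hz2)
    have c3 : (4 : ℤ) * X ≤ 2 ^ K := by exact_mod_cast a1
    have c4 : (b ω.2.1 - b ω.2.2) + r ω.1 * (ω.2.1 - ω.2.2) = (a + b ω.2.1 + r ω.1 * ω.2.1) - (a + b ω.2.2 + r ω.1 * ω.2.2) := by ring
    rw [c4]
    have c5 : (0 : ℤ) < X := by exact_mod_cast (by omega : 0 < X)
    push_cast
    constructor
    · linarith
    · linarith) 1 (by simp) (fun _ => 1) (fun _ j => ((θ j : ℝ) : ℂ)) (fun _ => le_rfl) (by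
    intro _ j _ _
    rw [pow_zero, Complex.norm_real]
    exact hθ1 j) Ev (Classical.decPred _) (by
    intro ω _ hev
    rw [hEv] at hev
    obtain ⟨N', hN', hlt⟩ := hev
    refine ⟨0, N', by omega, ?_⟩
    simp only [one_mul]
    exact hlt)
  have h7 : 1 / (2 * Q) ≤ ∑ ω ∈ E ×ˢ (S ×ˢ S), (@ite ℝ (Ev ω) (Classical.decPred Ev ω) (1 / ((E.card : ℝ) * (S.card : ℝ) ^ 2)) 0) := by
    rw [sum_product]
    have e1 : ∀ m ∈ E, 1 / (2 * Q) / E.card ≤ ∑ z ∈ S ×ˢ S, (@ite ℝ (Ev (m, z)) (Classical.decPred Ev (m, z)) (1 / ((E.card : ℝ) * (S.card : ℝ) ^ 2)) 0) := by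
      intro m hm
      rw [← sum_filter, sum_const, nsmul_eq_mul]
      have e2 := hmany m hm
      have e8 : (((@Finset.filter _ (fun z => Ev (m, z)) (fun z => Classical.decPred Ev (m, z)) (S ×ˢ S)).card : ℝ)) = (((S ×ˢ S).filter (fun z => Ev (m, z))).card : ℝ) := by
        congr
      rw [e8]
      calc 1 / (2 * Q) / E.card = 1 / (2 * Q) * (S.card : ℝ) ^ 2 * (1 / ((E.card : ℝ) * (S.card : ℝ) ^ 2)) := by field_simp
        _ ≤ _ := mul_le_mul_of_nonneg_right e2 (by positivity)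
    refine le_trans (le_of_eq ?_) (sum_le_sum e1)
    rw [sum_const, nsmul_eq_mul]
    field_simp
  have h8 := h7.trans h6
  have h9 : 1 / (K : ℝ) ^ U' < 1 / (2 * Q) := by
    apply one_div_lt_one_div_of_lt (by positivity)
    linarith
  linarith

end Pool.Agent.V5helper23.KP
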